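import Pool.Agent.H88.Pl.Defs

/-!
# Module AR: character sums of absolute value `p ^ (r / 2)` in a cyclotomic field
-/

set_option autoImplicit false

namespace Pool.Agent.H88.Pl
open Finset NumberField
namespace ArAux

lemma sum_range_eq {p : ℕ} [NeZero p] {M : Type*} [AddCommMonoid M] (f : ZMod p → M) :
    ∑ k ∈ Finset.range p, f (k : ZMod p) = ∑ k : ZMod p, f k := by
  refine Finset.sum_nbij' (fun k => (k : ZMod p)) ZMod.val ?_ ?_ ?_ ?_ ?_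
  · intro k _; simp
  · intro k _; simpa using ZMod.val_lt k
  · intro k hk; exact ZMod.val_cast_of_lt (by simpa using hk)
  · intro k _; simp
  · intro k _; rfl

/-- Norm square of the quadratic Gauss sum. -/
lemma norm_gs_sq {p : ℕ} [hp1 : Fact p.Prime] (hp : p ≠ 2) {w : ℂ} (hw : IsPrimitiveRoot w p) :
    ‖gs p w‖ ^ 2 = (p : ℝ) := by
  classical
  have hp0 : p ≠ 0 := hp1.out.ne_zero
  have : NeZero p := ⟨hp0⟩
  set ψ : AddChar (ZMod p) ℂ := AddChar.zmodChar p hw.pow_eq_one with hψ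
  have hprim : ψ.IsPrimitive := AddChar.zmodChar_primitive_of_primitive_root p hw
  have hgs : gs p w = ∑ k : ZMod p, ψ (k ^ 2) := by
    rw [gs, ← sum_range_eq]
    refine Finset.sum_congr rfl fun k _ => ?_
    rw [← Nat.cast_pow, hψ, AddChar.zmodChar_apply']
  have hmul : gs p w * (starRingEnd ℂ) (gs p w) = (p : ℂ) := by
    rw [hgs, map_sum, Finset.sum_mul_sum]
    have h1 : ∀ i j : ZMod p, ψ (i ^ 2) * (starRingEnd ℂ) (ψ (j ^ 2)) = ψ (i ^ 2 - j ^ 2) := by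
      intro i j
      rw [← AddChar.map_neg_eq_conj, ← AddChar.map_add_eq_mul, sub_eq_add_neg]
    simp_rw [h1]
    rw [Finset.sum_comm]
    have h2 : ∀ j : ZMod p, ∑ i : ZMod p, ψ (i ^ 2 - j ^ 2) =
        ∑ d : ZMod p, ψ (d ^ 2) * ψ (j * (2 * d)) := by
      intro j
      rw [← Equiv.sum_comp (Equiv.addRight j)]
      refine Finset.sum_congr rfl fun d _ => ?_
      rw [← AddChar.map_add_eq_mul]
      congr 1
      simp only [Equiv.coe_addRight]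
      ring
    simp_rw [h2]
    rw [Finset.sum_comm]
    have h3 : ∀ d : ZMod p, ∑ j : ZMod p, ψ (d ^ 2) * ψ (j * (2 * d)) =
        if d = 0 then (p : ℂ) else 0 := by
      intro d
      rw [← Finset.mul_sum]
      rw [AddChar.sum_mulShift _ hprim]
      have h2ne : (2 : ZMod p) ≠ 0 := by
        intro h2
        have : ((2 : ℕ) : ZMod p) = 0 := by exact_mod_cast h2
        rw [ZMod.natCast_eq_zero_iff] at this
        exact hp ((Nat.prime_dvd_prime_iff_eq hp1.out Nat.prime_two).1 this)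
      by_cases hd : d = 0
      · simp [hd, ZMod.card]
      · rw [if_neg (mul_ne_zero h2ne hd), if_neg hd]; simp
    simp_rw [h3]
    simp
  have h4 : ((‖gs p w‖ ^ 2 : ℝ) : ℂ) = (p : ℂ) := by
    rw [← hmul, Complex.mul_conj, Complex.normSq_eq_norm_sq]
  exact_mod_cast h4


/-- An element of the ring of integers of the `p^(k+1)`-th cyclotomic field which divides a power of `p`
and all whose conjugates have absolute value `p^(r/2)` generates the right power of the prime. -/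
lemma assoc_of_norm {p : ℕ} [hp1 : Fact p.Prime] (hp : p ≠ 2) (k : ℕ) {K : Type*} [Field K]
    [NumberField K] [hK : IsCyclotomicExtension {p ^ (k + 1)} ℚ K] {ζ : K}
    (hζ : IsPrimitiveRoot ζ (p ^ (k + 1))) (r : ℕ) (z : 𝓞 K) (hz : z ∣ (p : 𝓞 K) ^ r)
    (hn : ∀ φ : K →+* ℂ, ‖φ (z : K)‖ ^ 2 = (p : ℝ) ^ r) :
    ∃ i : ℕ, Associated z ((hζ.toInteger - 1) ^ i) ∧ 2 * i = r * Module.finrank ℚ K := by
  have hpi : Prime (hζ.toInteger - 1) := hζ.zeta_sub_one_prime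
  have hass : Associated (p : 𝓞 K) ((hζ.toInteger - 1) ^ Module.finrank ℚ K) := by
    rw [← Ideal.span_singleton_eq_span_singleton, ← Ideal.span_singleton_pow,
      ← IsCyclotomicExtension.Rat.map_eq_span_zeta_sub_one_pow p k hζ, Ideal.map_span,
      Set.image_singleton]
    simp
  have hz2 : z ∣ (hζ.toInteger - 1) ^ (Module.finrank ℚ K * r) := by
    rw [pow_mul]
    exact hz.trans (hass.pow_pow).dvd
  obtain ⟨i, hi, hzi⟩ := (dvd_prime_pow hpi _).1 hz2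
  refine ⟨i, hzi, ?_⟩
  have h1 : Associated (Algebra.norm ℤ z) ((p : ℤ) ^ i) := by
    have := hzi.map (Algebra.norm ℤ : 𝓞 K →* ℤ)
    rwa [map_pow, hζ.norm_toInteger_sub_one_of_prime_ne_two hp] at this
  have h2 : (Algebra.norm ℤ z).natAbs = p ^ i := by
    rw [Int.associated_iff_natAbs] at h1
    rw [h1, Int.natAbs_pow]; simp
  have h3 : ((Algebra.norm ℚ (z : K) : ℚ) : ℂ) = ∏ φ : K →ₐ[ℚ] ℂ, φ (z : K) := by
    have := Algebra.norm_eq_prod_embeddings ℚ ℂ (z : K)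
    simpa using this
  have h4 : ‖((Algebra.norm ℚ (z : K) : ℚ) : ℂ)‖ ^ 2 = (p : ℝ) ^ (r * Module.finrank ℚ K) := by
    rw [h3, norm_prod, ← Finset.prod_pow]
    have : ∀ φ : K →ₐ[ℚ] ℂ, ‖φ (z : K)‖ ^ 2 = (p : ℝ) ^ r := fun φ => hn φ.toRingHom
    rw [Finset.prod_congr rfl (fun φ _ => this φ), Finset.prod_const, Finset.card_univ,
      AlgHom.card, pow_mul]
  have h5 : ‖((Algebra.norm ℚ (z : K) : ℚ) : ℂ)‖ = (p : ℝ) ^ i := by
    rw [← Algebra.coe_norm_int z]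
    have : (((Algebra.norm ℤ z : ℤ) : ℚ) : ℂ) = ((Algebra.norm ℤ z : ℤ) : ℂ) := by push_cast; rfl
    rw [this, Complex.norm_intCast]
    have h6 : |((Algebra.norm ℤ z : ℤ) : ℝ)| = (((Algebra.norm ℤ z).natAbs : ℕ) : ℝ) := by
      rw [Nat.cast_natAbs]; push_cast; rfl
    rw [h6, h2]; push_cast; rfl
  rw [h5, ← pow_mul] at h4
  have h7 : p ^ (i * 2) = p ^ (r * Module.finrank ℚ K) := by exact_mod_cast h4
  have := Nat.pow_right_injective hp1.out.two_le h7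
  omega


lemma conj_eq {n : ℕ} (hn : n ≠ 0) {ξ : ℂ} (hξ : IsPrimitiveRoot ξ n) :
    ξ ^ (n - 1) = (starRingEnd ℂ) ξ := by
  have h0 : ‖ξ‖ = 1 := Complex.norm_eq_one_of_pow_eq_one hξ.pow_eq_one hn
  have h1 : ξ ^ (n - 1) * ξ = 1 := by
    rw [← pow_succ, Nat.sub_add_cancel (Nat.one_le_iff_ne_zero.2 hn), hξ.pow_eq_one]
  have h2 : (starRingEnd ℂ) ξ * ξ = 1 := by
    rw [mul_comm, Complex.mul_conj, Complex.normSq_eq_norm_sq, h0]; simp
  have hne : ξ ≠ 0 := by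
    intro h3; rw [h3, norm_zero] at h0; exact zero_ne_one h0
  exact mul_right_cancel₀ hne (h1.trans h2.symm)

lemma dvd_of_norm {p k : ℕ} [hp1 : Fact p.Prime] {K : Type*} [Field K]
    [NumberField K] {ζ : K} (hζ : IsPrimitiveRoot ζ (p ^ (k + 1))) (s : ℕ) {Y : Type*} [Fintype Y]
    (b : Y → ℕ) (φ : K →+* ℂ) (hn : ‖∑ y, (φ ζ) ^ b y‖ ^ 2 = (p : ℝ) ^ s) :
    (∑ y, hζ.toInteger ^ b y) ∣ (p : 𝓞 K) ^ s := by
  have hnz : p ^ (k + 1) ≠ 0 := pow_ne_zero _ hp1.out.ne_zero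
  refine ⟨∑ y, (hζ.toInteger ^ (p ^ (k + 1) - 1)) ^ b y, ?_⟩
  apply RingOfIntegers.coe_injective
  apply φ.injective
  have hc : ∀ y, ((φ ζ) ^ (p ^ (k + 1) - 1)) ^ b y = (starRingEnd ℂ) ((φ ζ) ^ b y) := by
    intro y
    rw [conj_eq hnz (hζ.map_of_injective φ.injective), map_pow]
  have e1 : φ (((p : 𝓞 K) ^ s : 𝓞 K) : K) = (p : ℂ) ^ s := by simp
  have e2 : φ (((∑ y, hζ.toInteger ^ b y) * ∑ y, (hζ.toInteger ^ (p ^ (k + 1) - 1)) ^ b y : 𝓞 K) : K)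
      = (∑ y, (φ ζ) ^ b y) * ∑ y, ((φ ζ) ^ (p ^ (k + 1) - 1)) ^ b y := by
    simp only [map_mul, map_sum, map_pow]
    rfl
  rw [e1, e2]
  simp_rw [hc]
  rw [← map_sum, Complex.mul_conj, Complex.normSq_eq_norm_sq, hn]
  push_cast; rfl

end ArAux

theorem arith {p : ℕ} [Fact p.Prime] (hp : p ≠ 2) {e : ℕ} (he : 1 ≤ e) (r : ℕ) {X : Type*}
    [Fintype X] (a : X → ℕ)
    (h : ∀ ξ : ℂ, IsPrimitiveRoot ξ (p ^ e) → ‖∑ x, ξ ^ a x‖ ^ 2 = (p : ℝ) ^ r) :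
    ∃ (ε : ℤ) (j : ℕ), (ε = 1 ∨ ε = -1) ∧ ∀ ξ : ℂ, IsPrimitiveRoot ξ (p ^ e) →
      ∑ x, ξ ^ a x = ε * ξ ^ j * gs p (ξ ^ (p ^ (e - 1))) ^ r := by
  classical
  have hp1 : p.Prime := Fact.out
  obtain ⟨k, rfl⟩ : ∃ k, e = k + 1 := ⟨e - 1, by omega⟩
  simp only [Nat.add_sub_cancel]
  have hp0 : p ≠ 0 := hp1.ne_zero
  have hnz : p ^ (k + 1) ≠ 0 := pow_ne_zero _ hp0
  have : NeZero (p ^ (k + 1)) := ⟨hnz⟩
  let K := CyclotomicField (p ^ (k + 1)) ℚ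
  have hK : IsCyclotomicExtension {p ^ (k + 1)} ℚ K := CyclotomicField.isCyclotomicExtension _ _
  have : NumberField K := IsCyclotomicExtension.numberField {p ^ (k + 1)} ℚ K
  let ζ : K := IsCyclotomicExtension.zeta (p ^ (k + 1)) ℚ K
  have hζ : IsPrimitiveRoot ζ (p ^ (k + 1)) := IsCyclotomicExtension.zeta_spec _ _ _
  have hemb : ∀ φ : K →+* ℂ, IsPrimitiveRoot (φ ζ) (p ^ (k + 1)) := fun φ =>
    hζ.map_of_injective φ.injective
  -- every primitive root comes from an embedding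
  have hirr : Irreducible (Polynomial.cyclotomic (p ^ (k + 1)) ℚ) :=
    Polynomial.cyclotomic.irreducible_rat (Nat.pos_of_ne_zero hnz)
  have hsurj : ∀ ξ : ℂ, IsPrimitiveRoot ξ (p ^ (k + 1)) → ∃ φ : K →+* ℂ, φ ζ = ξ := by
    intro ξ hξ
    have hmem : ξ ∈ primitiveRoots (p ^ (k + 1)) ℂ :=
      (mem_primitiveRoots (Nat.pos_of_ne_zero hnz)).2 hξ
    refine ⟨((hζ.embeddingsEquivPrimitiveRoots ℂ hirr).symm ⟨ξ, hmem⟩ : K →ₐ[ℚ] ℂ).toRingHom, ?_⟩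
    have := hζ.embeddingsEquivPrimitiveRoots_apply_coe ℂ hirr
      ((hζ.embeddingsEquivPrimitiveRoots ℂ hirr).symm ⟨ξ, hmem⟩)
    rw [Equiv.apply_symm_apply] at this
    exact this.symm
  -- exponents of the Gauss sum
  let bg : Fin p → ℕ := fun i => p ^ k * (i : ℕ) ^ 2
  have hgs : ∀ ξ : ℂ, gs p (ξ ^ (p ^ k)) = ∑ i, ξ ^ bg i := by
    intro ξ
    rw [gs, Finset.sum_range]
    refine Finset.sum_congr rfl fun i _ => ?_
    rw [← pow_mul]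
  have hgn : ∀ ξ : ℂ, IsPrimitiveRoot ξ (p ^ (k + 1)) → ‖∑ i, ξ ^ bg i‖ ^ 2 = (p : ℝ) ^ 1 := by
    intro ξ hξ
    rw [← hgs, pow_one]
    refine ArAux.norm_gs_sq hp ?_
    exact hξ.pow (Nat.pos_of_ne_zero hnz) (by rw [pow_succ])
  let z : 𝓞 K := ∑ x, hζ.toInteger ^ a x
  let g : 𝓞 K := ∑ i, hζ.toInteger ^ bg i
  have hzφ : ∀ φ : K →+* ℂ, φ (z : K) = ∑ x, (φ ζ) ^ a x := by
    intro φ
    simp only [z, map_sum, map_pow]
    rfl
  have hgφ : ∀ φ : K →+* ℂ, φ (g : K) = ∑ i, (φ ζ) ^ bg i := by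
    intro φ
    simp only [g, map_sum, map_pow]
    rfl
  have φ0 : K →+* ℂ := (IsAlgClosed.lift : K →ₐ[ℚ] ℂ).toRingHom
  have hzd : z ∣ (p : 𝓞 K) ^ r := ArAux.dvd_of_norm hζ r a φ0 (h _ (hemb φ0))
  have hgd : g ∣ (p : 𝓞 K) ^ 1 := ArAux.dvd_of_norm hζ 1 bg φ0 (hgn _ (hemb φ0))
  obtain ⟨i, hi, hi2⟩ := ArAux.assoc_of_norm hp k hζ r z hzd (fun φ => by
    rw [hzφ]; exact h _ (hemb φ))
  obtain ⟨i', hi', hi2'⟩ := ArAux.assoc_of_norm hp k hζ 1 g hgd (fun φ => by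
    rw [hgφ]; exact hgn _ (hemb φ))
  have hii : i = i' * r := by
    have : 2 * i = 2 * (i' * r) := by rw [hi2, ← mul_assoc, hi2']; ring
    omega
  have hass : Associated (g ^ r) z := by
    have h1 : Associated (g ^ r) ((hζ.toInteger - 1) ^ i) := by
      rw [hii, pow_mul]; exact hi'.pow_pow
    exact h1.trans hi.symm
  obtain ⟨u, hu⟩ := hass
  have huφ : ∀ φ : K →+* ℂ, ‖φ ((u : 𝓞 K) : K)‖ = 1 := by
    intro φ
    have h1 : φ (z : K) = φ (g : K) ^ r * φ ((u : 𝓞 K) : K) := by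
      rw [← hu]; simp
    have h2 : ‖φ (z : K)‖ ^ 2 = (p : ℝ) ^ r := by rw [hzφ]; exact h _ (hemb φ)
    have h3 : ‖φ (g : K)‖ ^ 2 = (p : ℝ) ^ 1 := by rw [hgφ]; exact hgn _ (hemb φ)
    rw [h1, norm_mul, norm_pow, mul_pow, ← pow_mul, mul_comm r 2, pow_mul, h3, pow_one] at h2
    have hpr : ((p : ℝ) ^ r) ≠ 0 := pow_ne_zero _ (Nat.cast_ne_zero.2 hp0)
    have h4 : ‖φ ((u : 𝓞 K) : K)‖ ^ 2 = 1 := by
      have := h2
      field_simp at this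
      exact this
    exact (pow_eq_one_iff_of_nonneg (norm_nonneg _) two_ne_zero).1 h4
  -- Kronecker
  obtain ⟨n, hn0, hn⟩ := NumberField.Embeddings.pow_eq_one_of_norm_eq_one K ℂ
    (RingOfIntegers.isIntegral_coe (u : 𝓞 K)) huφ
  have hfin : IsOfFinOrder ((u : 𝓞 K) : K) := isOfFinOrder_iff_pow_eq_one.2 ⟨n, hn0, hn⟩
  have hodd : Odd (p ^ (k + 1)) := (hp1.odd_of_ne_two hp).pow
  obtain ⟨j, -, hj⟩ := hζ.exists_pow_or_neg_mul_pow_of_isOfFinOrder hodd hfin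
  have key : ∀ ξ : ℂ, IsPrimitiveRoot ξ (p ^ (k + 1)) → ∃ φ : K →+* ℂ, φ ζ = ξ ∧
      ∑ x, ξ ^ a x = φ ((u : 𝓞 K) : K) * gs p (ξ ^ (p ^ k)) ^ r := by
    intro ξ hξ
    obtain ⟨φ, hφ⟩ := hsurj ξ hξ
    refine ⟨φ, hφ, ?_⟩
    have h1 : φ (z : K) = φ (g : K) ^ r * φ ((u : 𝓞 K) : K) := by
      rw [← hu]; simp
    rw [hzφ, hgφ, hφ, ← hgs] at h1
    rw [h1, mul_comm]
  rcases hj with hj | hj
  · refine ⟨1, j, Or.inl rfl, fun ξ hξ => ?_⟩
    obtain ⟨φ, hφ, h1⟩ := key ξ hξ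
    rw [h1, hj, map_pow, hφ]
    push_cast; ring
  · refine ⟨-1, j, Or.inr rfl, fun ξ hξ => ?_⟩
    obtain ⟨φ, hφ, h1⟩ := key ξ hξ
    rw [h1, hj, map_neg, map_pow, hφ]
    push_cast; ring

end Pool.Agent.H88.Pl
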