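import Pool.Agent.H88.Pl.Defs

set_option autoImplicit false

namespace Pool.Agent.H88.Pl

open Finset

theorem cl_fin {p : ℕ} [Fact p.Prime] {G : Type*} [AddCommGroup G] :
    ∀ (k : ℕ) (e : Fin k → ℕ) (_ : ∀ i, 1 ≤ e i) (_ : ∑ i, e i = 3)
      (_ : G ≃+ (∀ i, ZMod (p ^ e i))),
    Nonempty (G ≃+ ZMod (p ^ 3)) ∨ Nonempty (G ≃+ ZMod (p ^ 2) × ZMod p) ∨
      Nonempty (G ≃+ (Fin 3 → ZMod p)) := by
  intro k e he hsum φ
  have hk : k ≤ 3 := by
    have h1 : ∑ _i : Fin k, 1 ≤ ∑ i, e i := Finset.sum_le_sum fun i _ => he i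
    simpa [hsum] using h1
  match k, e, he, hsum, φ, hk with
  | 0, e, he, hsum, φ, _ => simp at hsum
  | 1, e, he, hsum, φ, _ =>
    left
    have h0 : e 0 = 3 := by simpa using hsum
    let ψ : (∀ i : Fin 1, ZMod (p ^ e i)) ≃+ ZMod (p ^ e 0) :=
      { Equiv.piUnique (fun i : Fin 1 => ZMod (p ^ e i)) with map_add' := fun _ _ => rfl }
    exact ⟨(φ.trans ψ).trans (ZMod.ringEquivCongr (by rw [h0])).toAddEquiv⟩
  | 2, e, he, hsum, φ, _ =>
    right; left
    rw [Fin.sum_univ_two] at hsum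
    have h0 := he 0
    have h1 := he 1
    let ψ : (∀ i : Fin 2, ZMod (p ^ e i)) ≃+ ZMod (p ^ e 0) × ZMod (p ^ e 1) :=
      (RingEquiv.piFinTwo (fun i : Fin 2 => ZMod (p ^ e i))).toAddEquiv
    rcases (by omega : (e 0 = 2 ∧ e 1 = 1) ∨ (e 0 = 1 ∧ e 1 = 2)) with ⟨a0, a1⟩ | ⟨a0, a1⟩
    · exact ⟨(φ.trans ψ).trans (AddEquiv.prodCongr
        (ZMod.ringEquivCongr (by rw [a0])).toAddEquiv
        (ZMod.ringEquivCongr (by rw [a1, pow_one])).toAddEquiv)⟩
    · exact ⟨((φ.trans ψ).trans AddEquiv.prodComm).trans (AddEquiv.prodCongr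
        (ZMod.ringEquivCongr (by rw [a1])).toAddEquiv
        (ZMod.ringEquivCongr (by rw [a0, pow_one])).toAddEquiv)⟩
  | 3, e, he, hsum, φ, _ =>
    right; right
    rw [Fin.sum_univ_three] at hsum
    have h0 := he 0
    have h1 := he 1
    have h2 := he 2
    have h3 : ∀ i : Fin 3, e i = 1 := by
      intro i
      fin_cases i
      · simp only [Fin.zero_eta]; omega
      · simp only [Fin.mk_one]; omega
      · simp only [Fin.reduceFinMk]; omega
    exact ⟨φ.trans (AddEquiv.piCongrRight fun i =>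
      (ZMod.ringEquivCongr (by rw [h3 i, pow_one])).toAddEquiv)⟩
  | k + 4, e, he, hsum, φ, hk => omega

/-- Module CL: abelian groups of order `p ^ 3`. -/
theorem classify {p : ℕ} [Fact p.Prime] {G : Type*} [AddCommGroup G] [Finite G]
    (hG : Nat.card G = p ^ 3) :
    Nonempty (G ≃+ ZMod (p ^ 3)) ∨ Nonempty (G ≃+ ZMod (p ^ 2) × ZMod p) ∨
      Nonempty (G ≃+ (Fin 3 → ZMod p)) := by
  classical
  have hpp : p.Prime := Fact.out
  obtain ⟨ι, hι, n, hn, ⟨φ⟩⟩ := AddCommGroup.equiv_directSum_zmod_of_finite' G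
  let φ1 : G ≃+ (∀ i, ZMod (n i)) := φ.trans (DirectSum.addEquivProd fun i => ZMod (n i))
  have hcard : ∏ i, n i = p ^ 3 := by
    rw [← hG, Nat.card_congr φ1.toEquiv, Nat.card_pi]
    apply Finset.prod_congr rfl
    intro i _
    rw [Nat.card_zmod]
  have h1 : ∀ i, ∃ m, 1 ≤ m ∧ n i = p ^ m := by
    intro i
    have hd : n i ∣ p ^ 3 := by
      rw [← hcard]
      exact Finset.dvd_prod_of_mem n (Finset.mem_univ i)
    obtain ⟨m, -, hm⟩ := (Nat.dvd_prime_pow hpp).1 hd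
    refine ⟨m, ?_, hm⟩
    rcases Nat.eq_zero_or_pos m with h0 | h0
    · exfalso
      have := hn i
      rw [hm, h0, pow_zero] at this
      exact lt_irrefl _ this
    · exact h0
  choose e he hne using h1
  have hsum : ∑ i, e i = 3 := by
    have h2 : p ^ ∑ i, e i = p ^ 3 := by
      rw [← hcard, ← Finset.prod_pow_eq_pow_sum]
      exact Finset.prod_congr rfl fun i _ => (hne i).symm
    exact Nat.pow_right_injective hpp.two_le h2
  let φ2 : G ≃+ (∀ i, ZMod (p ^ e i)) := φ1.trans (AddEquiv.piCongrRight fun i =>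
    (ZMod.ringEquivCongr (hne i)).toAddEquiv)
  let E := Fintype.equivFin ι
  let ψ : (∀ i, ZMod (p ^ e i)) ≃+ (∀ j : Fin (Fintype.card ι), ZMod (p ^ e (E.symm j))) :=
    { Equiv.piCongrLeft' (fun i => ZMod (p ^ e i)) E with map_add' := fun _ _ => rfl }
  exact cl_fin (Fintype.card ι) (fun j => e (E.symm j)) (fun j => he _)
    (by rw [← hsum]; exact Equiv.sum_comp E.symm e) (φ2.trans ψ)

end Pool.Agent.H88.Pl
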