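import Pool.Agent.H88.Pl.Defs

/-!
# Module GS: quadratic Gauss sums
-/

set_option autoImplicit false

namespace Pool.Agent.H88.Pl

open Finset

namespace GsAux

lemma sum_range_eq {p : ℕ} [NeZero p] {M : Type*} [AddCommMonoid M] (f : ZMod p → M) :
    ∑ k ∈ Finset.range p, f (k : ZMod p) = ∑ k : ZMod p, f k := by
  refine Finset.sum_nbij' (fun k => (k : ZMod p)) ZMod.val ?_ ?_ ?_ ?_ ?_
  · intro k _; simp
  · intro k _; simpa using ZMod.val_lt k
  · intro k hk; exact ZMod.val_cast_of_lt (by simpa using hk)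
  · intro k _; simp
  · intro k _; rfl

lemma gs_eq {p : ℕ} [hp1 : Fact p.Prime] {w : ℂ} (hw : IsPrimitiveRoot w p) :
    gs p w = ∑ k : ZMod p, AddChar.zmodChar p hw.pow_eq_one (k ^ 2) := by
  rw [gs, ← sum_range_eq]
  refine Finset.sum_congr rfl fun k _ => ?_
  rw [← Nat.cast_pow, AddChar.zmodChar_apply']

lemma two_ne {p : ℕ} [hp1 : Fact p.Prime] (hp : p ≠ 2) : (2 : ZMod p) ≠ 0 := by
  intro h2
  have : ((2 : ℕ) : ZMod p) = 0 := by exact_mod_cast h2
  rw [ZMod.natCast_eq_zero_iff] at this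
  exact hp ((Nat.prime_dvd_prime_iff_eq hp1.out Nat.prime_two).1 this)

lemma ringChar_ne {p : ℕ} [hp1 : Fact p.Prime] (hp : p ≠ 2) : ringChar (ZMod p) ≠ 2 := by
  rwa [ZMod.ringChar_zmod_n]

/-- Sums over squares with a twist. -/
lemma sum_sq_shift {p : ℕ} [hp1 : Fact p.Prime] (hp : p ≠ 2) {ψ : AddChar (ZMod p) ℂ}
    (hψ : ψ.IsPrimitive) (C : ZMod p) (hC : C ≠ 0) :
    ∑ k : ZMod p, ψ (C * k ^ 2) = ∑ a : ZMod p, ((quadraticChar (ZMod p) a : ℤ) : ℂ) * ψ (a * C) := by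
  classical
  have h1 : ∑ k : ZMod p, ψ (C * k ^ 2) =
      ∑ a : ZMod p, ∑ k ∈ univ.filter (fun k : ZMod p => k ^ 2 = a), ψ (C * a) := by
    rw [← Finset.sum_fiberwise_of_maps_to (s := univ) (t := univ) (g := fun k : ZMod p => k ^ 2)
      (fun _ _ => mem_univ _)]
    refine Finset.sum_congr rfl fun a _ => Finset.sum_congr rfl fun k hk => ?_
    rw [(mem_filter.1 hk).2]
  have h2 : ∀ a : ZMod p, ((univ.filter (fun k : ZMod p => k ^ 2 = a)).card : ℂ) =
      ((quadraticChar (ZMod p) a : ℤ) : ℂ) + 1 := by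
    intro a
    have h3 := quadraticChar_card_sqrts (ringChar_ne hp) a
    have h4 : {x : ZMod p | x ^ 2 = a}.toFinset = univ.filter (fun k : ZMod p => k ^ 2 = a) := by
      ext x; simp
    rw [h4] at h3
    have h5 : (((univ.filter (fun k : ZMod p => k ^ 2 = a)).card : ℤ) : ℂ) =
      ((quadraticChar (ZMod p) a + 1 : ℤ) : ℂ) := by rw [h3]
    push_cast at h5
    exact h5
  rw [h1]
  simp_rw [Finset.sum_const, nsmul_eq_mul, h2, add_mul, one_mul]
  rw [Finset.sum_add_distrib]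
  have h6 : ∑ a : ZMod p, ψ (C * a) = 0 := by
    have := AddChar.sum_mulShift C hψ
    rw [if_neg hC] at this
    simp_rw [mul_comm C]
    exact_mod_cast this
  rw [h6, add_zero]
  refine Finset.sum_congr rfl fun a _ => ?_
  rw [mul_comm C a]

lemma sum_sq_eq {p : ℕ} [hp1 : Fact p.Prime] (hp : p ≠ 2) {ψ : AddChar (ZMod p) ℂ}
    (hψ : ψ.IsPrimitive) (C : ZMod p) (hC : C ≠ 0) :
    ∑ k : ZMod p, ψ (C * k ^ 2) = ((quadraticChar (ZMod p) C : ℤ) : ℂ) * ∑ k : ZMod p, ψ (k ^ 2) := by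
  have h1 : ∑ k : ZMod p, ψ (k ^ 2) = ∑ a : ZMod p, ((quadraticChar (ZMod p) a : ℤ) : ℂ) * ψ a := by
    have := sum_sq_shift hp hψ 1 one_ne_zero
    simpa using this
  rw [sum_sq_shift hp hψ C hC, h1, Finset.mul_sum]
  rw [← Equiv.sum_comp (Equiv.mulRight₀ C hC) (fun a => ((quadraticChar (ZMod p) C : ℤ) : ℂ) *
    (((quadraticChar (ZMod p) a : ℤ) : ℂ) * ψ a))]
  refine Finset.sum_congr rfl fun a _ => ?_
  have h2 : (Equiv.mulRight₀ C hC) a = a * C := rfl
  have h4 : quadraticChar (ZMod p) (a * C) = quadraticChar (ZMod p) a * quadraticChar (ZMod p) C :=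
    map_mul _ _ _
  rw [h2, h4, Int.cast_mul]
  have h3 : ((quadraticChar (ZMod p) C : ℤ) : ℂ) ^ 2 = 1 := by
    have := quadraticChar_sq_one (F := ZMod p) hC
    exact_mod_cast this
  linear_combination (-((quadraticChar (ZMod p) a : ℤ) : ℂ) * ψ (a * C)) * h3

lemma quadChar_pow {p : ℕ} [hp1 : Fact p.Prime] (hp : p ≠ 2) (C : ZMod p) :
    ((quadraticChar (ZMod p) C : ℤ) : ZMod p) = C ^ ((p - 1) / 2) := by
  rw [quadraticChar_eq_pow_of_char_ne_two' (ringChar_ne hp), ZMod.card]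
  congr 1
  have := hp1.out.odd_of_ne_two hp
  obtain ⟨m, rfl⟩ := this
  omega

end GsAux

theorem norm_gs {p : ℕ} [Fact p.Prime] (hp : p ≠ 2) {w : ℂ} (hw : IsPrimitiveRoot w p) :
    ‖gs p w‖ ^ 2 = p := by
  classical
  have hp1 : p.Prime := Fact.out
  have hp0 : p ≠ 0 := hp1.ne_zero
  have : NeZero p := ⟨hp0⟩
  set ψ : AddChar (ZMod p) ℂ := AddChar.zmodChar p hw.pow_eq_one with hψ
  have hprim : ψ.IsPrimitive := AddChar.zmodChar_primitive_of_primitive_root p hw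
  have hgs : gs p w = ∑ k : ZMod p, ψ (k ^ 2) := GsAux.gs_eq hw
  have hmul : gs p w * (starRingEnd ℂ) (gs p w) = (p : ℂ) := by
    rw [hgs, map_sum, Finset.sum_mul_sum]
    have h1 : ∀ i j : ZMod p, ψ (i ^ 2) * (starRingEnd ℂ) (ψ (j ^ 2)) = ψ (i ^ 2 - j ^ 2) := by
      intro i j
      rw [← AddChar.map_neg_eq_conj, ← AddChar.map_add_eq_mul, sub_eq_add_neg]
    simp_rw [h1]
    rw [Finset.sum_comm]
    have h2 : ∀ j : ZMod p, ∑ i : ZMod p, ψ (i ^ 2 - j ^ 2) =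
        ∑ d : ZMod p, ψ (d ^ 2) * ψ (j * (2 * d)) := by
      intro j
      rw [← Equiv.sum_comp (Equiv.addRight j)]
      refine Finset.sum_congr rfl fun d _ => ?_
      rw [← AddChar.map_add_eq_mul]
      congr 1
      simp only [Equiv.coe_addRight]
      ring
    simp_rw [h2]
    rw [Finset.sum_comm]
    have h3 : ∀ d : ZMod p, ∑ j : ZMod p, ψ (d ^ 2) * ψ (j * (2 * d)) =
        if d = 0 then (p : ℂ) else 0 := by
      intro d
      rw [← Finset.mul_sum]
      rw [AddChar.sum_mulShift _ hprim]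
      by_cases hd : d = 0
      · simp [hd, ZMod.card]
      · rw [if_neg (mul_ne_zero (GsAux.two_ne hp) hd), if_neg hd]; simp
    simp_rw [h3]
    simp
  have h4 : ((‖gs p w‖ ^ 2 : ℝ) : ℂ) = (p : ℂ) := by
    rw [← hmul, Complex.mul_conj, Complex.normSq_eq_norm_sq]
  exact_mod_cast h4

theorem gs_sq {p : ℕ} [Fact p.Prime] (hp : p ≠ 2) {w : ℂ} (hw : IsPrimitiveRoot w p) :
    gs p w ^ 2 = (-1) ^ ((p - 1) / 2) * p := by
  have hp1 : p.Prime := Fact.out
  have hp0 : p ≠ 0 := hp1.ne_zero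
  have : NeZero p := ⟨hp0⟩
  set ψ : AddChar (ZMod p) ℂ := AddChar.zmodChar p hw.pow_eq_one with hψ
  have hprim : ψ.IsPrimitive := AddChar.zmodChar_primitive_of_primitive_root p hw
  have hgs : gs p w = ∑ k : ZMod p, ψ (k ^ 2) := GsAux.gs_eq hw
  have hconj : (starRingEnd ℂ) (gs p w) = ((quadraticChar (ZMod p) (-1) : ℤ) : ℂ) * gs p w := by
    rw [hgs, ← GsAux.sum_sq_eq hp hprim (-1) (neg_ne_zero.2 one_ne_zero), map_sum]
    refine Finset.sum_congr rfl fun k _ => ?_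
    rw [← AddChar.map_neg_eq_conj, neg_one_mul]
  have h1 : gs p w * (starRingEnd ℂ) (gs p w) = (p : ℂ) := by
    rw [Complex.mul_conj, Complex.normSq_eq_norm_sq, norm_gs hp hw]; push_cast; rfl
  have h2 : (quadraticChar (ZMod p) (-1) : ℤ) = (-1) ^ ((p - 1) / 2) := by
    have h3 := GsAux.quadChar_pow hp (-1)
    have h4 : (quadraticChar (ZMod p) (-1) : ℤ) = 1 ∨ (quadraticChar (ZMod p) (-1) : ℤ) = -1 :=
      quadraticChar_dichotomy (neg_ne_zero.2 one_ne_zero)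
    have hne : (1 : ZMod p) ≠ -1 := by
      intro h
      apply GsAux.two_ne hp
      have : (1 : ZMod p) + 1 = 0 := by nth_rw 2 [h]; ring
      rw [← one_add_one_eq_two]; exact this
    rcases neg_one_pow_eq_or ℤ ((p - 1) / 2) with h5 | h5 <;>
    rcases neg_one_pow_eq_or (ZMod p) ((p - 1) / 2) with h6 | h6 <;>
    rcases h4 with h4 | h4 <;> rw [h4, h6] at h3 <;> rw [h4, h5] <;> push_cast at h3
    all_goals first
      | rfl
      | exact absurd h3 hne
      | exact absurd h3.symm hne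
      | skip
    all_goals
      exfalso
      have h7 : (((-1 : ℤ) ^ ((p - 1) / 2) : ℤ) : ZMod p) = (-1) ^ ((p - 1) / 2) := by push_cast; rfl
      rw [h5, h6] at h7
      push_cast at h7
      first
        | exact hne h7
        | exact hne h7.symm
  rw [hconj, h2] at h1
  push_cast at h1
  have h8 : (((-1 : ℂ)) ^ ((p - 1) / 2)) * (((-1 : ℂ)) ^ ((p - 1) / 2)) = 1 := by
    rw [← mul_pow]; simp
  linear_combination ((-1 : ℂ) ^ ((p - 1) / 2)) * h1 - (gs p w ^ 2) * h8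

theorem sum_quadratic {p : ℕ} [Fact p.Prime] (hp : p ≠ 2) {w : ℂ} (hw : IsPrimitiveRoot w p)
    (A B C : ZMod p) (hC : C ≠ 0) :
    ∑ k : ZMod p, ew w (A + B * k + C * k ^ 2) =
      (if C ^ ((p - 1) / 2) = 1 then 1 else -1) * gs p w * ew w (A - B ^ 2 / (4 * C)) := by
  have hp1 : p.Prime := Fact.out
  have hp0 : p ≠ 0 := hp1.ne_zero
  have : NeZero p := ⟨hp0⟩
  set ψ : AddChar (ZMod p) ℂ := AddChar.zmodChar p hw.pow_eq_one with hψ
  have hprim : ψ.IsPrimitive := AddChar.zmodChar_primitive_of_primitive_root p hw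
  have hgs : gs p w = ∑ k : ZMod p, ψ (k ^ 2) := GsAux.gs_eq hw
  have hew : ∀ z : ZMod p, ew w z = ψ z := fun z => by
    rw [ew, hψ, AddChar.zmodChar_apply]
  have h2 := GsAux.two_ne hp
  have h4 : (4 : ZMod p) ≠ 0 := by
    have : (4 : ZMod p) = 2 * 2 := by norm_num
    rw [this]; exact mul_ne_zero h2 h2
  simp_rw [hew]
  have h5 : ∀ k : ZMod p, A + B * k + C * k ^ 2 =
      C * (k + B / (2 * C)) ^ 2 + (A - B ^ 2 / (4 * C)) := by
    intro k
    field_simp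
    ring
  simp_rw [h5, AddChar.map_add_eq_mul]
  rw [← Finset.sum_mul]
  have h6 : ∑ k : ZMod p, ψ (C * (k + B / (2 * C)) ^ 2) = ∑ k : ZMod p, ψ (C * k ^ 2) :=
    Equiv.sum_comp (Equiv.addRight (B / (2 * C))) (fun k => ψ (C * k ^ 2))
  rw [h6, GsAux.sum_sq_eq hp hprim C hC, ← hgs]
  congr 2
  have h7 := GsAux.quadChar_pow hp C
  have hne : (1 : ZMod p) ≠ -1 := by
    intro h
    apply h2
    have : (1 : ZMod p) + 1 = 0 := by nth_rw 2 [h]; ring
    rw [← one_add_one_eq_two]; exact this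
  rcases quadraticChar_dichotomy hC with h8 | h8
  · rw [h8] at h7 ⊢
    push_cast at h7
    rw [if_pos h7.symm]; push_cast; rfl
  · rw [h8] at h7 ⊢
    push_cast at h7
    rw [if_neg]
    · push_cast; rfl
    · rw [← h7]; exact hne.symm

end Pool.Agent.H88.Pl
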