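import Pool.Agent.H88.Pl.Defs
import Pool.Agent.H88.Pl.AR
import Pool.Agent.H88.Pl.GS

/-!
# The fourth moment argument
-/

set_option autoImplicit false

namespace Pool.Agent.H88.Pl

open Finset

theorem ta_geom {p : ℕ} {z : ℂ} (hz : z ^ p = 1) :
    ∑ k ∈ range p, z ^ k = if z = 1 then (p : ℂ) else 0 := by
  split_ifs with h
  · simp [h]
  · have := geom_sum_mul z p
    rw [hz, sub_self] at this
    exact (mul_eq_zero.mp this).resolve_right (sub_ne_zero.mpr h)

theorem ta_core {p : ℕ} [Fact p.Prime] (hp : p ≠ 2) {e : ℕ} (he : 2 ≤ e) (r : ℕ) {X : Type*}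
    [Fintype X] (a : X → ℕ)
    (h : ∀ ξ : ℂ, IsPrimitiveRoot ξ (p ^ e) → ‖∑ x, ξ ^ a x‖ ^ 2 = (p : ℝ) ^ r)
    (ξ : ℂ) (hξ : IsPrimitiveRoot ξ (p ^ e)) :
    ∃ j : ℕ, ‖∑ x ∈ univ.filter (fun x => (ξ ^ (p ^ (e - 1))) ^ a x
      = (ξ ^ (p ^ (e - 1))) ^ j), ξ ^ a x‖ ^ 2 = (p : ℝ) ^ r := by
  obtain ⟨ε, j, hε, hj⟩ := arith hp (by omega : 1 ≤ e) r a h
  refine ⟨j, ?_⟩
  obtain ⟨w, hw⟩ : ∃ w, w = ξ ^ (p ^ (e - 1)) := ⟨_, rfl⟩
  rw [← hw]
  have hpp : p.Prime := Fact.out
  have hpe : p ^ e = p ^ (e - 1) * p := by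
    rw [← pow_succ]; congr 1; omega
  have hwp : IsPrimitiveRoot w p := by
    rw [hw]; exact hξ.pow (pow_pos hpp.pos e) hpe
  have hform : ∀ k : ℕ, ξ * w ^ k = ξ ^ (1 + k * p ^ (e - 1)) := by
    intro k
    rw [hw, ← pow_mul, pow_add, pow_one, mul_comm k]
  have hprim : ∀ k : ℕ, IsPrimitiveRoot (ξ * w ^ k) (p ^ e) := by
    intro k
    rw [hform]
    apply hξ.pow_of_coprime
    apply Nat.Coprime.pow_right
    have h1 : p ∣ k * p ^ (e - 1) := Dvd.dvd.mul_left (dvd_pow_self p (by omega)) k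
    rw [Nat.coprime_comm, hpp.coprime_iff_not_dvd]
    intro h2
    have : p ∣ 1 := (Nat.dvd_add_left h1).mp h2
    exact hpp.one_lt.ne' (Nat.dvd_one.mp this)
  have hpow : ∀ k : ℕ, (ξ * w ^ k) ^ (p ^ (e - 1)) = w := by
    intro k
    rw [mul_pow, ← hw, ← pow_mul]
    have h1 : p ∣ k * p ^ (e - 1) := Dvd.dvd.mul_left (dvd_pow_self p (by omega)) k
    rw [(hwp.pow_eq_one_iff_dvd _).mpr h1, mul_one]
  have key : ∀ k : ℕ, ∑ x, ξ ^ a x * w ^ (k * a x) = ε * ξ ^ j * w ^ (k * j) * gs p w ^ r := by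
    intro k
    have := hj _ (hprim k)
    rw [hpow k] at this
    rw [mul_pow, ← pow_mul] at this
    calc ∑ x, ξ ^ a x * w ^ (k * a x) = ∑ x, (ξ * w ^ k) ^ a x := by
          refine Finset.sum_congr rfl fun x _ => ?_
          rw [mul_pow, ← pow_mul]
      _ = _ := by rw [this]; ring
  have hw0 : w ≠ 0 := hwp.ne_zero hpp.ne_zero
  have hsum : ∑ k ∈ range p, ((w ^ j)⁻¹) ^ k * ∑ x, ξ ^ a x * w ^ (k * a x)
      = ∑ k ∈ range p, ((w ^ j)⁻¹) ^ k * (ε * ξ ^ j * w ^ (k * j) * gs p w ^ r) :=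
    Finset.sum_congr rfl fun k _ => by rw [key k]
  have hR : ∑ k ∈ range p, ((w ^ j)⁻¹) ^ k * (ε * ξ ^ j * w ^ (k * j) * gs p w ^ r)
      = p * (ε * ξ ^ j * gs p w ^ r) := by
    have : ∀ k ∈ range p, ((w ^ j)⁻¹) ^ k * (ε * ξ ^ j * w ^ (k * j) * gs p w ^ r)
        = ε * ξ ^ j * gs p w ^ r := by
      intro k _
      have h1 : ((w ^ j)⁻¹) ^ k * w ^ (k * j) = 1 := by
        rw [mul_comm k j, pow_mul, ← mul_pow, inv_mul_cancel₀ (pow_ne_zero j hw0), one_pow]
      calc _ = (((w ^ j)⁻¹) ^ k * w ^ (k * j)) * (ε * ξ ^ j * gs p w ^ r) := by ring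
        _ = _ := by rw [h1, one_mul]
    rw [Finset.sum_congr rfl this]
    simp
  have hL : ∑ k ∈ range p, ((w ^ j)⁻¹) ^ k * ∑ x, ξ ^ a x * w ^ (k * a x)
      = p * ∑ x ∈ univ.filter (fun x => w ^ a x = w ^ j), ξ ^ a x := by
    have h1 : ∀ x, (w ^ a x * (w ^ j)⁻¹) ^ p = 1 := by
      intro x
      rw [mul_pow, inv_pow, ← pow_mul, ← pow_mul, mul_comm (a x), mul_comm j, pow_mul, pow_mul,
        hwp.pow_eq_one]
      simp
    have h2 : ∀ x, (w ^ a x * (w ^ j)⁻¹ = 1) ↔ w ^ a x = w ^ j := by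
      intro x
      rw [mul_inv_eq_one₀ (pow_ne_zero j hw0)]
    calc ∑ k ∈ range p, ((w ^ j)⁻¹) ^ k * ∑ x, ξ ^ a x * w ^ (k * a x)
        = ∑ k ∈ range p, ∑ x, ξ ^ a x * (w ^ a x * (w ^ j)⁻¹) ^ k := by
          refine Finset.sum_congr rfl fun k _ => ?_
          rw [Finset.mul_sum]
          refine Finset.sum_congr rfl fun x _ => ?_
          rw [mul_pow, ← pow_mul, mul_comm (a x) k]
          ring
      _ = ∑ x, ∑ k ∈ range p, ξ ^ a x * (w ^ a x * (w ^ j)⁻¹) ^ k := Finset.sum_comm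
      _ = ∑ x, ξ ^ a x * (if w ^ a x = w ^ j then (p : ℂ) else 0) := by
          refine Finset.sum_congr rfl fun x _ => ?_
          rw [← Finset.mul_sum, ta_geom (h1 x)]
          simp only [h2]
      _ = _ := by
          rw [Finset.mul_sum, Finset.sum_filter]
          refine Finset.sum_congr rfl fun x _ => ?_
          split_ifs <;> ring
  rw [hL, hR] at hsum
  have hp0 : (p : ℂ) ≠ 0 := Nat.cast_ne_zero.mpr hpp.ne_zero
  rw [mul_left_cancel₀ hp0 hsum]
  have hn : ‖ξ‖ = 1 := hξ.norm'_eq_one (pow_ne_zero e hpp.ne_zero)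
  have hG := norm_gs hp hwp
  rw [norm_mul, norm_mul, norm_pow, norm_pow, hn, one_pow, mul_one, mul_pow, ← pow_mul, mul_comm r,
    pow_mul, hG]
  rcases hε with rfl | rfl <;> simp

theorem ta_second {H K : Type*} [AddCommGroup H] [AddCommGroup K] [Fintype H] [Fintype K]
    (f : H → K) (hf : IsPlanar f) (χ : AddChar (H × K) ℂ) (hK : ∃ k : K, χ ((0 : H), k) ≠ 1) :
    ‖∑ x, χ (x, f x)‖ ^ 2 = (Fintype.card H : ℝ) := by
  classical
  have hsum0 : ∑ k : K, χ ((0 : H), k) = 0 := by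
    have h1 : χ.compAddMonoidHom (AddMonoidHom.inr H K) ≠ 0 := by
      intro h0
      obtain ⟨k, hk⟩ := hK
      apply hk
      have := DFunLike.congr_fun h0 k
      simpa using this
    have h2 := AddChar.sum_eq_zero_of_ne_one h1
    simpa using h2
  have h1 : (((‖∑ x, χ (x, f x)‖ ^ 2 : ℝ)) : ℂ) = ((Fintype.card H : ℝ) : ℂ) := by
    rw [Complex.ofReal_pow, ← Complex.mul_conj', map_sum, Finset.sum_mul_sum, Finset.sum_comm]
    have h3 : ∀ y : H, ∑ x : H, χ (x, f x) * (starRingEnd ℂ) (χ (y, f y))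
        = ∑ h : H, χ (h, f (h + y) - f y) := by
      intro y
      rw [← Equiv.sum_comp (Equiv.addRight y)
        (fun x => χ (x, f x) * (starRingEnd ℂ) (χ (y, f y)))]
      refine Finset.sum_congr rfl fun h _ => ?_
      rw [← AddChar.map_neg_eq_conj, ← AddChar.map_add_eq_mul]
      congr 1
      ext
      · simp
      · simp [sub_eq_add_neg]
    rw [Finset.sum_congr rfl fun y _ => h3 y, Finset.sum_comm]
    rw [Finset.sum_eq_single (0 : H)]
    · simp only [zero_add, sub_self]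
      have : χ ((0 : H), (0 : K)) = 1 := χ.map_zero_eq_one
      rw [this]
      simp
    · intro h _ hh
      have h4 : ∀ y : H, χ (h, f (h + y) - f y) = χ (h, 0) * χ (0, f (h + y) - f y) := by
        intro y
        rw [← AddChar.map_add_eq_mul]
        congr 1
        ext <;> simp
      rw [Finset.sum_congr rfl fun y _ => h4 y, ← Finset.mul_sum,
        (hf h hh).sum_comp (fun k => χ ((0 : H), k)), hsum0, mul_zero]
    · simp
  exact_mod_cast h1

theorem ta_slice {p : ℕ} [Fact p.Prime] (hp : p ≠ 2) {r e : ℕ} (he : 2 ≤ e)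
    {H K : Type*} [AddCommGroup H] [AddCommGroup K] [Fintype H] [Fintype K]
    (hH : Fintype.card H = p ^ r) (f : H → K) (hf : IsPlanar f)
    (hexp : ∀ g : H × K, p ^ e • g = 0) (g0 : H × K) (hg0p : p • g0 = 0)
    (φ : H × K → ZMod p) (hφ : ∀ g, p ^ (e - 1) • g = (φ g).val • g0)
    (χ : AddChar (H × K) ℂ) (h0 : χ g0 ≠ 1) (hK : ∃ k : K, χ ((0 : H), k) ≠ 1) :
    ∃ c : ZMod p, ‖∑ x ∈ univ.filter (fun x => φ (x, f x) = c), χ (x, f x)‖ ^ 2 = (p : ℝ) ^ r := by
  have hpp : p.Prime := Fact.out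
  have hpe0 : p ^ e ≠ 0 := pow_ne_zero e hpp.ne_zero
  have hξ : IsPrimitiveRoot (Complex.exp (2 * Real.pi * Complex.I / (p ^ e : ℕ))) (p ^ e) :=
    Complex.isPrimitiveRoot_exp _ hpe0
  obtain ⟨ξ, hξd⟩ : ∃ ξ, ξ = Complex.exp (2 * Real.pi * Complex.I / (p ^ e : ℕ)) := ⟨_, rfl⟩
  rw [← hξd] at hξ
  have : NeZero (p ^ e) := ⟨hpe0⟩
  have hval : ∀ g : H × K, χ g ^ (p ^ e) = 1 := by
    intro g
    rw [← AddChar.map_nsmul_eq_pow, hexp, AddChar.map_zero_eq_one]
  have hex : ∀ x : H, ∃ i : ℕ, ξ ^ i = χ (x, f x) := by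
    intro x
    obtain ⟨i, _, hi⟩ := hξ.eq_pow_of_pow_eq_one (hval (x, f x))
    exact ⟨i, hi⟩
  choose a ha using hex
  have hmom : ∀ ξ' : ℂ, IsPrimitiveRoot ξ' (p ^ e) → ‖∑ x, ξ' ^ a x‖ ^ 2 = (p : ℝ) ^ r := by
    intro ξ' hξ'
    obtain ⟨t, _, htc, ht⟩ := (hξ.isPrimitiveRoot_iff).mp hξ'
    have h1 : ∑ x, ξ' ^ a x = ∑ x, (χ ^ t) (x, f x) := by
      refine Finset.sum_congr rfl fun x _ => ?_
      rw [AddChar.pow_apply, ← ha x, ← ht, ← pow_mul, ← pow_mul, mul_comm]
    rw [h1, ta_second f hf (χ ^ t), hH]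
    · push_cast; rfl
    · obtain ⟨k, hk⟩ := hK
      refine ⟨k, ?_⟩
      rw [AddChar.pow_apply]
      intro h2
      apply hk
      have h3 : orderOf (χ ((0 : H), k)) ∣ t := orderOf_dvd_of_pow_eq_one h2
      have h4 : orderOf (χ ((0 : H), k)) ∣ p ^ e := orderOf_dvd_of_pow_eq_one (hval _)
      have h5 : orderOf (χ ((0 : H), k)) ∣ 1 := by
        rw [← Nat.Coprime.gcd_eq_one htc]
        exact Nat.dvd_gcd h3 h4
      exact orderOf_eq_one_iff.mp (Nat.dvd_one.mp h5)
  obtain ⟨j, hj⟩ := ta_core hp he r a hmom ξ hξ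
  have hθ : IsPrimitiveRoot (χ g0) p := by
    apply IsPrimitiveRoot.iff_orderOf.mpr
    apply orderOf_eq_prime
    · rw [← AddChar.map_nsmul_eq_pow, hg0p, AddChar.map_zero_eq_one]
    · exact h0
  have hpe : p ^ e = p ^ (e - 1) * p := by
    rw [← pow_succ]; congr 1; omega
  have hwj : ((ξ ^ (p ^ (e - 1))) ^ j) ^ p = 1 := by
    rw [← pow_mul, ← pow_mul, mul_comm j p, ← mul_assoc, ← hpe, pow_mul, hξ.pow_eq_one, one_pow]
  have : NeZero p := ⟨hpp.ne_zero⟩
  obtain ⟨i, hi, hij⟩ := hθ.eq_pow_of_pow_eq_one hwj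
  refine ⟨(i : ZMod p), ?_⟩
  rw [← hj]
  congr 2
  refine Finset.sum_congr ?_ fun x _ => (ha x).symm
  ext x
  simp only [Finset.mem_filter, Finset.mem_univ, true_and]
  have h6 : (ξ ^ (p ^ (e - 1))) ^ a x = χ g0 ^ (φ (x, f x)).val := by
    rw [← pow_mul, mul_comm, pow_mul, ha x, ← AddChar.map_nsmul_eq_pow, hφ,
      AddChar.map_nsmul_eq_pow]
  rw [h6, ← hij]
  constructor
  · intro h7
    rw [h7, ZMod.val_natCast, Nat.mod_eq_of_lt hi]
  · intro h7
    have h8 := hθ.pow_inj (ZMod.val_lt _) hi h7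
    rw [← h8, ZMod.natCast_zmod_val]

theorem ta_quad {H K : Type*} [AddCommGroup H] [AddCommGroup K] [DecidableEq H] [DecidableEq K]
    (f : H → K) (hf : IsPlanar f) (S : Finset H) :
    ((S ×ˢ S ×ˢ S ×ˢ S).filter (fun q : H × H × H × H =>
      ((q.1, f q.1) + (q.2.1, f q.2.1) - (q.2.2.1, f q.2.2.1) - (q.2.2.2, f q.2.2.2) : H × K) = 0)).card
      + S.card ≤ 2 * S.card ^ 2 := by
  classical
  set A : Finset (H × H × H × H) := (S ×ˢ S).image (fun q => (q.1, q.2, q.1, q.2)) with hA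
  set B : Finset (H × H × H × H) := (S ×ˢ S).image (fun q => (q.1, q.2, q.2, q.1)) with hB
  have h1 : ((S ×ˢ S ×ˢ S ×ˢ S).filter (fun q : H × H × H × H =>
      ((q.1, f q.1) + (q.2.1, f q.2.1) - (q.2.2.1, f q.2.2.1) - (q.2.2.2, f q.2.2.2) : H × K) = 0))
      ⊆ A ∪ B := by
    rintro ⟨x1, x2, x3, x4⟩ hq
    simp only [Finset.mem_filter, Finset.mem_product, Prod.mk_add_mk, Prod.mk_sub_mk,
      Prod.mk_eq_zero] at hq
    obtain ⟨⟨m1, m2, m3, m4⟩, e1, e2⟩ := hq
    rw [Finset.mem_union, hA, hB]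
    by_cases h : x1 = x3
    · left
      rw [Finset.mem_image]
      refine ⟨(x1, x2), by simp [m1, m2], ?_⟩
      have : x2 = x4 := by
        rw [h] at e1
        have : x2 - x4 = 0 := by rw [← e1]; abel
        exact sub_eq_zero.mp this
      simp [h, this]
    · right
      rw [Finset.mem_image]
      have hne : x1 - x3 ≠ 0 := sub_ne_zero.mpr h
      have h4 : (x1 - x3) + x2 = x4 := by
        have : (x1 - x3) + x2 - x4 = 0 := by rw [← e1]; abel
        exact sub_eq_zero.mp this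
      have h5 : (fun x => f ((x1 - x3) + x) - f x) x3 = (fun x => f ((x1 - x3) + x) - f x) x2 := by
        simp only [sub_add_cancel]
        rw [h4]
        have : (f x1 - f x3) - (f x4 - f x2) = 0 := by rw [← e2]; abel
        exact sub_eq_zero.mp this
      have h6 : x3 = x2 := (hf _ hne).1 h5
      refine ⟨(x1, x2), by simp [m1, m2], ?_⟩
      have h7 : x1 = x4 := by
        rw [← h4, h6]; abel
      simp [h6, h7]
  have h2 := Finset.card_le_card h1
  have h3 := Finset.card_union_add_card_inter A B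
  have hAc : A.card ≤ S.card ^ 2 := by
    refine Finset.card_image_le.trans ?_
    rw [Finset.card_product, sq]
  have hBc : B.card ≤ S.card ^ 2 := by
    refine Finset.card_image_le.trans ?_
    rw [Finset.card_product, sq]
  have hI : S.card ≤ (A ∩ B).card := by
    have hinj : Function.Injective (fun x : H => ((x, x, x, x) : H × H × H × H)) := by
      intro x y hxy
      exact (Prod.mk.inj hxy).1
    rw [← Finset.card_image_of_injective S hinj]
    apply Finset.card_le_card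
    intro q hq
    rw [Finset.mem_image] at hq
    obtain ⟨x, hx, rfl⟩ := hq
    rw [Finset.mem_inter, hA, hB, Finset.mem_image, Finset.mem_image]
    exact ⟨⟨(x, x), by simp [hx], rfl⟩, ⟨(x, x), by simp [hx], rfl⟩⟩
  omega

theorem ta_fourth {H K : Type*} [AddCommGroup H] [AddCommGroup K] [Fintype H] [Fintype K]
    (f : H → K) (hf : IsPlanar f) (S : Finset H) :
    ∑ χ : AddChar (H × K) ℂ, ‖∑ x ∈ S, χ (x, f x)‖ ^ 4
      ≤ (Fintype.card (H × K) : ℝ) * (2 * (S.card : ℝ) ^ 2 - S.card) := by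
  classical
  have h1 : ∀ χ : AddChar (H × K) ℂ, ((‖∑ x ∈ S, χ (x, f x)‖ ^ 4 : ℝ) : ℂ)
      = ∑ q ∈ S ×ˢ S ×ˢ S ×ˢ S, χ ((q.1, f q.1) + (q.2.1, f q.2.1) - (q.2.2.1, f q.2.2.1)
        - (q.2.2.2, f q.2.2.2)) := by
    intro χ
    have hz : ((‖∑ x ∈ S, χ (x, f x)‖ ^ 4 : ℝ) : ℂ) = ((∑ x ∈ S, χ (x, f x))
        * ((∑ x ∈ S, χ (x, f x)) * ((starRingEnd ℂ) (∑ x ∈ S, χ (x, f x))
          * (starRingEnd ℂ) (∑ x ∈ S, χ (x, f x))))) := by
      have := Complex.mul_conj' (∑ x ∈ S, χ (x, f x))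
      rw [Complex.ofReal_pow]
      calc ((‖∑ x ∈ S, χ (x, f x)‖ : ℂ)) ^ 4 = (((‖∑ x ∈ S, χ (x, f x)‖ : ℂ)) ^ 2) ^ 2 := by ring
        _ = _ := by rw [← this]; ring
    rw [hz, Finset.sum_product]
    simp_rw [Finset.sum_product]
    rw [map_sum, Finset.sum_mul]
    refine Finset.sum_congr rfl fun x1 _ => ?_
    rw [Finset.sum_mul, Finset.mul_sum]
    refine Finset.sum_congr rfl fun x2 _ => ?_
    rw [Finset.sum_mul, Finset.mul_sum, Finset.mul_sum]
    refine Finset.sum_congr rfl fun x3 _ => ?_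
    rw [Finset.mul_sum, Finset.mul_sum, Finset.mul_sum]
    refine Finset.sum_congr rfl fun x4 _ => ?_
    rw [← AddChar.map_neg_eq_conj, ← AddChar.map_neg_eq_conj, ← AddChar.map_add_eq_mul,
      ← AddChar.map_add_eq_mul, ← AddChar.map_add_eq_mul]
    congr 1
    abel
  have h2 : (((∑ χ : AddChar (H × K) ℂ, ‖∑ x ∈ S, χ (x, f x)‖ ^ 4 : ℝ)) : ℂ)
      = (((Fintype.card (H × K) : ℝ) * (((S ×ˢ S ×ˢ S ×ˢ S).filter (fun q : H × H × H × H =>
      ((q.1, f q.1) + (q.2.1, f q.2.1) - (q.2.2.1, f q.2.2.1) - (q.2.2.2, f q.2.2.2) : H × K)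
        = 0)).card : ℝ) : ℝ) : ℂ) := by
    rw [Complex.ofReal_sum, Finset.sum_congr rfl fun χ _ => h1 χ, Finset.sum_comm]
    rw [Finset.sum_congr rfl fun q _ => AddChar.sum_apply_eq_ite _]
    rw [← Finset.sum_filter, Finset.sum_const, nsmul_eq_mul]
    push_cast
    ring
  have h3 : (∑ χ : AddChar (H × K) ℂ, ‖∑ x ∈ S, χ (x, f x)‖ ^ 4 : ℝ)
      = ((Fintype.card (H × K) : ℝ) * (((S ×ˢ S ×ˢ S ×ˢ S).filter (fun q : H × H × H × H =>
      ((q.1, f q.1) + (q.2.1, f q.2.1) - (q.2.2.1, f q.2.2.1) - (q.2.2.2, f q.2.2.2) : H × K)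
        = 0)).card : ℝ) : ℝ) := by
    exact_mod_cast h2
  rw [h3]
  apply mul_le_mul_of_nonneg_left _ (Nat.cast_nonneg _)
  have h4 := ta_quad f hf S
  have h5 : ((((S ×ˢ S ×ˢ S ×ˢ S).filter (fun q : H × H × H × H =>
      ((q.1, f q.1) + (q.2.1, f q.2.1) - (q.2.2.1, f q.2.2.1) - (q.2.2.2, f q.2.2.2) : H × K)
        = 0)).card : ℝ)) + (S.card : ℝ) ≤ 2 * (S.card : ℝ) ^ 2 := by
    exact_mod_cast h4
  linarith

theorem ta_count1 {G : Type*} [AddCommGroup G] [Fintype G] {p : ℕ} [Fact p.Prime] (g0 : G)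
    (hg0 : g0 ≠ 0) (hg0p : p • g0 = 0) :
    p * (univ.filter (fun χ : AddChar G ℂ => χ g0 = 1)).card = Fintype.card G := by
  classical
  have hpp : p.Prime := Fact.out
  have ho : addOrderOf g0 = p := addOrderOf_eq_prime hg0p hg0
  have h1 : ∑ χ : AddChar G ℂ, ∑ k ∈ range p, χ (k • g0) = (Fintype.card G : ℂ) := by
    rw [Finset.sum_comm, Finset.sum_eq_single 0]
    · rw [AddChar.sum_apply_eq_ite]; simp
    · intro k hk hk0
      rw [AddChar.sum_apply_eq_ite, if_neg]
      intro h2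
      have h3 := addOrderOf_dvd_of_nsmul_eq_zero h2
      rw [ho] at h3
      exact absurd (Nat.le_of_dvd (Nat.pos_of_ne_zero hk0) h3) (by
        have := Finset.mem_range.mp hk; omega)
    · intro h; exact absurd (Finset.mem_range.mpr hpp.pos) h
  have h2 : ∀ χ : AddChar G ℂ, ∑ k ∈ range p, χ (k • g0) = if χ g0 = 1 then (p : ℂ) else 0 := by
    intro χ
    have h3 : (χ g0) ^ p = 1 := by
      rw [← AddChar.map_nsmul_eq_pow, hg0p, AddChar.map_zero_eq_one]
    rw [← ta_geom h3]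
    exact Finset.sum_congr rfl fun k _ => by rw [AddChar.map_nsmul_eq_pow]
  rw [Finset.sum_congr rfl fun χ _ => h2 χ, ← Finset.sum_filter, Finset.sum_const,
    nsmul_eq_mul] at h1
  have h3 : (((univ.filter (fun χ : AddChar G ℂ => χ g0 = 1)).card * p : ℕ) : ℂ)
      = (Fintype.card G : ℂ) := by
    push_cast; exact h1
  rw [mul_comm]
  exact_mod_cast h3

theorem ta_count2 {H K : Type*} [AddCommGroup H] [AddCommGroup K] [Fintype H] [Fintype K] :
    Fintype.card K * (univ.filter (fun χ : AddChar (H × K) ℂ => ∀ k : K, χ ((0 : H), k) = 1)).card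
      = Fintype.card (H × K) := by
  classical
  have h1 : ∑ χ : AddChar (H × K) ℂ, ∑ k : K, χ ((0 : H), k) = (Fintype.card (H × K) : ℂ) := by
    rw [Finset.sum_comm, Finset.sum_eq_single 0]
    · rw [AddChar.sum_apply_eq_ite]; simp
    · intro k _ hk0
      rw [AddChar.sum_apply_eq_ite, if_neg]
      intro h2
      exact hk0 (Prod.mk.inj h2).2
    · simp
  have h2 : ∀ χ : AddChar (H × K) ℂ, ∑ k : K, χ ((0 : H), k)
      = if (∀ k : K, χ ((0 : H), k) = 1) then (Fintype.card K : ℂ) else 0 := by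
    intro χ
    split_ifs with h
    · simp [h]
    · have h1 : χ.compAddMonoidHom (AddMonoidHom.inr H K) ≠ 0 := by
        intro h0
        apply h
        intro k
        have := DFunLike.congr_fun h0 k
        simpa using this
      have h2 := AddChar.sum_eq_zero_of_ne_one h1
      simpa using h2
  rw [Finset.sum_congr rfl fun χ _ => h2 χ, ← Finset.sum_filter, Finset.sum_const,
    nsmul_eq_mul] at h1
  have h3 : (((univ.filter (fun χ : AddChar (H × K) ℂ => ∀ k : K, χ ((0 : H), k) = 1)).card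
      * Fintype.card K : ℕ) : ℂ) = (Fintype.card (H × K) : ℂ) := by
    push_cast; exact h1
  rw [mul_comm]
  exact_mod_cast h3

/-- the number of pairs in the same slice -/
theorem ta_pairs {p : ℕ} [Fact p.Prime] {H K : Type*} [AddCommGroup H] [AddCommGroup K]
    [Fintype H] [Fintype K] (f : H → K) (φ : H × K →+ ZMod p) :
    ∑ c : ZMod p, (univ.filter (fun x : H => φ (x, f x) = c)).card ^ 2
      = ∑ h : H, (univ.filter (fun y : H => φ (h, f (h + y) - f y) = 0)).card := by
  classical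
  have h1 : ∀ c : ZMod p, (univ.filter (fun x : H => φ (x, f x) = c)).card ^ 2
      = (univ.filter (fun q : H × H => φ (q.1, f q.1) = c ∧ φ (q.2, f q.2) = c)).card := by
    intro c
    rw [sq, ← Finset.card_product]
    congr 1
    ext q
    simp
  rw [Finset.sum_congr rfl fun c _ => h1 c]
  have h2 : ∑ c : ZMod p,
      (univ.filter (fun q : H × H => φ (q.1, f q.1) = c ∧ φ (q.2, f q.2) = c)).card
      = (univ.filter (fun q : H × H => φ (q.1, f q.1) = φ (q.2, f q.2))).card := by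
    rw [← Finset.card_biUnion]
    · congr 1
      ext q
      simp only [Finset.mem_biUnion, Finset.mem_univ, Finset.mem_filter, true_and]
      constructor
      · rintro ⟨c, h3, h4⟩; rw [h3, h4]
      · intro h; exact ⟨_, rfl, h.symm⟩
    · intro c _ c' _ hcc
      rw [Function.onFun, Finset.disjoint_left]
      intro q hq hq'
      simp only [Finset.mem_filter, Finset.mem_univ, true_and] at hq hq'
      exact hcc (hq.1.symm.trans hq'.1)
  rw [h2]
  have h3 : (univ.filter (fun q : H × H => φ (q.1, f q.1) = φ (q.2, f q.2))).card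
      = (univ.filter (fun q : H × H => φ (q.1, f (q.1 + q.2) - f q.2) = 0)).card := by
    refine Finset.card_bij' (fun q _ => (q.1 - q.2, q.2)) (fun q _ => (q.1 + q.2, q.2))
      ?_ ?_ ?_ ?_
    · rintro ⟨x, y⟩ hq
      simp only [Finset.mem_filter, Finset.mem_univ, true_and] at hq ⊢
      have h4 : ((x - y, f (x - y + y) - f y) : H × K) = (x, f x) - (y, f y) := by
        simp
      rw [h4, map_sub, hq, sub_self]
    · rintro ⟨x, y⟩ hq
      simp only [Finset.mem_filter, Finset.mem_univ, true_and] at hq ⊢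
      have h4 : ((x, f (x + y) - f y) : H × K) = (x + y, f (x + y)) - (y, f y) := by
        simp
      rw [h4, map_sub] at hq
      exact sub_eq_zero.mp hq
    · rintro ⟨x, y⟩ _
      simp
    · rintro ⟨x, y⟩ _
      simp
  rw [h3, Finset.card_filter, Fintype.sum_prod_type]
  refine Finset.sum_congr rfl fun h _ => ?_
  rw [Finset.card_filter]

/-- size of the kernel of a nonzero homomorphism to `ZMod p` -/
theorem ta_ker {p : ℕ} [Fact p.Prime] {K : Type*} [AddCommGroup K] [Fintype K]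
    (ψ : K →+ ZMod p) (hψ : Function.Surjective ψ) :
    p * (univ.filter (fun k : K => ψ k = 0)).card = Fintype.card K := by
  classical
  have h1 := ψ.ker.card_mul_index
  have h2 : Nat.card ψ.ker = (univ.filter (fun k : K => ψ k = 0)).card := by
    rw [Nat.card_eq_fintype_card, Fintype.card_subtype]
    congr 1
    ext k
    simp [AddMonoidHom.mem_ker]
  have h3 : ψ.ker.index = p := by
    rw [AddSubgroup.index_ker, AddMonoidHom.range_eq_top.mpr hψ]
    simp
  rw [h2, h3, Nat.card_eq_fintype_card] at h1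
  rw [mul_comm]; exact h1

theorem ta_bij {p : ℕ} [Fact p.Prime] {H K : Type*} [AddCommGroup H] [AddCommGroup K]
    [Fintype H] [Fintype K] (f : H → K) (hf : IsPlanar f) (φ : H × K →+ ZMod p) (h : H)
    (hh : h ≠ 0) :
    (univ.filter (fun y : H => φ (h, f (h + y) - f y) = 0)).card
      = (univ.filter (fun k : K => φ (h, k) = 0)).card := by
  classical
  rw [Finset.card_filter, Finset.card_filter,
    ← (hf h hh).sum_comp (fun k => if φ (h, k) = 0 then 1 else 0)]

theorem ta_final (p n Q S4 N : ℝ) (hp : 3 ≤ p) (hp' : p = 3 ∨ 4 ≤ p) (hn : 9 ≤ n)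
    (hS : Q ^ 2 ≤ p * S4) (hmain : N * n ^ 2 + S4 ≤ n ^ 2 * (2 * Q - n))
    (hc : (p * N = (p - 1) * n ^ 2 ∧ p * Q = n ^ 2 + (p - 1) * n) ∨
      ((p - 1) * n ^ 2 - p * n ≤ p * N ∧ p * Q = n ^ 2)) : False := by
  have hn0 : 0 < n := by linarith
  have hp0 : 0 < p := by linarith
  have h1 : p * (N * n ^ 2 + S4) ≤ p * (n ^ 2 * (2 * Q - n)) :=
    mul_le_mul_of_nonneg_left hmain hp0.le
  rcases hc with ⟨hN, hQ⟩ | ⟨hN, hQ⟩
  · have h2 : (p - 1) * n ^ 4 + Q ^ 2 ≤ 2 * n ^ 2 * (n ^ 2 + (p - 1) * n) - p * n ^ 3 := by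
      have e1 : (p - 1) * n ^ 4 = (p * N) * n ^ 2 := by rw [hN]; ring
      have e2 : 2 * n ^ 2 * (n ^ 2 + (p - 1) * n) = 2 * n ^ 2 * (p * Q) := by rw [hQ]
      rw [e1, e2]
      nlinarith
    have h3 : n ^ 3 * (n * (p - 3) - (p - 2)) + Q ^ 2 ≤ 0 := by nlinarith
    rcases hp' with rfl | hp4
    · have hQ' : Q = (n ^ 2 + 2 * n) / 3 := by linarith
      rw [hQ'] at h3
      have h4 : n ^ 2 * ((n + 2) ^ 2 - 9 * n) ≤ 0 := by nlinarith
      have h5 : 0 < (n + 2) ^ 2 - 9 * n := by nlinarith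
      have h6 : 0 < n ^ 2 * ((n + 2) ^ 2 - 9 * n) := by positivity
      linarith
    · have h4 : 0 < n * (p - 3) - (p - 2) := by nlinarith
      have h5 : 0 < n ^ 3 * (n * (p - 3) - (p - 2)) := by positivity
      nlinarith [sq_nonneg Q]
  · have h2 : ((p - 1) * n ^ 2 - p * n) * n ^ 2 + Q ^ 2 ≤ 2 * n ^ 2 * n ^ 2 - p * n ^ 3 := by
      have e1 : ((p - 1) * n ^ 2 - p * n) * n ^ 2 ≤ (p * N) * n ^ 2 :=
        mul_le_mul_of_nonneg_right hN (by positivity)
      have e2 : 2 * n ^ 2 * n ^ 2 = 2 * n ^ 2 * (p * Q) := by rw [hQ]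
      rw [e2]
      nlinarith
    have h3 : n ^ 4 * (p - 3) + Q ^ 2 ≤ 0 := by nlinarith
    have h4 : 0 ≤ n ^ 4 * (p - 3) := mul_nonneg (by positivity) (by linarith)
    have h5 : Q ^ 2 ≤ 0 := by linarith
    have h6 : Q = 0 := by
      have := le_antisymm h5 (sq_nonneg Q)
      exact pow_eq_zero_iff (two_ne_zero) |>.mp this
    rw [h6, mul_zero] at hQ
    have : 0 < n ^ 2 := by positivity
    linarith

/-- Module TA: the fourth moment argument, for general order `p ^ r`. -/
theorem theoremA {p : ℕ} [Fact p.Prime] (hp : p ≠ 2) {r e : ℕ} (he : 2 ≤ e)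
    {H K : Type*} [AddCommGroup H] [AddCommGroup K] [Finite H] [Finite K]
    (hH : Nat.card H = p ^ r) (hK : Nat.card K = p ^ r) (f : H → K) (hf : IsPlanar f)
    (hexp : ∀ g : H × K, p ^ e • g = 0) (g0 : H × K) (hg0 : g0 ≠ 0)
    (hcyc : ∀ g : H × K, ∃ n : ℕ, p ^ (e - 1) • g = n • g0)
    (hmem : ∃ g : H × K, p ^ (e - 1) • g = g0) : False := by
  classical
  cases nonempty_fintype H
  cases nonempty_fintype K
  have hpp : p.Prime := Fact.out
  have : NeZero p := ⟨hpp.ne_zero⟩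
  rw [Nat.card_eq_fintype_card] at hH hK
  have hpe : p ^ e = p * p ^ (e - 1) := by
    rw [← pow_succ']; congr 1; omega
  -- `p • g0 = 0`
  have hg0p : p • g0 = 0 := by
    obtain ⟨g, hg⟩ := hmem
    rw [← hg, ← mul_nsmul', ← hpe, hexp]
  have ho : addOrderOf g0 = p := addOrderOf_eq_prime hg0p hg0
  -- the homomorphism `φ`
  choose ν hν using hcyc
  have hmod : ∀ m : ℕ, (m : ZMod p).val • g0 = m • g0 := by
    intro m
    rw [ZMod.val_natCast, nsmul_eq_nsmul_iff_modEq, ho]
    exact Nat.mod_modEq m p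
  have hinj : ∀ m m' : ℕ, m • g0 = m' • g0 → (m : ZMod p) = (m' : ZMod p) := by
    intro m m' h
    rw [nsmul_eq_nsmul_iff_modEq, ho] at h
    exact (ZMod.natCast_eq_natCast_iff m m' p).mpr h
  let φ : H × K →+ ZMod p :=
    { toFun := fun g => (ν g : ZMod p)
      map_zero' := by
        have := hν 0
        rw [smul_zero] at this
        have := hinj (ν 0) 0 (by rw [← this, zero_nsmul])
        simpa using this
      map_add' := by
        intro g g'
        have h1 := hν (g + g')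
        rw [smul_add, hν g, hν g', ← add_nsmul] at h1
        have := hinj _ _ h1
        simpa using this.symm }
  have hφ : ∀ g, p ^ (e - 1) • g = (φ g).val • g0 := by
    intro g
    show p ^ (e - 1) • g = (ν g : ZMod p).val • g0
    rw [hmod, hν]
  have hφ0 : ∀ g, φ g = 0 ↔ p ^ (e - 1) • g = 0 := by
    intro g
    constructor
    · intro h; rw [hφ, h, ZMod.val_zero, zero_nsmul]
    · intro h
      rw [hφ] at h
      have h2 := addOrderOf_dvd_of_nsmul_eq_zero h
      rw [ho] at h2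
      have h3 : (φ g).val = 0 := by
        by_contra h4
        exact absurd (Nat.le_of_dvd (Nat.pos_of_ne_zero h4) h2) (by
          have := ZMod.val_lt (φ g); omega)
      exact (ZMod.val_eq_zero _).mp h3
  obtain ⟨g1, hg1⟩ := hmem
  have hφg1 : φ g1 = 1 := by
    have h1 := hφ g1
    rw [hg1] at h1
    have h2 := hinj 1 (φ g1).val (by rw [one_nsmul]; exact h1)
    rw [ZMod.natCast_zmod_val] at h2
    rw [← h2, Nat.cast_one]
  -- sizes
  have hcardG : (Fintype.card (H × K) : ℝ) = ((p : ℝ) ^ r) ^ 2 := by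
    rw [Fintype.card_prod, hH, hK]; push_cast; ring
  have hp3 : 3 ≤ p := by
    have := hpp.two_le
    omega
  -- `n ≥ 9`
  have hn9 : (9 : ℝ) ≤ (p : ℝ) ^ r := by
    have hdvd : p ^ e ∣ p ^ r := by
      have hor : p ^ (e - 1) • g1.1 ≠ 0 ∨ p ^ (e - 1) • g1.2 ≠ 0 := by
        by_contra hcon
        push Not at hcon
        apply hg0
        rw [← hg1]
        exact Prod.ext hcon.1 hcon.2
      have he1 : e - 1 + 1 = e := by omega
      rcases hor with h | h
      · have h3 : addOrderOf g1.1 = p ^ (e - 1 + 1) := by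
          apply addOrderOf_eq_prime_pow h
          rw [he1]; exact congrArg Prod.fst (hexp g1)
        rw [← he1, ← h3, ← hH]
        exact addOrderOf_dvd_card
      · have h3 : addOrderOf g1.2 = p ^ (e - 1 + 1) := by
          apply addOrderOf_eq_prime_pow h
          rw [he1]; exact congrArg Prod.snd (hexp g1)
        rw [← he1, ← h3, ← hK]
        exact addOrderOf_dvd_card
    have h1 : p ^ e ≤ p ^ r := Nat.le_of_dvd (pow_pos hpp.pos r) hdvd
    have h2 : p ^ 2 ≤ p ^ e := Nat.pow_le_pow_right hpp.pos he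
    have h3 : 9 ≤ p ^ 2 := by nlinarith
    have h4 : 9 ≤ p ^ r := by omega
    exact_mod_cast h4
  -- not both components of `g0` are nonzero
  have hcases : (g0.1 = 0 ∧ g0.2 ≠ 0) ∨ (g0.2 = 0 ∧ g0.1 ≠ 0) := by
    by_cases ha : g0.1 = 0
    · left
      refine ⟨ha, fun hb => hg0 (Prod.ext ha hb)⟩
    · right
      refine ⟨?_, ha⟩
      by_contra hb
      have h1 := hφ (g1.1, 0)
      have h2 : p ^ (e - 1) • g1.1 = (φ (g1.1, 0)).val • g0.1 := congrArg Prod.fst h1
      have h3 : (0 : K) = (φ (g1.1, 0)).val • g0.2 := by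
        have := congrArg Prod.snd h1
        simpa using this
      have hpb : p • g0.2 = 0 := congrArg Prod.snd hg0p
      have h4 : (φ (g1.1, 0)).val = 0 := by
        have h5 := addOrderOf_dvd_of_nsmul_eq_zero h3.symm
        rw [addOrderOf_eq_prime hpb hb] at h5
        by_contra h4
        exact absurd (Nat.le_of_dvd (Nat.pos_of_ne_zero h4) h5) (by
          have := ZMod.val_lt (φ (g1.1, 0)); omega)
      rw [h4, zero_nsmul] at h2
      apply ha
      rw [← hg1]
      exact h2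
  -- the quantities
  obtain ⟨Qn, hQn⟩ : ∃ Qn : ℕ,
      Qn = ∑ c : ZMod p, (univ.filter (fun x : H => φ (x, f x) = c)).card ^ 2 := ⟨_, rfl⟩
  obtain ⟨S4, hS4⟩ : ∃ S4 : ℝ,
      S4 = ∑ c : ZMod p, ((univ.filter (fun x : H => φ (x, f x) = c)).card : ℝ) ^ 4 := ⟨_, rfl⟩
  obtain ⟨N, hN⟩ : ∃ N : ℕ, N = (univ.filter (fun χ : AddChar (H × K) ℂ =>
      χ g0 ≠ 1 ∧ ∃ k : K, χ ((0 : H), k) ≠ 1)).card := ⟨_, rfl⟩
  have hQr : (Qn : ℝ) = ∑ c : ZMod p,
      ((univ.filter (fun x : H => φ (x, f x) = c)).card : ℝ) ^ 2 := by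
    rw [hQn]; push_cast; rfl
  have hS : (Qn : ℝ) ^ 2 ≤ p * S4 := by
    have h1 := sq_sum_le_card_mul_sum_sq (s := (univ : Finset (ZMod p)))
      (f := fun c => ((univ.filter (fun x : H => φ (x, f x) = c)).card : ℝ) ^ 2)
    rw [hQr, hS4]
    refine h1.trans (le_of_eq ?_)
    rw [Finset.card_univ, ZMod.card]
    congr 1
    refine Finset.sum_congr rfl fun c _ => ?_
    ring
  have hM : ∑ c : ZMod p, ((univ.filter (fun x : H => φ (x, f x) = c)).card : ℝ)
      = (p : ℝ) ^ r := by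
    have h1 := Finset.card_eq_sum_card_fiberwise (s := (univ : Finset H))
      (t := (univ : Finset (ZMod p))) (f := fun x => φ (x, f x)) (fun x _ => Finset.mem_univ _)
    rw [Finset.card_univ, hH] at h1
    exact_mod_cast h1.symm
  have hmain : (N : ℝ) * ((p : ℝ) ^ r) ^ 2 + S4
      ≤ ((p : ℝ) ^ r) ^ 2 * (2 * (Qn : ℝ) - (p : ℝ) ^ r) := by
    have hupper : ∑ χ : AddChar (H × K) ℂ, ∑ c : ZMod p,
        ‖∑ x ∈ univ.filter (fun x : H => φ (x, f x) = c), χ (x, f x)‖ ^ 4
        ≤ ((p : ℝ) ^ r) ^ 2 * (2 * (Qn : ℝ) - (p : ℝ) ^ r) := by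
      rw [Finset.sum_comm]
      calc _ ≤ ∑ c : ZMod p, (Fintype.card (H × K) : ℝ)
            * (2 * ((univ.filter (fun x : H => φ (x, f x) = c)).card : ℝ) ^ 2
              - ((univ.filter (fun x : H => φ (x, f x) = c)).card : ℝ)) :=
            Finset.sum_le_sum fun c _ => ta_fourth f hf _
        _ = _ := by
            rw [← Finset.mul_sum, Finset.sum_sub_distrib, ← Finset.mul_sum, hM, ← hQr, hcardG]
    refine le_trans ?_ hupper
    have hlow : ∀ χ : AddChar (H × K) ℂ,
        (if χ g0 ≠ 1 ∧ ∃ k : K, χ ((0 : H), k) ≠ 1 then ((p : ℝ) ^ r) ^ 2 else 0)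
          + (if χ = 0 then S4 else 0)
        ≤ ∑ c : ZMod p,
          ‖∑ x ∈ univ.filter (fun x : H => φ (x, f x) = c), χ (x, f x)‖ ^ 4 := by
      intro χ
      by_cases h0 : χ = 0
      · have h1 : ¬ (χ g0 ≠ 1 ∧ ∃ k : K, χ ((0 : H), k) ≠ 1) := by
          rintro ⟨h1, _⟩
          apply h1
          rw [h0]; simp
        rw [if_neg h1, if_pos h0, zero_add, hS4]
        apply le_of_eq
        refine Finset.sum_congr rfl fun c _ => ?_
        rw [h0]
        simp
      · rw [if_neg h0, add_zero]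
        split_ifs with h1
        · obtain ⟨c, hc⟩ := ta_slice hp he hH f hf hexp g0 hg0p φ hφ χ h1.1 h1.2
          calc ((p : ℝ) ^ r) ^ 2
              = ‖∑ x ∈ univ.filter (fun x : H => φ (x, f x) = c), χ (x, f x)‖ ^ 4 := by
                rw [← hc]; ring
            _ ≤ _ := Finset.single_le_sum (f := fun c : ZMod p =>
                ‖∑ x ∈ univ.filter (fun x : H => φ (x, f x) = c), χ (x, f x)‖ ^ 4)
                (fun _ _ => by positivity) (Finset.mem_univ c)
        · exact Finset.sum_nonneg fun _ _ => by positivity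
    calc (N : ℝ) * ((p : ℝ) ^ r) ^ 2 + S4
        = ∑ χ : AddChar (H × K) ℂ,
          ((if χ g0 ≠ 1 ∧ ∃ k : K, χ ((0 : H), k) ≠ 1 then ((p : ℝ) ^ r) ^ 2 else 0)
          + (if χ = 0 then S4 else 0)) := by
          rw [Finset.sum_add_distrib, ← Finset.sum_filter, Finset.sum_const, nsmul_eq_mul,
            Finset.sum_ite_eq' univ (0 : AddChar (H × K) ℂ) (fun _ => S4),
            if_pos (Finset.mem_univ _), hN]
      _ ≤ _ := Finset.sum_le_sum fun χ _ => hlow χ
  -- counts of characters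
  have hcnt1 := ta_count1 g0 hg0 hg0p
  have hcnt2 := ta_count2 (H := H) (K := K)
  have hcardN : Fintype.card (H × K) = (p ^ r) ^ 2 := by
    rw [Fintype.card_prod, hH, hK]; ring
  have hcardC : (univ : Finset (AddChar (H × K) ℂ)).card = (p ^ r) ^ 2 := by
    rw [Finset.card_univ, AddChar.card_eq, hcardN]
  rw [hcardN] at hcnt1 hcnt2
  rw [hK] at hcnt2
  have hpr0 : 0 < p ^ r := pow_pos hpp.pos r
  have hcnt2' : (univ.filter (fun χ : AddChar (H × K) ℂ => ∀ k : K, χ ((0 : H), k) = 1)).card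
      = p ^ r := by
    rw [sq] at hcnt2
    exact Nat.eq_of_mul_eq_mul_left hpr0 hcnt2
  have hprc : ((p ^ r : ℕ) : ℝ) = (p : ℝ) ^ r := by push_cast; rfl
  have hpairs := ta_pairs f φ
  rw [← hQn] at hpairs
  refine ta_final p ((p : ℝ) ^ r) Qn S4 N (by exact_mod_cast hp3) ?_ hn9 hS hmain ?_
  · rcases Nat.lt_or_ge p 4 with h | h
    · left
      have : p = 3 := by omega
      rw [this]; norm_num
    · right; exact_mod_cast h
  rcases hcases with ⟨ha, hb⟩ | ⟨hb, ha⟩
  · left
    have hφH : ∀ h : H, φ (h, 0) = 0 := by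
      intro h
      rw [hφ0]
      have h1 := hφ (h, 0)
      have h2 := congrArg Prod.fst h1
      apply Prod.ext
      · rw [h2]
        show (φ (h, 0)).val • g0.1 = 0
        rw [ha, smul_zero]
      · simp
    constructor
    · -- `N`
      have h1 : N + (univ.filter (fun χ : AddChar (H × K) ℂ => χ g0 = 1)).card = (p ^ r) ^ 2 := by
        rw [hN, ← hcardC, ← Finset.card_filter_add_card_filter_not
          (fun χ : AddChar (H × K) ℂ => χ g0 = 1) (s := univ), add_comm]
        congr 2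
        ext χ
        simp only [Finset.mem_filter, Finset.mem_univ, true_and]
        constructor
        · exact fun h => h.1
        · intro h
          refine ⟨h, g0.2, ?_⟩
          have : ((0 : H), g0.2) = g0 := Prod.ext ha.symm rfl
          rw [this]; exact h
      have h2 : (N : ℝ) + ((univ.filter (fun χ : AddChar (H × K) ℂ => χ g0 = 1)).card : ℝ)
          = ((p : ℝ) ^ r) ^ 2 := by
        rw [← hprc]; exact_mod_cast h1
      have h3 : (p : ℝ) * ((univ.filter (fun χ : AddChar (H × K) ℂ => χ g0 = 1)).card : ℝ)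
          = ((p : ℝ) ^ r) ^ 2 := by
        rw [← hprc]; exact_mod_cast hcnt1
      have h4 : (N : ℝ) = ((p : ℝ) ^ r) ^ 2
        - ((univ.filter (fun χ : AddChar (H × K) ℂ => χ g0 = 1)).card : ℝ) := by linarith
      rw [h4, mul_sub, h3]; ring
    · -- `Q`
      have hsurj : Function.Surjective (φ.comp (AddMonoidHom.inr H K)) := by
        intro c
        refine ⟨c.val • g1.2, ?_⟩
        rw [map_nsmul]
        have h1 : (φ.comp (AddMonoidHom.inr H K)) g1.2 = 1 := by
          have h2 : g1 = (g1.1, 0) + (0, g1.2) := by ext <;> simp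
          have h3 : φ g1 = φ (g1.1, 0) + φ (0, g1.2) := by rw [← map_add, ← h2]
          rw [hφg1, hφH, zero_add] at h3
          simpa using h3.symm
        rw [h1]; simp
      have hker := ta_ker (φ.comp (AddMonoidHom.inr H K)) hsurj
      rw [hK] at hker
      have hall : ∀ h : H, h ≠ 0 →
          (univ.filter (fun y : H => φ (h, f (h + y) - f y) = 0)).card
          = (univ.filter (fun k : K => (φ.comp (AddMonoidHom.inr H K)) k = 0)).card := by
        intro h hh
        rw [ta_bij f hf φ h hh]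
        congr 1
        ext k
        simp only [Finset.mem_filter, Finset.mem_univ, true_and]
        have h2 : ((h, k) : H × K) = (h, 0) + (0, k) := by simp
        rw [h2, map_add, hφH, zero_add]
        simp
      have hzero : (univ.filter (fun y : H => φ ((0 : H), f (0 + y) - f y) = 0)).card = p ^ r := by
        rw [← hH, ← Finset.card_univ]
        congr 1
        ext y
        simp only [Finset.mem_filter, Finset.mem_univ, true_and, iff_true, zero_add, sub_self]
        exact hφH 0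
      rw [← Finset.add_sum_erase univ _ (Finset.mem_univ (0 : H)), hzero] at hpairs
      rw [Finset.sum_congr rfl fun h hh => hall h (Finset.ne_of_mem_erase hh), Finset.sum_const,
        Finset.card_erase_of_mem (Finset.mem_univ _), Finset.card_univ, hH, smul_eq_mul] at hpairs
      have h5 : p * Qn = p * p ^ r + (p ^ r - 1) * p ^ r := by
        rw [hpairs, mul_add, ← hker]; ring
      have h6 : (p : ℝ) * (Qn : ℝ) = p * (p : ℝ) ^ r + ((p : ℝ) ^ r - 1) * (p : ℝ) ^ r := by
        have h7 : (((p * Qn : ℕ)) : ℝ) = ((p * p ^ r + (p ^ r - 1) * p ^ r : ℕ) : ℝ) := by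
          rw [h5]
        rw [Nat.cast_add, Nat.cast_mul, Nat.cast_mul, Nat.cast_mul, Nat.cast_sub hpr0] at h7
        rw [hprc] at h7
        simpa using h7
      rw [h6]; ring
  · right
    have hφK : ∀ k : K, φ (0, k) = 0 := by
      intro k
      rw [hφ0]
      have h1 := hφ (0, k)
      have h2 := congrArg Prod.snd h1
      apply Prod.ext
      · simp
      · rw [h2]
        show (φ (0, k)).val • g0.2 = 0
        rw [hb, smul_zero]
    constructor
    · have h1 : (p ^ r) ^ 2 ≤ N + (univ.filter (fun χ : AddChar (H × K) ℂ => χ g0 = 1)).card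
          + (univ.filter (fun χ : AddChar (H × K) ℂ => ∀ k : K, χ ((0 : H), k) = 1)).card := by
        rw [hN, ← hcardC]
        refine le_trans (Finset.card_le_card ?_) ((Finset.card_union_le _ _).trans
          (Nat.add_le_add_right (Finset.card_union_le _ _) _))
        intro χ _
        simp only [Finset.mem_union, Finset.mem_filter, Finset.mem_univ, true_and]
        by_cases h1 : χ g0 = 1
        · exact Or.inl (Or.inr h1)
        · by_cases h2 : ∀ k : K, χ ((0 : H), k) = 1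
          · exact Or.inr h2
          · push Not at h2
            exact Or.inl (Or.inl ⟨h1, h2⟩)
      rw [hcnt2'] at h1
      have h2 : ((p : ℝ) ^ r) ^ 2 ≤ (N : ℝ)
          + ((univ.filter (fun χ : AddChar (H × K) ℂ => χ g0 = 1)).card : ℝ) + (p : ℝ) ^ r := by
        rw [← hprc]; exact_mod_cast h1
      have h3 : (p : ℝ) * ((univ.filter (fun χ : AddChar (H × K) ℂ => χ g0 = 1)).card : ℝ)
          = ((p : ℝ) ^ r) ^ 2 := by
        rw [← hprc]; exact_mod_cast hcnt1
      have hp0 : (0 : ℝ) ≤ p := Nat.cast_nonneg p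
      have h4 := mul_le_mul_of_nonneg_left h2 hp0
      nlinarith
    · have hsurj : Function.Surjective (φ.comp (AddMonoidHom.inl H K)) := by
        intro c
        refine ⟨c.val • g1.1, ?_⟩
        rw [map_nsmul]
        have h1 : (φ.comp (AddMonoidHom.inl H K)) g1.1 = 1 := by
          have h2 : g1 = (g1.1, 0) + (0, g1.2) := by ext <;> simp
          have h3 : φ g1 = φ (g1.1, 0) + φ (0, g1.2) := by rw [← map_add, ← h2]
          rw [hφg1, hφK, add_zero] at h3
          simpa using h3.symm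
        rw [h1]; simp
      have hker := ta_ker (φ.comp (AddMonoidHom.inl H K)) hsurj
      rw [hH] at hker
      have hall : ∀ h : H, (univ.filter (fun y : H => φ (h, f (h + y) - f y) = 0)).card
          = if (φ.comp (AddMonoidHom.inl H K)) h = 0 then p ^ r else 0 := by
        intro h
        have h2 : ∀ y : H, φ (h, f (h + y) - f y) = (φ.comp (AddMonoidHom.inl H K)) h := by
          intro y
          have h3 : ((h, f (h + y) - f y) : H × K) = (h, 0) + (0, f (h + y) - f y) := by simp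
          rw [h3, map_add, hφK, add_zero]
          simp
        simp only [h2]
        split_ifs with h3
        · rw [← hH, ← Finset.card_univ]
          congr 1
          ext y
          simp only [Finset.mem_filter, Finset.mem_univ, true_and, iff_true]
          exact h3
        · rw [Finset.card_eq_zero, Finset.filter_eq_empty_iff]
          intro y _
          exact h3
      rw [Finset.sum_congr rfl fun h _ => hall h, ← Finset.sum_filter, Finset.sum_const,
        smul_eq_mul] at hpairs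
      have h5 : p * Qn = (p ^ r) ^ 2 := by
        rw [hpairs, ← mul_assoc, hker]; ring
      have h6 : (((p * Qn : ℕ)) : ℝ) = (((p ^ r) ^ 2 : ℕ) : ℝ) := by rw [h5]
      push_cast at h6
      exact h6

end Pool.Agent.H88.Pl
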