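import Pool.Agent.H88.Pl.Planar
import Pool.Agent.H88.Pl.TA
import Pool.Agent.H88.Pl.CL

/-!
# Planar functions between abelian groups of order `p ^ 3`
-/

set_option autoImplicit false

namespace Pool.Agent.H88.Pl

open Finset

lemma planar_comp {H H' K : Type*} [AddCommGroup H] [AddCommGroup H'] [AddCommGroup K]
    (e : H ≃+ H') (f : H → K) (hf : IsPlanar f) : IsPlanar (fun x => f (e.symm x)) := by
  intro h hh
  have h1 : e.symm h ≠ 0 := by
    intro h0
    exact hh (by simpa using h0)
  have h2 := (hf _ h1).comp e.symm.bijective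
  have h3 : (fun x => f (e.symm h + x) - f x) ∘ e.symm =
      fun x => f (e.symm (h + x)) - f (e.symm x) := by
    funext x
    simp
  rw [h3] at h2
  exact h2

/-- a group of even order is not the domain of a planar function -/
lemma no_planar_even {H K : Type*} [AddCommGroup H] [AddCommGroup K] (f : H → K) (hf : IsPlanar f)
    (h : H) (hh : h ≠ 0) (h2 : 2 • h = 0) : False := by
  obtain ⟨x, hx⟩ := (hf h hh).2 0
  have h3 : h + (h + x) = x := by
    rw [← add_assoc, ← two_nsmul, h2, zero_add]
  have h4 : (fun x => f (h + x) - f x) (h + x) = 0 := by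
    show f (h + (h + x)) - f (h + x) = 0
    rw [h3, ← neg_sub, neg_eq_zero]
    exact hx
  have h5 := (hf h hh).1 (h4.trans hx.symm)
  exact hh (by simpa using h5)

variable {p : ℕ} [Fact p.Prime]

lemma no_planar_A (hp : p ≠ 2) {r e : ℕ} (he : 2 ≤ e) {H K L : Type*} [AddCommGroup H]
    [AddCommGroup K] [AddCommGroup L] [Finite H] [Finite K] (hH : Nat.card H = p ^ r)
    (hK : Nat.card K = p ^ r) (f : H → K) (hf : IsPlanar f) (eK : K ≃+ ZMod (p ^ e) × L)
    (hL : ∀ x : L, p ^ (e - 1) • x = 0) (hHp : ∀ x : H, p ^ (e - 1) • x = 0) : False := by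
  have hpp := (Fact.out : p.Prime)
  have hNe : NeZero (p ^ e) := ⟨(pow_pos hpp.pos e).ne'⟩
  have hpe : p ^ e = p * p ^ (e - 1) := by
    rw [← pow_succ']; congr 1; omega
  set g0 : H × K := (0, eK.symm (((p ^ (e - 1) : ℕ) : ZMod (p ^ e)), 0)) with hg0
  have key : ∀ g : H × K, p ^ (e - 1) • g = (eK g.2).1.val • g0 := by
    intro g
    apply Prod.ext
    · rw [hg0]
      simp [hHp]
    · rw [hg0]
      apply eK.injective
      rw [Prod.smul_snd, Prod.smul_snd, map_nsmul, map_nsmul, AddEquiv.apply_symm_apply]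
      apply Prod.ext
      · rw [Prod.smul_fst, Prod.smul_fst, nsmul_eq_mul, nsmul_eq_mul, ZMod.natCast_zmod_val, mul_comm]
      · rw [Prod.smul_snd, Prod.smul_snd, hL, smul_zero]
  refine theoremA hp he hH hK f hf ?_ g0 ?_ (fun g => ⟨_, key g⟩) ?_
  · intro g
    rw [hpe, mul_smul, key, ← mul_smul, mul_comm, mul_smul]
    have h1 : p • g0 = 0 := by
      apply Prod.ext
      · simp [hg0]
      · apply eK.injective
        rw [hg0, Prod.smul_snd, map_nsmul, AddEquiv.apply_symm_apply]
        apply Prod.ext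
        · rw [Prod.smul_fst, nsmul_eq_mul, ← Nat.cast_mul, ← hpe, ZMod.natCast_self]
          simp
        · simp
    rw [h1, smul_zero]
  · intro h0
    have h1 := congrArg (fun g => (eK g.2).1) h0
    simp only [hg0, AddEquiv.apply_symm_apply] at h1
    rw [Prod.snd_zero, map_zero, Prod.fst_zero, ZMod.natCast_eq_zero_iff] at h1
    have h2 := (Nat.pow_dvd_pow_iff_le_right hpp.one_lt).1 h1
    omega
  · refine ⟨(0, eK.symm (1, 0)), ?_⟩
    rw [key]
    have h1 : ((eK ((0, eK.symm (1, 0)) : H × K).2).1).val = 1 := by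
      rw [AddEquiv.apply_symm_apply]
      have : Fact (1 < p ^ e) := ⟨Nat.one_lt_pow (by omega) hpp.one_lt⟩
      exact ZMod.val_one (p ^ e)
    rw [h1, one_smul]

/-- the reduction homomorphism -/
noncomputable def red (p e : ℕ) (he : e ≠ 0) : ZMod (p ^ e) →+ ZMod p :=
  (ZMod.castHom (dvd_pow_self p he) (ZMod p)).toAddMonoidHom

lemma red_one (e : ℕ) (he : e ≠ 0) : red p e he 1 = 1 := map_one (ZMod.castHom (dvd_pow_self p he) (ZMod p))

/-- **Main theorem**: planar functions between abelian groups of order `p ^ 3`. -/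
theorem main_three {H K : Type*} [AddCommGroup H] [AddCommGroup K] (hH : Nat.card H = p ^ 3)
    (f : H → K) (hf : IsPlanar f) :
    Nonempty (H ≃+ (Fin 3 → ZMod p)) ∧ Nonempty (K ≃+ (Fin 3 → ZMod p)) := by
  have hpp := (Fact.out : p.Prime)
  have : Finite H := Nat.finite_of_card_ne_zero (by rw [hH]; exact (pow_pos hpp.pos 3).ne')
  have hnt : Nontrivial H := by
    rw [← Finite.one_lt_card_iff_nontrivial, hH]
    exact Nat.one_lt_pow (by norm_num) hpp.one_lt
  obtain ⟨h0, hh0⟩ := exists_ne (0 : H)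
  have hK : Nat.card K = p ^ 3 := by
    rw [← hH]
    exact (Nat.card_congr (Equiv.ofBijective _ (hf h0 hh0))).symm
  have : Finite K := Nat.finite_of_card_ne_zero (by rw [hK]; exact (pow_pos hpp.pos 3).ne')
  have hp : p ≠ 2 := by
    rintro rfl
    obtain ⟨h, hh⟩ := exists_prime_addOrderOf_dvd_card' (G := H) 2 (by rw [hH]; norm_num)
    exact no_planar_even f hf h (by
      intro h0
      rw [h0, addOrderOf_zero] at hh
      norm_num at hh) (by rw [← hh]; exact addOrderOf_nsmul_eq_zero h)
  -- homomorphisms on `K`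
  have hKhom : ∃ π : K →+ ZMod p, π ≠ 0 := by
    rcases classify hK with e | e | e
    · obtain ⟨e⟩ := e
      refine ⟨(red p 3 (by norm_num)).comp e.toAddMonoidHom, fun h => ?_⟩
      have h1 := DFunLike.congr_fun h (e.symm 1)
      simp [red_one] at h1
    · obtain ⟨e⟩ := e
      refine ⟨(AddMonoidHom.snd _ _).comp e.toAddMonoidHom, fun h => ?_⟩
      have h1 := DFunLike.congr_fun h (e.symm (0, 1))
      simp at h1
    · obtain ⟨e⟩ := e
      refine ⟨(Pi.evalAddMonoidHom _ 0).comp e.toAddMonoidHom, fun h => ?_⟩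
      have h1 := DFunLike.congr_fun h (e.symm (fun _ => 1))
      simp at h1
  obtain ⟨π, hπ⟩ := hKhom
  rcases classify hH with eH | eH | eH
  · obtain ⟨eH⟩ := eH
    exact (no_planar_cyclic hp _ (planar_comp eH f hf) π hπ).elim
  · obtain ⟨eH⟩ := eH
    exfalso
    have hHp : ∀ e, 2 ≤ e → ∀ x : H, p ^ e • x = 0 := by
      intro e he x
      apply eH.injective
      rw [map_nsmul, map_zero]
      obtain ⟨c, hc⟩ := pow_dvd_pow p he
      have h1 : p ^ 2 • eH x = 0 := by
        apply Prod.ext
        · rw [Prod.smul_fst, nsmul_eq_mul, ZMod.natCast_self]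
          simp
        · rw [Prod.smul_snd, nsmul_eq_mul]
          simp
      rw [hc, mul_comm, mul_smul, h1, smul_zero]
    rcases classify hK with e | e | e
    · obtain ⟨e⟩ := e
      exact no_planar_A hp (e := 3) (by norm_num) hH hK f hf
        (e.trans (AddEquiv.prodUnique (M := ZMod (p ^ 3)) (N := PUnit.{1})).symm)
        (fun x => Subsingleton.elim _ _) (hHp _ (by norm_num))
    · obtain ⟨e⟩ := e
      refine no_planar_two hp _ (planar_comp eH f hf)
        (((red p 2 (by norm_num)).comp (AddMonoidHom.fst _ _)).comp e.toAddMonoidHom)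
        ((AddMonoidHom.snd _ _).comp e.toAddMonoidHom) ?_
      intro v1 v2 hv
      rcases hv with hv | hv
      · refine ⟨e.symm (1, 0), ?_⟩
        simpa [red_one] using hv
      · refine ⟨e.symm (0, 1), ?_⟩
        simpa using hv
    · obtain ⟨e⟩ := e
      refine no_planar_two hp _ (planar_comp eH f hf)
        ((Pi.evalAddMonoidHom _ 0).comp e.toAddMonoidHom)
        ((Pi.evalAddMonoidHom _ 1).comp e.toAddMonoidHom) ?_
      intro v1 v2 hv
      rcases hv with hv | hv
      · refine ⟨e.symm (Pi.single 0 1), ?_⟩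
        simpa using hv
      · refine ⟨e.symm (Pi.single 1 1), ?_⟩
        simpa using hv
  · obtain ⟨eH⟩ := eH
    have hHp : ∀ e, 1 ≤ e → ∀ x : H, p ^ e • x = 0 := by
      intro e he x
      apply eH.injective
      rw [map_nsmul, map_zero]
      obtain ⟨c, hc⟩ := pow_dvd_pow p he
      have h1 : p ^ 1 • eH x = 0 := by
        funext i
        simp
      rw [hc, mul_comm, mul_smul, h1, smul_zero]
    rcases classify hK with e | e | e
    · obtain ⟨e⟩ := e
      exact (no_planar_A hp (e := 3) (by norm_num) hH hK f hf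
        (e.trans (AddEquiv.prodUnique (M := ZMod (p ^ 3)) (N := PUnit.{1})).symm)
        (fun x => Subsingleton.elim _ _) (hHp _ (by norm_num))).elim
    · obtain ⟨e⟩ := e
      exact (no_planar_A hp (e := 2) (by norm_num) hH hK f hf e
        (fun x => by simp) (hHp _ (by norm_num))).elim
    · obtain ⟨e⟩ := e
      exact ⟨⟨eH⟩, ⟨e⟩⟩

end Pool.Agent.H88.Pl
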