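import Pool.Agent.H88.Pl.Types

/-!
# Character sums of planar functions and the reduction to slices
-/

set_option autoImplicit false

namespace Pool.Agent.H88.Pl

open Finset

/-- Character sums of planar functions. -/
theorem planar_char {H K : Type*} [AddCommGroup H] [AddCommGroup K] [Fintype H] [Fintype K]
    (f : H → K) (hf : IsPlanar f) (χ : K → ℂ) (hχ : ∀ x y, χ (x + y) = χ x * χ y)
    (hn : ∀ x, ‖χ x‖ = 1) (hne : ∃ y, χ y ≠ 1) (ψ : H → ℂ) (hψ : ∀ x y, ψ (x + y) = ψ x * ψ y)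
    (hm : ∀ x, ‖ψ x‖ = 1) :
    ‖∑ x, χ (f x) * ψ x‖ ^ 2 = Fintype.card H := by
  classical
  have hψ0 : ψ 0 = 1 := by
    have h1 := hψ 0 0
    rw [add_zero] at h1
    have h2 : ψ 0 ≠ 0 := by rw [← norm_ne_zero_iff, hm]; exact one_ne_zero
    exact (mul_left_cancel₀ h2 (by rw [mul_one]; exact h1)).symm
  have hχ0 : χ 0 = 1 := by
    have h1 := hχ 0 0
    rw [add_zero] at h1
    have h2 : χ 0 ≠ 0 := by rw [← norm_ne_zero_iff, hn]; exact one_ne_zero
    exact (mul_left_cancel₀ h2 (by rw [mul_one]; exact h1)).symm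
  have hsum : ∑ z, χ z = 0 := by
    obtain ⟨y, hy⟩ := hne
    have h1 : χ y * ∑ z, χ z = ∑ z, χ z := by
      rw [mul_sum, ← Equiv.sum_comp (Equiv.addLeft y) χ]
      exact sum_congr rfl fun z _ => (hχ y z).symm
    have h2 : (χ y - 1) * ∑ z, χ z = 0 := by rw [sub_mul, h1, one_mul, sub_self]
    exact (mul_eq_zero.1 h2).resolve_left (sub_ne_zero.2 hy)
  have hcχ : ∀ a b : K, χ a * (starRingEnd ℂ) (χ b) = χ (a - b) := by
    intro a b
    have h1 : χ a = χ (a - b) * χ b := by rw [← hχ, sub_add_cancel]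
    rw [h1, mul_assoc, Complex.mul_conj', hn]
    simp
  have hcψ : ∀ a b : H, ψ a * (starRingEnd ℂ) (ψ b) = ψ (a - b) := by
    intro a b
    have h1 : ψ a = ψ (a - b) * ψ b := by rw [← hψ, sub_add_cancel]
    rw [h1, mul_assoc, Complex.mul_conj', hm]
    simp
  have key : ((‖∑ x, χ (f x) * ψ x‖ ^ 2 : ℝ) : ℂ) = (Fintype.card H : ℝ) := by
    rw [Complex.ofReal_pow, ← Complex.mul_conj', map_sum, sum_mul_sum, sum_comm]
    have h1 : ∀ y : H, ∑ x, χ (f x) * ψ x * (starRingEnd ℂ) (χ (f y) * ψ y) =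
        ∑ h, χ (f (h + y) - f y) * ψ h := by
      intro y
      rw [← Equiv.sum_comp (Equiv.addRight y)]
      apply sum_congr rfl
      intro h _
      rw [map_mul, mul_mul_mul_comm, hcχ, hcψ]
      simp
    simp_rw [h1]
    rw [sum_comm, sum_eq_single (0 : H)]
    · simp only [zero_add, sub_self, hχ0, hψ0, mul_one, sum_const, card_univ, nsmul_eq_mul]
      push_cast
      rfl
    · intro h _ hh
      rw [← sum_mul]
      have h2 : ∑ y, χ (f (h + y) - f y) = ∑ z, χ z :=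
        Equiv.sum_comp (Equiv.ofBijective _ (hf h hh)) χ
      rw [h2, hsum, zero_mul]
    · intro h'; exact absurd (mem_univ _) h'
  exact_mod_cast key

/-- characters of `ZMod N` -/
lemma pow_val_add {N : ℕ} [NeZero N] {ξ : ℂ} (hξ : ξ ^ N = 1) (x y : ZMod N) :
    ξ ^ (x + y).val = ξ ^ x.val * ξ ^ y.val := by
  rw [ZMod.val_add, ← pow_add]
  conv_rhs => rw [← Nat.mod_add_div (x.val + y.val) N, pow_add, pow_mul, hξ, one_pow, mul_one]

/-- decomposition of `ZMod N` -/
def dec (m n N : ℕ) (x : ZMod m × ZMod n) : ZMod N := ((x.1.val + m * x.2.val : ℕ) : ZMod N)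

lemma dec_val {m n N : ℕ} [NeZero m] [NeZero n] (hN : N = m * n) (x : ZMod m × ZMod n) :
    (dec m n N x).val = x.1.val + m * x.2.val := by
  rw [dec, ZMod.val_cast_of_lt]
  have h1 := ZMod.val_lt x.1
  have h2 := ZMod.val_lt x.2
  rw [hN]
  calc x.1.val + m * x.2.val < m + m * x.2.val := by omega
    _ = m * (x.2.val + 1) := by ring
    _ ≤ m * n := Nat.mul_le_mul_left _ h2

lemma dec_bijective {m n N : ℕ} [NeZero m] [NeZero n] [NeZero N] (hN : N = m * n) :
    Function.Bijective (dec m n N) := by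
  rw [Fintype.bijective_iff_injective_and_card]
  constructor
  · intro x y hxy
    have h1 := congrArg ZMod.val hxy
    rw [dec_val hN, dec_val hN] at h1
    have hx := ZMod.val_lt x.1
    have hy := ZMod.val_lt y.1
    have h2 : x.1.val = y.1.val := by
      have h3 := congrArg (· % m) h1
      simp only [Nat.add_mul_mod_self_left] at h3
      rwa [Nat.mod_eq_of_lt hx, Nat.mod_eq_of_lt hy] at h3
    have h3 : m * x.2.val = m * y.2.val := by omega
    have h4 := Nat.eq_of_mul_eq_mul_left (Nat.pos_of_ne_zero (NeZero.ne m)) h3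
    exact Prod.ext (ZMod.val_injective m h2) (ZMod.val_injective n h4)
  · rw [Fintype.card_prod, ZMod.card, ZMod.card, ZMod.card, hN]

variable {p : ℕ} [Fact p.Prime]

/-- the slice through zero -/
def slice (F : ZMod (p ^ 2) × ZMod p → ZMod p) (i k b : ZMod p) : ZMod p :=
  F (dec p p (p ^ 2) (i, k), b)

/-- decomposition of a character sum into slices -/
lemma sum_slices {ξ : ℂ} (hξ : ξ ^ (p ^ 2) = 1) (F : ZMod (p ^ 2) × ZMod p → ZMod p) (σ : ℕ)
    (t : ZMod p) :
    ∑ x : ZMod (p ^ 2) × ZMod p, ξ ^ (p * (F x).val + σ * x.1.val + p * (t.val * x.2.val)) =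
      ∑ i : ZMod p, ξ ^ (σ * i.val) * SS (ξ ^ p) (slice F i) σ t := by
  have hN : p ^ 2 = p * p := sq p
  have hw : (ξ ^ p) ^ p = 1 := by rw [← pow_mul, ← hN]; exact hξ
  rw [Fintype.sum_prod_type, ← Equiv.sum_comp (Equiv.ofBijective _ (dec_bijective hN)),
    Fintype.sum_prod_type]
  apply sum_congr rfl
  intro i _
  rw [SS, mul_sum]
  apply sum_congr rfl
  intro k _
  rw [mul_sum]
  apply sum_congr rfl
  intro b _
  simp only [Equiv.ofBijective_apply, dec_val hN]
  have h1 : slice F i k b + σ * k + t * b =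
      ((((F (dec p p (p ^ 2) (i, k), b)).val + σ * k.val + t.val * b.val : ℕ)) : ZMod p) := by
    push_cast
    rw [ZMod.natCast_zmod_val, ZMod.natCast_zmod_val, ZMod.natCast_zmod_val, ZMod.natCast_zmod_val]
    rfl
  rw [h1, ew_natCast hw, ← pow_mul, ← pow_add]
  congr 1
  ring

lemma primitive_of_pow {N : ℕ} {e : ℕ} {ξ : ℂ} (hN : N = p ^ (e + 1))
    (hξ : IsPrimitiveRoot (ξ ^ (p ^ e)) p) : IsPrimitiveRoot ξ N := by
  subst hN
  rw [IsPrimitiveRoot.iff_def]
  have h1 : ξ ^ (p ^ (e + 1)) = 1 := by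
    rw [pow_succ, pow_mul]; exact hξ.pow_eq_one
  have h2 : ¬ ξ ^ (p ^ e) = 1 := hξ.ne_one (Fact.out : p.Prime).one_lt
  have h3 := orderOf_eq_prime_pow h2 h1
  refine ⟨h1, fun l hl => ?_⟩
  rw [← h3]
  exact orderOf_dvd_of_pow_eq_one hl

/-- slices of functions with flat spectrum are good -/
theorem good_slice (hp : p ≠ 2) (F : ZMod (p ^ 2) × ZMod p → ZMod p)
    (hF : ∀ ξ : ℂ, IsPrimitiveRoot ξ (p ^ 2) → ∀ (σ : ℕ) (t : ZMod p),
      ‖∑ x : ZMod (p ^ 2) × ZMod p, ξ ^ (p * (F x).val + σ * x.1.val + p * (t.val * x.2.val))‖ ^ 2 =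
        (p : ℝ) ^ 3) : Good (slice F 0) := by
  have hp0 := p_pos (p := p)
  have hpc := p_ne_zero (p := p)
  have hroot : ∀ w : ℂ, IsPrimitiveRoot w p → ∃ ξ : ℂ, IsPrimitiveRoot ξ (p ^ 2) ∧ ξ ^ p = w := by
    intro w hw
    obtain ⟨ξ, hξ⟩ := IsAlgClosed.exists_pow_nat_eq w (Fact.out : p.Prime).pos
    refine ⟨ξ, ?_, hξ⟩
    apply primitive_of_pow (e := 1) (p := p) (by norm_num)
    rw [pow_one, hξ]
    exact hw
  constructor
  · intro s hs t
    obtain ⟨ε, j, hε, hj⟩ := arith hp (e := 2) (by norm_num) 3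
      (fun x : ZMod (p ^ 2) × ZMod p => p * (F x).val + s.val * x.1.val + p * (t.val * x.2.val))
      (fun ξ hξ => hF ξ hξ s.val t)
    have key : ∀ w : ℂ, IsPrimitiveRoot w p → SS w (slice F 0) s t =
        if (j : ZMod p) = 0 then (ε : ℂ) * w ^ (j / p) * gs p w ^ 3 else 0 := by
      intro w hw
      obtain ⟨ξ, hξ, hξw⟩ := hroot w hw
      have h1 : ∀ l : ZMod p, ∑ i : ZMod p, ξ ^ (s.val * i.val) * SS w (slice F i) s t *
          ew w (l * (s * i)) = ε * ξ ^ j * gs p w ^ 3 * ew w (l * (j : ZMod p)) := by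
        intro l
        have h2 : (ξ * w ^ l.val) ^ p = w := by
          rw [mul_pow, hξw, ← pow_mul, mul_comm l.val, pow_mul, hw.pow_eq_one, one_pow, mul_one]
        have h3 : IsPrimitiveRoot (ξ * w ^ l.val) (p ^ 2) := by
          apply primitive_of_pow (e := 1) (p := p) (by norm_num)
          rw [pow_one, h2]
          exact hw
        have h4 := hj _ h3
        rw [sum_slices h3.pow_eq_one, show 2 - 1 = 1 from rfl, pow_one, h2, ZMod.natCast_zmod_val] at h4
        have h5 : ∀ n : ℕ, (ξ * w ^ l.val) ^ n = ξ ^ n * ew w (l * (n : ZMod p)) := by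
          intro n
          rw [mul_pow, ← pow_mul]
          congr 1
          rw [← ew_natCast hw.pow_eq_one]
          congr 1
          push_cast
          rw [ZMod.natCast_zmod_val]
        rw [h5] at h4
        simp_rw [h5] at h4
        rw [mul_right_comm _ (gs p w ^ 3), mul_assoc (ε : ℂ), ← h4]
        apply sum_congr rfl
        intro i _
        have h6 : ((s.val * i.val : ℕ) : ZMod p) = s * i := by
          push_cast
          rw [ZMod.natCast_zmod_val, ZMod.natCast_zmod_val]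
        rw [h6]
        ring
      have h2 : ∑ l : ZMod p, ∑ i : ZMod p, ξ ^ (s.val * i.val) * SS w (slice F i) s t *
          ew w (l * (s * i)) = p * SS w (slice F 0) s t := by
        rw [sum_comm, sum_eq_single (0 : ZMod p)]
        · simp [ew_zero, ZMod.card]
        · intro i _ hi
          rw [← mul_sum, sum_ew_mul hw, if_neg (mul_ne_zero hs hi), mul_zero]
        · intro h'; exact absurd (mem_univ _) h'
      simp_rw [h1] at h2
      rw [← mul_sum, sum_ew_mul hw] at h2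
      apply mul_left_cancel₀ hpc
      rw [← h2]
      by_cases hj0 : (j : ZMod p) = 0
      · rw [if_pos hj0, if_pos hj0]
        have h3 : p * (j / p) = j := Nat.mul_div_cancel' ((ZMod.natCast_eq_zero_iff _ _).1 hj0)
        have h4 : ξ ^ j = w ^ (j / p) := by
          conv_lhs => rw [← h3, pow_mul, hξw]
        rw [h4]
        ring
      · rw [if_neg hj0, if_neg hj0, mul_zero, mul_zero]
    by_cases hj0 : (j : ZMod p) = 0
    · refine ⟨ε, ((j / p : ℕ) : ZMod p), Or.inr hε, fun w hw => ?_⟩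
      rw [key w hw, if_pos hj0, ew_natCast hw.pow_eq_one]
    · refine ⟨0, 0, Or.inl rfl, fun w hw => ?_⟩
      rw [key w hw, if_neg hj0]
      simp
  · intro w hw t
    obtain ⟨ξ, hξ, hξw⟩ := hroot w hw
    have h1 : ∀ u : ZMod p, ‖∑ i : ZMod p, SS w (slice F i) 0 t * ew w (u * i)‖ ^ 2 = (p : ℝ) ^ 3 := by
      intro u
      rw [← hF ξ hξ (p * u.val) t, sum_slices hξ.pow_eq_one]
      congr 2
      apply sum_congr rfl
      intro i _
      rw [hξw, Nat.cast_mul, ZMod.natCast_self, zero_mul, mul_comm, mul_assoc p, pow_mul, hξw]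
      congr 1
      rw [← ew_natCast hw.pow_eq_one]
      congr 1
      push_cast
      rw [ZMod.natCast_zmod_val, ZMod.natCast_zmod_val]
    have h2 := parseval hw (fun i => SS w (slice F i) 0 t)
    simp_rw [h1] at h2
    rw [sum_const, card_univ, ZMod.card, nsmul_eq_mul] at h2
    have h3 := mul_left_cancel₀ hp0.ne' h2
    rw [h3]
    exact single_le_sum (f := fun i => ‖SS w (slice F i) 0 t‖ ^ 2) (fun i _ => sq_nonneg _)
      (mem_univ (0 : ZMod p))

/-- the spectrum of a component of a planar function on `ZMod (p^2) × ZMod p` is flat -/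
lemma flat_of_planar {K : Type*} [AddCommGroup K] [Fintype K] (f : ZMod (p ^ 2) × ZMod p → K)
    (hf : IsPlanar f) (π : K →+ ZMod p) (hπ : π ≠ 0) {ξ : ℂ} (hξ : IsPrimitiveRoot ξ (p ^ 2))
    (σ : ℕ) (t : ZMod p) :
    ‖∑ x : ZMod (p ^ 2) × ZMod p,
      ξ ^ (p * (π (f x)).val + σ * x.1.val + p * (t.val * x.2.val))‖ ^ 2 = (p : ℝ) ^ 3 := by
  have hpp := (Fact.out : p.Prime)
  have hw : IsPrimitiveRoot (ξ ^ p) p := hξ.pow (pow_pos hpp.pos 2) (sq p)
  have hξn : ‖ξ‖ = 1 := Complex.norm_eq_one_of_pow_eq_one hξ.pow_eq_one (pow_pos hpp.pos 2).ne'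
  have h1 := planar_char f hf (fun y => ew (ξ ^ p) (π y))
    (fun x y => by rw [map_add, ew_add hw.pow_eq_one])
    (fun x => norm_ew hw.pow_eq_one _)
    (by
      by_contra hcon
      push Not at hcon
      apply hπ
      ext y
      exact (ew_eq_one_iff hw _).1 (hcon y))
    (fun x => (ξ ^ x.1.val) ^ σ * ew (ξ ^ p) (t * x.2))
    (fun x y => by
      rw [Prod.fst_add, Prod.snd_add, pow_val_add hξ.pow_eq_one, mul_pow, mul_add,
        ew_add hw.pow_eq_one]
      ring)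
    (fun x => by
      rw [norm_mul, norm_ew hw.pow_eq_one, norm_pow, norm_pow, hξn]
      simp)
  rw [Fintype.card_prod, ZMod.card, ZMod.card] at h1
  have h2 : (((p ^ 2 * p : ℕ)) : ℝ) = (p : ℝ) ^ 3 := by push_cast; ring
  rw [h2] at h1
  rw [← h1]
  congr 2
  apply sum_congr rfl
  intro x _
  have h3 : ew (ξ ^ p) (π (f x)) = ξ ^ (p * (π (f x)).val) := by rw [ew, ← pow_mul]
  have h4 : ew (ξ ^ p) (t * x.2) = ξ ^ (p * (t.val * x.2.val)) := by
    have : t * x.2 = ((t.val * x.2.val : ℕ) : ZMod p) := by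
      push_cast
      rw [ZMod.natCast_zmod_val, ZMod.natCast_zmod_val]
    rw [this, ew_natCast hw.pow_eq_one, ← pow_mul]
  rw [h3, h4, ← pow_mul, pow_add, pow_add, mul_comm x.1.val]
  ring

/-- There is no planar function from `ZMod (p^2) × ZMod p` to a group with two independent
homomorphisms to `ZMod p`. -/
theorem no_planar_two (hp : p ≠ 2) {K : Type*} [AddCommGroup K] [Finite K]
    (f : ZMod (p ^ 2) × ZMod p → K) (hf : IsPlanar f) (π1 π2 : K →+ ZMod p)
    (hπ : ∀ v1 v2 : ZMod p, (v1 ≠ 0 ∨ v2 ≠ 0) → ∃ y, v1 * π1 y + v2 * π2 y ≠ 0) : False := by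
  have := Fintype.ofFinite K
  apply no_pair hp (slice (fun x => π1 (f x)) 0) (slice (fun x => π2 (f x)) 0)
  intro v1 v2 hv
  set π : K →+ ZMod p := (AddMonoidHom.mulLeft v1).comp π1 + (AddMonoidHom.mulLeft v2).comp π2
    with hπdef
  have h1 : ∀ y, π y = v1 * π1 y + v2 * π2 y := fun y => rfl
  have h2 : π ≠ 0 := by
    intro h0
    obtain ⟨y, hy⟩ := hπ v1 v2 hv
    apply hy
    rw [← h1, h0]
    rfl
  have h3 := good_slice hp (fun x => π (f x)) (fun ξ hξ σ t => flat_of_planar f hf π h2 hξ σ t)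
  exact h3

/-- There is no planar function from `ZMod (p^3)` to a group with a nonzero homomorphism to
`ZMod p`. -/
theorem no_planar_cyclic (hp : p ≠ 2) {K : Type*} [AddCommGroup K] [Finite K]
    (f : ZMod (p ^ 3) → K) (hf : IsPlanar f) (π : K →+ ZMod p) (hπ : π ≠ 0) : False := by
  have := Fintype.ofFinite K
  have hpp := (Fact.out : p.Prime)
  have hp0 := p_pos (p := p)
  -- flatness
  have flat : ∀ ξ : ℂ, IsPrimitiveRoot ξ (p ^ 3) →
      ‖∑ x : ZMod (p ^ 3), ξ ^ (p ^ 2 * (π (f x)).val + x.val)‖ ^ 2 = (p : ℝ) ^ 3 := by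
    intro ξ hξ
    have hw : IsPrimitiveRoot (ξ ^ (p ^ 2)) p :=
      hξ.pow (pow_pos hpp.pos 3) (by ring)
    have hξn : ‖ξ‖ = 1 := Complex.norm_eq_one_of_pow_eq_one hξ.pow_eq_one (pow_pos hpp.pos 3).ne'
    have h1 := planar_char f hf (fun y => ew (ξ ^ (p ^ 2)) (π y))
      (fun x y => by rw [map_add, ew_add hw.pow_eq_one])
      (fun x => norm_ew hw.pow_eq_one _)
      (by
        by_contra hcon
        push Not at hcon
        apply hπ
        ext y
        exact (ew_eq_one_iff hw _).1 (hcon y))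
      (fun x => ξ ^ x.val)
      (fun x y => pow_val_add hξ.pow_eq_one _ _)
      (fun x => by rw [norm_pow, hξn, one_pow])
    rw [ZMod.card] at h1
    have h2 : (((p ^ 3 : ℕ)) : ℝ) = (p : ℝ) ^ 3 := by push_cast; ring
    rw [h2] at h1
    rw [← h1]
    congr 2
    apply sum_congr rfl
    intro x _
    rw [ew, ← pow_mul, pow_add]
  obtain ⟨ε, j, hε, hj⟩ := arith hp (e := 3) (by norm_num) 3 _ flat
  obtain ⟨w, hw⟩ := exists_prim (p := p)
  obtain ⟨ξ, hξw⟩ := IsAlgClosed.exists_pow_nat_eq w (pow_pos hpp.pos 2)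
  have hξ : IsPrimitiveRoot ξ (p ^ 3) := by
    apply primitive_of_pow (e := 2) (p := p) (by norm_num)
    rw [hξw]
    exact hw
  set ζ := ξ ^ p with hζdef
  have hζ : IsPrimitiveRoot ζ (p ^ 2) := hξ.pow (pow_pos hpp.pos 3) (by ring)
  have hN : p ^ 3 = p ^ 2 * p := pow_succ p 2
  set V : ZMod (p ^ 2) → ℂ := fun i => ∑ k : ZMod p, ew w (π (f (dec (p ^ 2) p (p ^ 3) (i, k))) + k)
    with hV
  have hVle : ∀ i, ‖V i‖ ≤ p := by
    intro i
    refine (norm_sum_le _ _).trans ?_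
    simp [norm_ew hw.pow_eq_one, ZMod.card]
  have h1 : ∀ l : ℕ, ∑ i : ZMod (p ^ 2), ξ ^ i.val * V i * ζ ^ (l * i.val) =
      ε * ξ ^ j * gs p w ^ 3 * ζ ^ (l * j) := by
    intro l
    have h2 : (ξ * ζ ^ l) ^ (p ^ 2) = w := by
      rw [mul_pow, hξw, ← pow_mul, mul_comm l, pow_mul, hζ.pow_eq_one, one_pow, mul_one]
    have h3 : IsPrimitiveRoot (ξ * ζ ^ l) (p ^ 3) := by
      apply primitive_of_pow (e := 2) (p := p) (by norm_num)
      rw [h2]
      exact hw
    have h4 := hj _ h3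
    rw [show 3 - 1 = 2 from rfl, h2] at h4
    have h5 : ∑ x : ZMod (p ^ 3), (ξ * ζ ^ l) ^ (p ^ 2 * (π (f x)).val + x.val) =
        ∑ i : ZMod (p ^ 2), ξ ^ i.val * V i * ζ ^ (l * i.val) := by
      rw [← Equiv.sum_comp (Equiv.ofBijective _ (dec_bijective hN)), Fintype.sum_prod_type]
      apply sum_congr rfl
      intro i _
      rw [hV]
      simp only [Equiv.ofBijective_apply, dec_val hN]
      rw [mul_sum, sum_mul]
      apply sum_congr rfl
      intro k _
      have h6 : p ^ 2 * (π (f (dec (p ^ 2) p (p ^ 3) (i, k)))).val + (i.val + p ^ 2 * k.val) =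
          p ^ 2 * ((π (f (dec (p ^ 2) p (p ^ 3) (i, k)))).val + k.val) + i.val := by ring
      rw [h6, pow_add, pow_mul, h2, ← ew_natCast hw.pow_eq_one]
      push_cast
      rw [ZMod.natCast_zmod_val, ZMod.natCast_zmod_val, mul_pow, ← pow_mul]
      ring
    rw [← h5, h4, mul_pow, ← pow_mul]
    ring
  -- orthogonality modulo `p ^ 2`
  set c : ZMod (p ^ 2) := (j : ZMod (p ^ 2)) with hc
  have hp2 : 0 < p ^ 2 := pow_pos hpp.pos 2
  have h2 : ∀ a : ℕ, ∑ l ∈ range (p ^ 2), ζ ^ (l * a) = if (a : ZMod (p ^ 2)) = 0 then (p : ℂ) ^ 2 else 0 := by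
    intro a
    have h3 : ∀ l, ζ ^ (l * a) = (ζ ^ a) ^ l := fun l => by rw [mul_comm, pow_mul]
    simp_rw [h3]
    by_cases ha : (a : ZMod (p ^ 2)) = 0
    · rw [if_pos ha]
      have h4 : ζ ^ a = 1 := (hζ.pow_eq_one_iff_dvd a).2 ((ZMod.natCast_eq_zero_iff _ _).1 ha)
      simp [h4]
    · rw [if_neg ha]
      have h4 : ζ ^ a ≠ 1 := fun h5 => ha ((ZMod.natCast_eq_zero_iff _ _).2 ((hζ.pow_eq_one_iff_dvd a).1 h5))
      have h5 : (ζ ^ a - 1) * ∑ l ∈ range (p ^ 2), (ζ ^ a) ^ l = 0 := by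
        rw [mul_comm, geom_sum_mul, ← pow_mul, mul_comm a, pow_mul, hζ.pow_eq_one, one_pow, sub_self]
      exact (mul_eq_zero.1 h5).resolve_left (sub_ne_zero.2 h4)
  -- multiply by the inverse character
  have hd : ∃ d : ℕ, (d : ZMod (p ^ 2)) = - c := ⟨(-c).val, ZMod.natCast_zmod_val _⟩
  obtain ⟨d, hd⟩ := hd
  have h3 : ∑ l ∈ range (p ^ 2), (∑ i : ZMod (p ^ 2), ξ ^ i.val * V i * ζ ^ (l * i.val)) * ζ ^ (l * d) =
      (p : ℂ) ^ 2 * (ξ ^ c.val * V c) := by
    have h4 : ∀ l ∈ range (p ^ 2), (∑ i : ZMod (p ^ 2), ξ ^ i.val * V i * ζ ^ (l * i.val)) * ζ ^ (l * d) =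
        ∑ i : ZMod (p ^ 2), ξ ^ i.val * V i * ζ ^ (l * (i.val + d)) := by
      intro l _
      rw [sum_mul]
      apply sum_congr rfl
      intro i _
      rw [mul_assoc, ← pow_add, ← mul_add]
    rw [sum_congr rfl h4, sum_comm, sum_eq_single c]
    · rw [← mul_sum, h2, if_pos]
      · ring
      · push_cast
        rw [ZMod.natCast_zmod_val, hd]
        ring
    · intro i _ hi
      rw [← mul_sum, h2, if_neg, mul_zero]
      push_cast
      rw [ZMod.natCast_zmod_val, hd]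
      intro h5
      exact hi (by linear_combination h5)
    · intro h'; exact absurd (mem_univ _) h'
  have h4 : ∑ l ∈ range (p ^ 2), (∑ i : ZMod (p ^ 2), ξ ^ i.val * V i * ζ ^ (l * i.val)) * ζ ^ (l * d) =
      (p : ℂ) ^ 2 * (ε * ξ ^ j * gs p w ^ 3) := by
    have h5 : ∀ l ∈ range (p ^ 2), (∑ i : ZMod (p ^ 2), ξ ^ i.val * V i * ζ ^ (l * i.val)) * ζ ^ (l * d) =
        ε * ξ ^ j * gs p w ^ 3 * ζ ^ (l * (j + d)) := by
      intro l _
      rw [h1, mul_assoc, ← pow_add, ← mul_add]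
    rw [sum_congr rfl h5, ← mul_sum, h2, if_pos]
    · ring
    · push_cast
      rw [hd, hc]
      ring
  rw [h3] at h4
  have hpc := p_ne_zero (p := p)
  have h5 := mul_left_cancel₀ (pow_ne_zero 2 hpc) h4
  have hξn : ‖ξ‖ = 1 := Complex.norm_eq_one_of_pow_eq_one hξ.pow_eq_one (pow_pos hpp.pos 3).ne'
  have h6 : ‖V c‖ ^ 2 = (p : ℝ) ^ 3 := by
    have h7 := congrArg (fun z => ‖z‖ ^ 2) h5
    simp only [norm_mul, norm_pow, hξn, one_pow, one_mul, mul_one] at h7
    rw [h7, mul_pow, ← pow_mul, mul_comm 3 2, pow_mul, norm_gs hp hw]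
    rcases hε with h8 | h8 <;> simp [h8]
  have h7 : ‖V c‖ ^ 2 ≤ (p : ℝ) ^ 2 := by
    have := hVle c
    gcongr
  rw [h6] at h7
  have h8 : (1 : ℝ) < p := by exact_mod_cast hpp.one_lt
  nlinarith [pow_pos hp0 2]

end Pool.Agent.H88.Pl
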