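import Pool.Agent.H88.Pl.Defs

/-!
# Basic facts on the characters `ew`
-/

set_option autoImplicit false

namespace Pool.Agent.H88.Pl

open Finset

variable {p : ℕ} [Fact p.Prime] {w : ℂ}

lemma ew_natCast (hw : w ^ p = 1) (n : ℕ) : ew w (n : ZMod p) = w ^ n := by
  rw [ew, ZMod.val_natCast]
  conv_rhs => rw [← Nat.mod_add_div n p, pow_add, pow_mul, hw, one_pow, mul_one]

lemma ew_add (hw : w ^ p = 1) (x y : ZMod p) : ew w (x + y) = ew w x * ew w y := by
  have h : x + y = ((x.val + y.val : ℕ) : ZMod p) := by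
    push_cast
    rw [ZMod.natCast_zmod_val, ZMod.natCast_zmod_val]
  rw [h, ew_natCast hw, pow_add]
  rfl

lemma ew_zero : ew w (0 : ZMod p) = 1 := by simp [ew]

lemma ew_neg (hw : w ^ p = 1) (x : ZMod p) : ew w (-x) = (ew w x)⁻¹ := by
  apply eq_inv_of_mul_eq_one_left
  rw [← ew_add hw, neg_add_cancel, ew_zero]

lemma ew_sub (hw : w ^ p = 1) (x y : ZMod p) : ew w (x - y) = ew w x * (ew w y)⁻¹ := by
  rw [sub_eq_add_neg, ew_add hw, ew_neg hw]

lemma norm_w (hw : w ^ p = 1) : ‖w‖ = 1 :=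
  Complex.norm_eq_one_of_pow_eq_one hw (Fact.out : p.Prime).ne_zero

lemma norm_ew (hw : w ^ p = 1) (x : ZMod p) : ‖ew w x‖ = 1 := by
  rw [ew, norm_pow, norm_w hw, one_pow]

lemma ew_ne_zero (hw : w ^ p = 1) (x : ZMod p) : ew w x ≠ 0 := by
  rw [← norm_ne_zero_iff, norm_ew hw]; exact one_ne_zero

lemma conj_ew (hw : w ^ p = 1) (x : ZMod p) : (starRingEnd ℂ) (ew w x) = ew w (-x) := by
  rw [ew_neg hw]
  exact (Complex.inv_eq_conj (norm_ew hw x)).symm

lemma ew_pow (hw : w ^ p = 1) (x : ZMod p) (n : ℕ) : ew w x ^ n = ew w ((n : ZMod p) * x) := by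
  have : (n : ZMod p) * x = ((x.val * n : ℕ) : ZMod p) := by
    push_cast
    rw [ZMod.natCast_zmod_val, mul_comm]
  rw [this, ew_natCast hw, pow_mul]
  rfl

omit [Fact p.Prime] in
lemma ew_pow_p (hw : w ^ p = 1) (x : ZMod p) : ew w x ^ p = 1 := by
  rw [ew, ← pow_mul, mul_comm, pow_mul, hw, one_pow]

lemma ew_eq_one_iff (hw : IsPrimitiveRoot w p) (x : ZMod p) : ew w x = 1 ↔ x = 0 := by
  rw [ew, hw.pow_eq_one_iff_dvd]
  constructor
  · intro h
    rw [← ZMod.natCast_eq_zero_iff] at h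
    rwa [ZMod.natCast_zmod_val] at h
  · rintro rfl
    simp

lemma ew_injective (hw : IsPrimitiveRoot w p) {x y : ZMod p} (h : ew w x = ew w y) : x = y := by
  have h1 : ew w (x - y) = 1 := by
    rw [ew_sub hw.pow_eq_one, h, mul_inv_cancel₀ (ew_ne_zero hw.pow_eq_one _)]
  exact sub_eq_zero.1 ((ew_eq_one_iff hw _).1 h1)

lemma ew_ne_neg (hp : p ≠ 2) (hw : w ^ p = 1) (x y : ZMod p) : ew w x ≠ - ew w y := by
  intro h
  have h1 : ew w x ^ p = (- ew w y) ^ p := by rw [h]
  rw [ew_pow_p hw, neg_pow, ew_pow_p hw, Odd.neg_one_pow ((Fact.out : p.Prime).odd_of_ne_two hp)] at h1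
  norm_num at h1

/-- orthogonality -/
lemma sum_ew_mul (hw : IsPrimitiveRoot w p) (c : ZMod p) :
    ∑ t : ZMod p, ew w (t * c) = if c = 0 then (p : ℂ) else 0 := by
  split_ifs with h
  · rw [h]
    simp only [mul_zero, ew_zero, sum_const, card_univ, ZMod.card, nsmul_eq_mul, mul_one]
  · have h1 : ew w c ≠ 1 := fun h' => h ((ew_eq_one_iff hw c).1 h')
    have h2 : ew w c * ∑ t : ZMod p, ew w (t * c) = ∑ t : ZMod p, ew w (t * c) := by
      rw [mul_sum]
      rw [← Equiv.sum_comp (Equiv.addLeft (1 : ZMod p)) (fun t => ew w (t * c))]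
      apply sum_congr rfl
      intro t _
      rw [← ew_add hw.pow_eq_one]
      congr 1
      simp only [Equiv.coe_addLeft]
      ring
    have h3 : (ew w c - 1) * ∑ t : ZMod p, ew w (t * c) = 0 := by
      rw [sub_mul, h2, one_mul, sub_self]
    exact (mul_eq_zero.1 h3).resolve_left (sub_ne_zero.2 h1)

/-- powers of a primitive root -/
lemma primitive_pow (hw : IsPrimitiveRoot w p) {u : ZMod p} (hu : u ≠ 0) :
    IsPrimitiveRoot (ew w u) p := by
  rw [ew]
  apply hw.pow_of_coprime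
  rw [Nat.coprime_comm, Nat.Prime.coprime_iff_not_dvd (Fact.out : p.Prime)]
  intro h
  apply hu
  have := (ZMod.natCast_eq_zero_iff _ _).2 h
  rwa [ZMod.natCast_zmod_val] at this

lemma ew_ew (hw : w ^ p = 1) (u z : ZMod p) : ew (ew w u) z = ew w (u * z) := by
  conv_lhs => rw [ew]
  rw [ew_pow hw, ZMod.natCast_zmod_val, mul_comm]

lemma norm_sq_sum {X : Type*} [Fintype X] (hw : w ^ p = 1) (a : X → ZMod p) :
    ((‖∑ x, ew w (a x)‖ ^ 2 : ℝ) : ℂ) = ∑ x, ∑ y, ew w (a x - a y) := by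
  rw [Complex.ofReal_pow, ← Complex.mul_conj', map_sum, sum_mul_sum]
  apply sum_congr rfl
  intro x _
  apply sum_congr rfl
  intro y _
  rw [conj_ew hw, ← ew_add hw, sub_eq_add_neg]

/-- sum of the squared norms over all powers of the primitive root -/
lemma sum_norm_sq {X : Type*} [Fintype X] (hw : IsPrimitiveRoot w p) (a : X → ZMod p) :
    ∑ u : ZMod p, ‖∑ x, ew w (u * a x)‖ ^ 2 =
      (p : ℝ) * ∑ c : ZMod p, ((univ.filter (fun x => a x = c)).card : ℝ) ^ 2 := by
  classical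
  have h1 : ((∑ u : ZMod p, ‖∑ x, ew w (u * a x)‖ ^ 2 : ℝ) : ℂ) =
      ((p : ℝ) * ∑ c : ZMod p, ((univ.filter (fun x => a x = c)).card : ℝ) ^ 2 : ℝ) := by
    rw [Complex.ofReal_sum]
    simp_rw [norm_sq_sum hw.pow_eq_one]
    rw [sum_comm]
    have h2 : ∀ x y : X, ∑ u : ZMod p, ew w (u * a x - u * a y) =
        if a x = a y then (p : ℂ) else 0 := by
      intro x y
      simp_rw [← mul_sub]
      rw [sum_ew_mul hw]
      simp only [sub_eq_zero]
    have h3 : ∀ x : X, ∑ u : ZMod p, ∑ y, ew w (u * a x - u * a y) =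
        ∑ y, if a x = a y then (p : ℂ) else 0 := by
      intro x
      rw [sum_comm]
      exact sum_congr rfl fun y _ => h2 x y
    simp_rw [h3]
    push_cast
    rw [mul_sum]
    have h4 : ∀ c : ZMod p, (p : ℂ) * ((univ.filter (fun x => a x = c)).card : ℂ) ^ 2 =
        ∑ x, ∑ y, if a x = c ∧ a y = c then (p : ℂ) else 0 := by
      intro c
      have e1 : ((univ.filter (fun x => a x = c)).card : ℂ) = ∑ x, if a x = c then (1:ℂ) else 0 := by
        rw [card_filter]; push_cast; rfl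
      rw [e1, sq, sum_mul_sum, mul_sum]
      apply sum_congr rfl
      intro x _
      rw [mul_sum]
      apply sum_congr rfl
      intro y _
      by_cases hx : a x = c <;> by_cases hy : a y = c <;> simp [hx, hy]
    simp_rw [h4]
    rw [sum_comm (s := (univ : Finset (ZMod p)))]
    apply sum_congr rfl
    intro x _
    rw [sum_comm (s := (univ : Finset (ZMod p)))]
    apply sum_congr rfl
    intro y _
    rw [sum_eq_single (a x)]
    · by_cases h : a x = a y
      · rw [if_pos h, if_pos ⟨rfl, h.symm⟩]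
      · rw [if_neg h, if_neg (fun h' => h h'.2.symm)]
    · intro c _ hc
      rw [if_neg]
      rintro ⟨h, -⟩
      exact hc h.symm
    · intro h
      exact absurd (mem_univ _) h
  exact_mod_cast h1

end Pool.Agent.H88.Pl
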