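import Mathlib

/-!
# Planar functions between abelian groups of order `p ^ 3`: definitions
-/

set_option autoImplicit false

namespace Pool.Agent.H88.Pl

/-- The quadratic Gauss sum attached to `w` (used for primitive `p`-th roots of unity `w`). -/
noncomputable def gs (p : ℕ) (w : ℂ) : ℂ := ∑ k ∈ Finset.range p, w ^ (k ^ 2)

/-- The additive character of `ZMod p` attached to `w` (used for `p`-th roots of unity `w`). -/
noncomputable def ew {p : ℕ} (w : ℂ) (z : ZMod p) : ℂ := w ^ z.val

/-- `f` is a planar function: all its derivatives in nonzero directions are bijective. -/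
def IsPlanar {H K : Type*} [AddCommGroup H] [AddCommGroup K] (f : H → K) : Prop :=
  ∀ h : H, h ≠ 0 → Function.Bijective (fun x => f (h + x) - f x)

end Pool.Agent.H88.Pl
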