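import Pool.Agent.H88.Pl.Defs

set_option autoImplicit false

namespace Pool.Agent.H88.Pl

open Finset Polynomial

/-- the additive functional `X ^ n ↦ n ^ j` on integer polynomials, with values in `ZMod p` -/
noncomputable def mpL (p j : ℕ) : ℤ[X] →ₗ[ℤ] ZMod p :=
  Polynomial.lsum (fun n => LinearMap.toSpanSingleton ℤ (ZMod p) ((n : ZMod p) ^ j))

theorem mpL_monomial (p j n : ℕ) (c : ℤ) :
    mpL p j (monomial n c) = (c : ZMod p) * (n : ZMod p) ^ j := by
  rw [mpL, lsum_apply, sum_monomial_index]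
  · simp
  · simp

theorem mpL_X_pow (p j n : ℕ) : mpL p j (X ^ n) = (n : ZMod p) ^ j := by
  rw [← monomial_one_right_eq_X_pow, mpL_monomial]
  simp

theorem mp_sum_range {p : ℕ} [Fact p.Prime] {β : Type*} [AddCommMonoid β] (f : ZMod p → β) :
    ∑ i ∈ range p, f (i : ZMod p) = ∑ z : ZMod p, f z := by
  classical
  apply Finset.sum_bij' (fun (i : ℕ) (_ : i ∈ range p) => (i : ZMod p))
    (fun (z : ZMod p) (_ : z ∈ (univ : Finset (ZMod p))) => (z.val : ℕ))
  · intro i _
    exact Finset.mem_univ _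
  · intro z _
    exact Finset.mem_range.2 z.val_lt
  · intro i hi
    exact ZMod.val_natCast_of_lt (Finset.mem_range.1 hi)
  · intro z _
    exact ZMod.natCast_zmod_val z
  · intro i _
    rfl

theorem mp_sum_pow {p : ℕ} [Fact p.Prime] {j : ℕ} (hj : j < p - 1) :
    ∑ z : ZMod p, z ^ j = 0 := by
  have h := FiniteField.sum_pow_lt_card_sub_one (ZMod p) j (by rwa [ZMod.card])
  exact h

theorem mp_sum_pow_top {p : ℕ} [Fact p.Prime] : ∑ z : ZMod p, z ^ (p - 1) = -1 := by
  classical
  have hpp : p.Prime := Fact.out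
  have h1 : ∀ z : ZMod p, z ^ (p - 1) = if z = 0 then 0 else 1 := by
    intro z
    split_ifs with h
    · rw [h, zero_pow]
      have := hpp.two_le
      omega
    · exact ZMod.pow_card_sub_one_eq_one h
  have h2 : ∀ z : ZMod p, (if z = 0 then (0 : ZMod p) else 1) = 1 - if z = 0 then 1 else 0 := by
    intro z
    split_ifs <;> simp
  simp_rw [h1, h2]
  rw [Finset.sum_sub_distrib, Finset.sum_ite_eq' univ (0 : ZMod p) (fun _ => (1 : ZMod p))]
  simp

theorem mpL_cyclotomic {p : ℕ} [Fact p.Prime] {j : ℕ} (hj : j < p - 1) (Q : ℤ[X]) :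
    mpL p j (cyclotomic p ℤ * Q) = 0 := by
  induction Q using Polynomial.induction_on' with
  | add P Q hP hQ => rw [mul_add, map_add, hP, hQ, add_zero]
  | monomial m c =>
    rw [cyclotomic_prime, Finset.sum_mul, map_sum]
    have h1 : ∀ i ∈ range p, mpL p j (X ^ i * monomial m c) =
        (c : ZMod p) * ((i : ZMod p) + (m : ZMod p)) ^ j := by
      intro i _
      rw [← monomial_one_right_eq_X_pow, monomial_mul_monomial, mpL_monomial, one_mul]
      push_cast
      rfl
    rw [Finset.sum_congr rfl h1,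
      mp_sum_range (fun z : ZMod p => (c : ZMod p) * (z + (m : ZMod p)) ^ j), ← Finset.mul_sum]
    have h2 : ∑ z : ZMod p, (z + (m : ZMod p)) ^ j = ∑ z : ZMod p, z ^ j :=
      Fintype.sum_equiv (Equiv.addRight (m : ZMod p)) _ _ (fun z => rfl)
    rw [h2, mp_sum_pow hj, mul_zero]

theorem mpL_eq {p : ℕ} [Fact p.Prime] {w : ℂ} (hw : IsPrimitiveRoot w p) {j : ℕ}
    (hj : j < p - 1) (A B : ℤ[X]) (h : aeval w A = aeval w B) : mpL p j A = mpL p j B := by
  have hpp : p.Prime := Fact.out
  have hint : IsIntegral ℤ w := hw.isIntegral hpp.pos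
  have h1 : minpoly ℤ w ∣ A - B := by
    apply minpoly.isIntegrallyClosed_dvd hint
    rw [map_sub, h, sub_self]
  rw [← cyclotomic_eq_minpoly hw hpp.pos] at h1
  obtain ⟨Q, hQ⟩ := h1
  have h2 := mpL_cyclotomic (p := p) hj Q
  rw [← hQ, map_sub, sub_eq_zero] at h2
  exact h2

theorem mp_inner {p : ℕ} [Fact p.Prime] (hp : p ≠ 2) (m : ZMod p) :
    (∀ j < (p - 1) / 2, ∑ z : ZMod p, (z ^ 2 + m) ^ j = 0) ∧
      ∑ z : ZMod p, (z ^ 2 + m) ^ ((p - 1) / 2) = -1 := by
  have hpp : p.Prime := Fact.out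
  have hodd : p % 2 = 1 := (hpp.eq_two_or_odd).resolve_left hp
  have hp3 : 3 ≤ p := by
    have := hpp.two_le
    omega
  have key : ∀ j : ℕ, ∑ z : ZMod p, (z ^ 2 + m) ^ j =
      ∑ i ∈ range (j + 1), (∑ z : ZMod p, z ^ (2 * i)) * (m ^ (j - i) * (j.choose i : ZMod p)) := by
    intro j
    simp_rw [add_pow]
    rw [Finset.sum_comm]
    apply Finset.sum_congr rfl
    intro i _
    rw [Finset.sum_mul]
    apply Finset.sum_congr rfl
    intro z _
    rw [← pow_mul, mul_assoc]
  constructor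
  · intro j hj
    rw [key]
    apply Finset.sum_eq_zero
    intro i hi
    have hi' := Finset.mem_range.1 hi
    rw [mp_sum_pow (by omega), zero_mul]
  · rw [key, Finset.sum_range_succ, Finset.sum_eq_zero, zero_add]
    · have h1 : 2 * ((p - 1) / 2) = p - 1 := by omega
      rw [h1, mp_sum_pow_top]
      simp
    · intro i hi
      have hi' := Finset.mem_range.1 hi
      rw [mp_sum_pow (by omega), zero_mul]

/-- Module MP, part 1 -/
theorem modp {p : ℕ} [Fact p.Prime] (hp : p ≠ 2) {w : ℂ} (hw : IsPrimitiveRoot w p)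
    {X T : Type*} [Fintype X] [Fintype T] (a : X → ZMod p) (ε : T → ℤ) (m : T → ZMod p)
    (h : ∑ x, ew w (a x) = gs p w * ∑ t, (ε t : ℂ) * ew w (m t)) :
    (∀ j < (p - 1) / 2, ∑ x, a x ^ j = 0) ∧
      ∑ x, a x ^ ((p - 1) / 2) = - ∑ t, (ε t : ZMod p) := by
  have hpp : p.Prime := Fact.out
  have hodd : p % 2 = 1 := (hpp.eq_two_or_odd).resolve_left hp
  have hp3 : 3 ≤ p := by
    have := hpp.two_le
    omega
  have main : ∀ j < p - 1, ∑ x, a x ^ j =
      ∑ t, (ε t : ZMod p) * ∑ z : ZMod p, (z ^ 2 + m t) ^ j := by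
    intro j hj
    set A : ℤ[X] := ∑ x, Polynomial.X ^ (a x).val with hA
    set B : ℤ[X] := ∑ t, ∑ k ∈ range p, monomial (k ^ 2 + (m t).val) (ε t) with hB
    have h1 : aeval w A = ∑ x, ew w (a x) := by
      rw [hA, map_sum]
      apply Finset.sum_congr rfl
      intro x _
      rw [map_pow, aeval_X]
      rfl
    have h2 : aeval w B = gs p w * ∑ t, (ε t : ℂ) * ew w (m t) := by
      rw [hB, map_sum, gs, Finset.mul_sum]
      apply Finset.sum_congr rfl
      intro t _
      rw [map_sum, Finset.sum_mul]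
      apply Finset.sum_congr rfl
      intro k _
      rw [aeval_monomial, ew, pow_add]
      simp only [algebraMap_int_eq, eq_intCast]
      ring
    have h3 := mpL_eq hw hj A B (by rw [h1, h2, h])
    have h4 : mpL p j A = ∑ x, a x ^ j := by
      rw [hA, map_sum]
      apply Finset.sum_congr rfl
      intro x _
      rw [mpL_X_pow, ZMod.natCast_zmod_val]
    have h5 : mpL p j B = ∑ t, (ε t : ZMod p) * ∑ z : ZMod p, (z ^ 2 + m t) ^ j := by
      rw [hB, map_sum]
      apply Finset.sum_congr rfl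
      intro t _
      rw [map_sum, Finset.mul_sum,
        ← mp_sum_range (fun z : ZMod p => (ε t : ZMod p) * (z ^ 2 + m t) ^ j)]
      apply Finset.sum_congr rfl
      intro k _
      rw [mpL_monomial]
      push_cast
      rw [ZMod.natCast_zmod_val]
    rw [← h4, h3, h5]
  constructor
  · intro j hj
    rw [main j (by omega)]
    apply Finset.sum_eq_zero
    intro t _
    rw [(mp_inner hp (m t)).1 j hj, mul_zero]
  · rw [main _ (by omega), ← Finset.sum_neg_distrib]
    apply Finset.sum_congr rfl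
    intro t _
    rw [(mp_inner hp (m t)).2]
    ring

/-- Module MP, part 2 -/
theorem count_congr {p : ℕ} [Fact p.Prime] {w : ℂ} (hw : IsPrimitiveRoot w p)
    {X T : Type*} [Fintype X] [Fintype T] (a : X → ZMod p) (b : T → ZMod p)
    (h : ∑ x, ew w (a x) = ∑ t, ew w (b t)) :
    (Fintype.card X : ZMod p) = (Fintype.card T : ZMod p) := by
  have hpp : p.Prime := Fact.out
  have key : ∀ {Y : Type _} [Fintype Y] (c : Y → ZMod p),
      aeval w (∑ x, (Polynomial.X : ℤ[X]) ^ (c x).val) = ∑ x, ew w (c x) := by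
    intro Y _ c
    rw [map_sum]
    apply Finset.sum_congr rfl
    intro x _
    rw [map_pow, aeval_X]
    rfl
  have keyT : aeval w (∑ x, (Polynomial.X : ℤ[X]) ^ (b x).val) = ∑ x, ew w (b x) := by
    rw [map_sum]
    apply Finset.sum_congr rfl
    intro x _
    rw [map_pow, aeval_X]
    rfl
  have h3 := mpL_eq hw (j := 0) (by have := hpp.two_le; omega)
    (∑ x, (Polynomial.X : ℤ[X]) ^ (a x).val) (∑ x, (Polynomial.X : ℤ[X]) ^ (b x).val)
    (by rw [key, keyT, h])
  rw [map_sum, map_sum] at h3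
  simp only [mpL_X_pow, pow_zero, Finset.sum_const, Finset.card_univ, nsmul_eq_mul, mul_one] at h3
  exact h3

end Pool.Agent.H88.Pl
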