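import Pool.Agent.H88.Pl.Main

/-!
# The largest cyclic factor occurs at least twice
-/

set_option autoImplicit false

namespace Pool.Agent.H88.Pl

open Finset

variable {p : ℕ} [Fact p.Prime]

/-- If a planar function `H → K` exists, with `|H| = p ^ r` and `exp (H × K) = p ^ e`, `e ≥ 2`, then
`p ^ (e - 1) (H × K)` has at least `p ^ 2` elements. -/
theorem main_A {r e : ℕ} (he : 2 ≤ e) {H K : Type*} [AddCommGroup H] [AddCommGroup K]
    (hH : Nat.card H = p ^ r) (hK : Nat.card K = p ^ r) (f : H → K) (hf : IsPlanar f)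
    (hexp : AddMonoid.exponent (H × K) = p ^ e) :
    p ^ 2 ≤ Nat.card (Set.range fun g : H × K => p ^ (e - 1) • g) := by
  have hpp := (Fact.out : p.Prime)
  have : Finite H := Nat.finite_of_card_ne_zero (by rw [hH]; exact (pow_pos hpp.pos r).ne')
  have : Finite K := Nat.finite_of_card_ne_zero (by rw [hK]; exact (pow_pos hpp.pos r).ne')
  have hpe : p ^ e = p * p ^ (e - 1) := by
    rw [← pow_succ']; congr 1; omega
  have hr : r ≠ 0 := by
    rintro rfl
    have h1 : Subsingleton H := (Nat.card_eq_one_iff_unique.1 (by simpa using hH)).1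
    have h2 : Subsingleton K := (Nat.card_eq_one_iff_unique.1 (by simpa using hK)).1
    have h3 : AddMonoid.exponent (H × K) = 1 := by
      rw [AddMonoid.exp_eq_one_iff]
      infer_instance
    rw [h3] at hexp
    have := Nat.one_lt_pow (n := e) (by omega) hpp.one_lt
    omega
  have hp : p ≠ 2 := by
    rintro rfl
    obtain ⟨h, hh⟩ := exists_prime_addOrderOf_dvd_card' (G := H) 2 (by
      rw [hH]; exact dvd_pow_self 2 hr)
    exact no_planar_even f hf h (by
      intro h0
      rw [h0, addOrderOf_zero] at hh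
      norm_num at hh) (by rw [← hh]; exact addOrderOf_nsmul_eq_zero h)
  -- the subgroup
  set φ : H × K →+ H × K := nsmulAddMonoidHom (p ^ (e - 1)) with hφ
  have hrange : (Set.range fun g : H × K => p ^ (e - 1) • g) = (φ.range : Set (H × K)) := by
    rw [AddMonoidHom.coe_range]
    rfl
  rw [hrange]
  have hkill : ∀ g : H × K, p ^ e • g = 0 := by
    intro g
    rw [← hexp]
    exact AddMonoid.exponent_nsmul_eq_zero g
  have hkill' : ∀ x : φ.range, p • x = 0 := by
    rintro ⟨x, g, rfl⟩
    apply Subtype.ext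
    rw [AddSubgroup.coe_nsmul, hφ]
    simp only [nsmulAddMonoidHom_apply, ZeroMemClass.coe_zero]
    rw [← mul_smul, ← hpe]
    exact hkill g
  by_contra hcon
  push Not at hcon
  -- nontrivial
  have hnt : ∃ g : H × K, p ^ (e - 1) • g ≠ 0 := by
    by_contra hall
    push Not at hall
    have h1 := AddMonoid.exponent_dvd_of_forall_nsmul_eq_zero hall
    rw [hexp, Nat.pow_dvd_pow_iff_le_right hpp.one_lt] at h1
    omega
  obtain ⟨g1, hg1⟩ := hnt
  have hcard : Nat.card φ.range = p := by
    have h1 : IsPGroup p (Multiplicative φ.range) := by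
      intro x
      refine ⟨1, ?_⟩
      rw [pow_one]
      exact hkill' x
    obtain ⟨n, hn⟩ := (IsPGroup.iff_card (p := p)).1 h1
    have hn' : Nat.card φ.range = p ^ n := hn
    have h2 : (φ.range : Set (H × K)).ncard = Nat.card φ.range := rfl
    have h3 : Nat.card φ.range < p ^ 2 := hcon
    rw [hn', Nat.pow_lt_pow_iff_right hpp.one_lt] at h3
    have h4 : n ≠ 0 := by
      rintro rfl
      rw [pow_zero, Nat.card_eq_one_iff_unique] at hn'
      have h5 := hn'.1
      have h6 : (⟨φ g1, g1, rfl⟩ : φ.range) = 0 := Subsingleton.elim _ _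
      exact hg1 (congrArg Subtype.val h6)
    have h5 : n = 1 := by omega
    rw [hn', h5, pow_one]
  set x1 : φ.range := ⟨φ g1, g1, rfl⟩ with hx1
  have hx1ne : x1 ≠ 0 := fun h => hg1 (congrArg Subtype.val h)
  refine theoremA hp he hH hK f hf hkill (p ^ (e - 1) • g1) hg1 ?_ ⟨g1, rfl⟩
  intro g
  have h1 : (⟨φ g, g, rfl⟩ : φ.range) ∈ AddSubgroup.zmultiples x1 := by
    have h2 : AddSubgroup.zmultiples x1 = ⊤ := by
      apply AddSubgroup.eq_top_of_card_eq
      rw [Nat.card_zmultiples, hcard]
      exact addOrderOf_eq_prime (hkill' x1) hx1ne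
    rw [h2]
    exact AddSubgroup.mem_top _
  rw [← mem_multiples_iff_mem_zmultiples, AddSubmonoid.mem_multiples_iff] at h1
  obtain ⟨n, hn⟩ := h1
  refine ⟨n, ?_⟩
  have h3 := congrArg Subtype.val hn
  exact h3.symm

end Pool.Agent.H88.Pl
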