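import Pool.Agent.H88.Pl.Defs

set_option autoImplicit false

namespace Pool.Agent.H88.Pl

open Finset Polynomial

theorem pq1_eq_zero {p : ℕ} [Fact p.Prime] (R : (ZMod p)[X])
    (hR : R.natDegree < p - 1) (h : ∀ s : ZMod p, s ≠ 0 → R.eval s = 0) : R = 0 := by
  classical
  apply Polynomial.eq_zero_of_natDegree_lt_card_of_eval_eq_zero' R (univ.erase (0 : ZMod p))
  · intro s hs
    exact h s (Finset.ne_of_mem_erase hs)
  · rw [Finset.card_erase_of_mem (Finset.mem_univ _), Finset.card_univ, ZMod.card]
    exact hR

/-- Module PQ, part 1 -/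
theorem poly_values {p : ℕ} [Fact p.Prime] (hp : p ≠ 2) (P : (ZMod p)[X])
    (hdeg : P.natDegree ≤ (p - 3) / 2)
    (h : ∀ s : ZMod p, s ≠ 0 → P.eval s = 0 ∨ P.eval s = 1 ∨ P.eval s = -1) :
    P.natDegree = 0 := by
  have hpp : p.Prime := Fact.out
  have hodd : p % 2 = 1 := (hpp.eq_two_or_odd).resolve_left hp
  by_contra hD
  set D := P.natDegree with hDdef
  have hD1 : 1 ≤ D := Nat.one_le_iff_ne_zero.2 hD
  have h2D : 2 * D + 3 ≤ p := by omega
  have hp5 : 5 ≤ p := by omega
  set Q : (ZMod p)[X] := P ^ 3 - P with hQ
  set W : (ZMod p)[X] := X ^ (p - 1) - C 1 with hW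
  have hWm : W.Monic := monic_X_pow_sub_C _ (by omega)
  have hWdeg : W.natDegree = p - 1 := natDegree_X_pow_sub_C
  have hQdeg : Q.natDegree = 3 * D := by
    have h3 : (P ^ 3).natDegree = 3 * D := by rw [natDegree_pow]
    rw [hQ, natDegree_sub_eq_left_of_natDegree_lt, h3]
    rw [h3]
    omega
  have hQ0 : ∀ s : ZMod p, s ≠ 0 → Q.eval s = 0 := by
    intro s hs
    simp only [hQ, eval_sub, eval_pow]
    rcases h s hs with h1 | h1 | h1 <;> rw [h1] <;> norm_num
  have hpow : ∀ s : ZMod p, s ≠ 0 → s ^ (p - 1) = 1 := fun s hs => ZMod.pow_card_sub_one_eq_one hs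
  have hW0 : ∀ s : ZMod p, s ≠ 0 → W.eval s = 0 := by
    intro s hs
    simp only [hW, eval_sub, eval_pow, eval_X, eval_C, hpow s hs, sub_self]
  set M := Q /ₘ W with hM
  have hdiv : Q = W * M := by
    have h1 := modByMonic_add_div Q W
    have h2 : Q %ₘ W = 0 := by
      apply pq1_eq_zero
      · rw [← hWdeg]
        apply natDegree_modByMonic_lt Q hWm
        intro hW1
        rw [hW1] at hWdeg
        simp at hWdeg
        omega
      · intro s hs
        have h3 := congrArg (eval s) h1
        rw [eval_add, eval_mul, hW0 s hs, zero_mul, add_zero, hQ0 s hs] at h3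
        exact h3
    rw [h2, zero_add] at h1
    exact h1.symm
  have hQne : Q ≠ 0 := by
    intro h0
    rw [h0] at hQdeg
    simp at hQdeg
    omega
  have hMne : M ≠ 0 := by
    intro h0
    rw [h0, mul_zero] at hdiv
    exact hQne hdiv
  have hMdeg : (p - 1) + M.natDegree = 3 * D := by
    rw [← hQdeg, hdiv, hWm.natDegree_mul' hMne, hWdeg]
  -- derivative
  have hder : ∀ s : ZMod p, s ≠ 0 → s * ((3 * (P.eval s) ^ 2 - 1) * P.derivative.eval s) =
      - M.eval s := by
    intro s hs
    have h1 : Q.derivative.eval s = (3 * (P.eval s) ^ 2 - 1) * P.derivative.eval s := by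
      simp only [hQ, derivative_sub, derivative_pow, eval_sub, eval_mul, eval_pow]
      simp only [Nat.cast_ofNat, eval_C, Nat.add_one_sub_one]
      ring
    have h2 : Q.derivative.eval s = ((p - 1 : ℕ) : ZMod p) * s ^ (p - 2) * M.eval s := by
      rw [hdiv, derivative_mul, eval_add, eval_mul, eval_mul, hW0 s hs, zero_mul, add_zero]
      simp only [hW, derivative_sub, derivative_X_pow, derivative_C, sub_zero, eval_mul, eval_pow,
        eval_X, eval_C]
      have : p - 1 - 1 = p - 2 := by omega
      rw [this]
    have h3 : ((p - 1 : ℕ) : ZMod p) = -1 := by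
      rw [Nat.cast_sub (by omega)]
      simp
    rw [← h1, h2, h3]
    have h4 : s * s ^ (p - 2) = 1 := by
      rw [← pow_succ', show p - 2 + 1 = p - 1 by omega, hpow s hs]
    calc s * (-1 * s ^ (p - 2) * eval s M) = -(s * s ^ (p - 2)) * eval s M := by ring
      _ = - eval s M := by rw [h4]; ring
  set A : (ZMod p)[X] := X * P.derivative with hA
  have hDp : D < p := by omega
  have hAdeg : A.natDegree = D := by
    have hlc : P.leadingCoeff ≠ 0 := by
      rw [Ne, leadingCoeff_eq_zero]
      intro h0
      rw [h0] at hDdef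
      simp at hDdef
      omega
    have h1 : A.coeff D ≠ 0 := by
      rw [hA]
      obtain ⟨d, hd⟩ : ∃ d, D = d + 1 := ⟨D - 1, by omega⟩
      rw [hd, coeff_X_mul, coeff_derivative, ← hd]
      apply mul_ne_zero
      · rw [hDdef] at hd ⊢
        exact hlc
      · have : ((d : ZMod p) + 1) = ((D : ℕ) : ZMod p) := by rw [hd]; push_cast; ring
        rw [this, Ne, ZMod.natCast_eq_zero_iff]
        intro hdvd
        have := Nat.le_of_dvd (by omega) hdvd
        omega
    have h2 : A.natDegree ≤ D := by
      rw [hA]
      refine natDegree_mul_le.trans ?_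
      rw [natDegree_X]
      have := natDegree_derivative_le P
      omega
    exact le_antisymm h2 (le_natDegree_of_ne_zero h1)
  have hMD : M.natDegree < D := by omega
  have hprod : (M - A) * (M + 2 * A) = 0 := by
    apply pq1_eq_zero
    · have h1 : (M - A).natDegree ≤ D := by
        refine (natDegree_sub_le _ _).trans ?_
        rw [hAdeg]
        exact max_le hMD.le le_rfl
      have h2 : (M + 2 * A).natDegree ≤ D := by
        refine (natDegree_add_le _ _).trans ?_
        apply max_le hMD.le
        refine natDegree_mul_le.trans ?_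
        rw [hAdeg]
        have : (2 : (ZMod p)[X]).natDegree = 0 := by
          exact natDegree_ofNat 2
        omega
      have h3 := natDegree_mul_le (p := M - A) (q := M + 2 * A)
      omega
    · intro s hs
      have h1 := hder s hs
      have h2 : A.eval s = s * P.derivative.eval s := by
        rw [hA, eval_mul, eval_X]
      have h3 : eval s (2 : (ZMod p)[X]) = 2 := by
        simp
      have h5 : eval s (2 * A) = 2 * (s * P.derivative.eval s) := by
        rw [eval_mul, h2, h3]
      rw [eval_mul, eval_sub, eval_add, h5, h2]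
      rcases h s hs with h4 | h4 | h4
      · rw [h4] at h1
        have : eval s M = s * P.derivative.eval s := by
          linear_combination h1
        rw [this]
        ring
      · rw [h4] at h1
        have : eval s M = - 2 * (s * P.derivative.eval s) := by
          linear_combination h1
        rw [this]
        ring
      · rw [h4] at h1
        have : eval s M = - 2 * (s * P.derivative.eval s) := by
          linear_combination h1
        rw [this]
        ring
  rcases mul_eq_zero.1 hprod with h1 | h1
  · have h2 : M = A := sub_eq_zero.1 h1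
    rw [h2, hAdeg] at hMD
    exact lt_irrefl _ hMD
  · have h2 : M = - (2 * A) := eq_neg_of_add_eq_zero_left h1
    have h3 : M.natDegree = D := by
      rw [h2, natDegree_neg]
      have : (2 : (ZMod p)[X]) * A = C 2 * A := by
        congr 1
      rw [this, natDegree_C_mul, hAdeg]
      intro h20
      have : ((2 : ℕ) : ZMod p) = 0 := by exact_mod_cast h20
      rw [ZMod.natCast_eq_zero_iff] at this
      have := Nat.le_of_dvd (by norm_num) this
      omega
    omega

end Pool.Agent.H88.Pl
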