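import Pool.Agent.H88.Pl.Defs

set_option autoImplicit false

namespace Pool.Agent.H88.Pl

open Finset Polynomial

private lemma pqq_sum {p : ℕ} [Fact p.Prime] (hp : 5 ≤ p) (Q : (ZMod p)[X])
    (hQ : Q.natDegree ≤ p - 1) : ∑ k : ZMod p, Q.eval k = - Q.coeff (p - 1) := by
  have h1 : ∀ k : ZMod p, Q.eval k = ∑ i ∈ range (p - 1 + 1), Q.coeff i * k ^ i := fun k =>
    Polynomial.eval_eq_sum_range' (Nat.lt_succ_of_le hQ) k
  simp only [h1]
  rw [Finset.sum_comm]
  simp only [← Finset.mul_sum]
  rw [Finset.sum_range_succ, Finset.sum_eq_zero, zero_add]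
  · have h2 : ∑ k : ZMod p, k ^ (p - 1) = -1 := by
      have h3 : ∀ k : ZMod p, k ^ (p - 1) = if k = 0 then 0 else 1 := by
        intro k
        split_ifs with hk
        · rw [hk, zero_pow (by omega)]
        · exact ZMod.pow_card_sub_one_eq_one hk
      simp only [h3]
      rw [Finset.sum_ite, Finset.sum_const_zero, zero_add, Finset.sum_const, nsmul_eq_mul, mul_one,
        Finset.filter_ne', Finset.card_erase_of_mem (Finset.mem_univ _), Finset.card_univ,
        ZMod.card, Nat.cast_sub (by omega)]
      simp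
    rw [h2]; ring
  · intro i hi
    rw [FiniteField.sum_pow_lt_card_sub_one _ i (by rw [ZMod.card]; exact Finset.mem_range.1 hi),
      mul_zero]

/-- Module PQ, part 2 -/
theorem quadratic_of_moments {p : ℕ} [Fact p.Prime] (hp : 5 ≤ p) (h : ZMod p → ZMod p)
    (hm : ∀ a c : ℕ, a + c ≤ (p - 3) / 2 → ∑ k, k ^ a * h k ^ c = 0)
    (h1 : ∑ k, k ^ ((p - 3) / 2) * h k = 0) :
    ∃ A B C : ZMod p, ∀ k, h k = A + B * k + C * k ^ 2 := by
  have hprime : p.Prime := Fact.out
  have hodd : p % 2 = 1 := by
    rcases hprime.eq_two_or_odd with h2 | h2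
    · omega
    · exact h2
  -- interpolation
  obtain ⟨P, hPd, hPe⟩ : ∃ P : (ZMod p)[X], P.natDegree ≤ p - 1 ∧ ∀ k, P.eval k = h k := by
    refine ⟨Lagrange.interpolate Finset.univ id h, ?_, ?_⟩
    · have h2 := Lagrange.degree_interpolate_lt (s := (Finset.univ : Finset (ZMod p)))
        (v := id) h (Function.injective_id.injOn)
      rw [Finset.card_univ, ZMod.card] at h2
      have h3 : (Lagrange.interpolate Finset.univ id h : (ZMod p)[X]).natDegree < p := by
        by_cases h0 : (Lagrange.interpolate Finset.univ id h : (ZMod p)[X]) = 0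
        · rw [h0]; simp; omega
        · rw [Polynomial.degree_eq_natDegree h0] at h2
          exact_mod_cast h2
      omega
    · intro k
      exact Lagrange.eval_interpolate_at_node (v := id) h (Function.injective_id.injOn)
        (Finset.mem_univ k)
  -- the key computation
  have key : ∀ a c : ℕ, a + c * P.natDegree = p - 1 → 1 ≤ P.natDegree →
      ∑ k, k ^ a * h k ^ c ≠ 0 := by
    intro a c hac hd hz
    have hP0 : P ≠ 0 := by
      rintro rfl
      simp at hd
    have h2 : (X ^ a * P ^ c : (ZMod p)[X]).natDegree = p - 1 := by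
      rw [natDegree_mul (pow_ne_zero _ X_ne_zero) (pow_ne_zero _ hP0), natDegree_X_pow,
        natDegree_pow, hac]
    have h3 := pqq_sum hp (X ^ a * P ^ c) h2.le
    have h4 : ∑ k : ZMod p, (X ^ a * P ^ c : (ZMod p)[X]).eval k = ∑ k, k ^ a * h k ^ c := by
      refine Finset.sum_congr rfl fun k _ => ?_
      simp [hPe]
    rw [h4, hz] at h3
    have h5 : (X ^ a * P ^ c : (ZMod p)[X]).coeff (p - 1) = P.leadingCoeff ^ c := by
      rw [← h2]
      show (X ^ a * P ^ c : (ZMod p)[X]).leadingCoeff = _
      rw [leadingCoeff_mul, leadingCoeff_pow, leadingCoeff_pow]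
      simp
    rw [h5] at h3
    have h6 : P.leadingCoeff ^ c = 0 := by
      rw [← neg_eq_zero]; exact h3.symm
    exact (pow_ne_zero c (leadingCoeff_ne_zero.2 hP0)) h6
  -- the degree is at most two
  have hd2 : P.natDegree ≤ 2 := by
    by_contra hcon
    push Not at hcon
    obtain ⟨d, hd⟩ : ∃ d, d = P.natDegree := ⟨_, rfl⟩
    rw [← hd] at hPd hcon key
    by_cases hbig : (p - 1) / 2 < d
    · -- `d > (p-1)/2`
      have h2 := key (p - 1 - d) 1 (by omega) (by omega)
      apply h2
      by_cases h3 : p - 1 - d + 1 ≤ (p - 3) / 2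
      · exact hm _ _ h3
      · have h4 : p - 1 - d = (p - 3) / 2 := by omega
        rw [h4]
        simpa using h1
    · push Not at hbig
      obtain ⟨c, hc⟩ : ∃ c, c = (p - 1) / d := ⟨_, rfl⟩
      obtain ⟨a, ha⟩ : ∃ a, a = (p - 1) % d := ⟨_, rfl⟩
      have hdiv : a + c * d = p - 1 := by
        rw [hc, ha, mul_comm]; exact Nat.mod_add_div _ _
      have hlt : a < d := ha ▸ Nat.mod_lt _ (by omega)
      have hc2 : 2 ≤ c := by
        by_contra h5
        have h6 : c * d ≤ 1 * d := Nat.mul_le_mul_right d (by omega)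
        omega
      refine key a c hdiv (by omega) (hm a c ?_)
      -- `a + 2 ≤ c (d - 2)`
      suffices hs : a + 2 ≤ c * (d - 2) by
        have h7 : c * (d - 2) + 2 * c = c * d := by
          have : d = (d - 2) + 2 := by omega
          conv_rhs => rw [this]
          ring
        omega
      rcases Nat.lt_or_ge d 5 with h5 | h5
      · have hd34 : d = 3 ∨ d = 4 := by omega
        rcases hd34 with h6 | h6
        · subst h6
          by_contra h7
          have h8 : c ≤ 3 := by omega
          have h9 : (c = 2 ∧ a = 1) ∨ (c = 2 ∧ a = 2) ∨ (c = 3 ∧ a = 2) := by omega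
          rcases h9 with ⟨h9, h10⟩ | ⟨h9, h10⟩ | ⟨h9, h10⟩
          · have : p = 8 := by omega
            omega
          · have h11 : p = 9 := by omega
            rw [h11] at hprime
            exact absurd hprime (by norm_num)
          · have h11 : p = 12 := by omega
            omega
        · subst h6
          by_contra h7
          have h8 : c = 2 ∧ a = 3 := by omega
          omega
      · have h6 : 2 * (d - 2) ≤ c * (d - 2) := Nat.mul_le_mul_right _ hc2
        omega
  refine ⟨P.coeff 0, P.coeff 1, P.coeff 2, fun k => ?_⟩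
  rw [← hPe k, Polynomial.eval_eq_sum_range' (n := 3) (by omega)]
  simp [Finset.sum_range_succ]

end Pool.Agent.H88.Pl
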