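import Pool.Agent.H88.Pl.Slice

/-!
# Slices are quadratic in the first variable
-/

set_option autoImplicit false

namespace Pool.Agent.H88.Pl

open Finset Polynomial

variable {p : ℕ} [Fact p.Prime]

/-- the polynomial whose values are the power sums along a pencil of functions -/
noncomputable def QQ (x y : ZMod p → ZMod p) (j : ℕ) : (ZMod p)[X] :=
  ∑ a ∈ range (j + 1), C ((j.choose a : ZMod p) * ∑ k, y k ^ a * x k ^ (j - a)) * X ^ a

lemma QQ_eval (x y : ZMod p → ZMod p) (j : ℕ) (s : ZMod p) :
    (QQ x y j).eval s = ∑ k, (x k + s * y k) ^ j := by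
  rw [QQ, eval_finsetSum]
  simp only [eval_mul, eval_C, eval_pow, eval_X]
  have h1 : ∀ k, (x k + s * y k) ^ j = ∑ a ∈ range (j + 1),
      (j.choose a : ZMod p) * (y k ^ a * x k ^ (j - a)) * s ^ a := by
    intro k
    rw [add_comm, add_pow]
    apply sum_congr rfl
    intro a _
    rw [mul_pow]
    ring
  simp_rw [h1]
  rw [sum_comm]
  apply sum_congr rfl
  intro a _
  rw [mul_sum, sum_mul]

lemma QQ_coeff (x y : ZMod p → ZMod p) (j a : ℕ) (ha : a ≤ j) :
    (QQ x y j).coeff a = (j.choose a : ZMod p) * ∑ k, y k ^ a * x k ^ (j - a) := by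
  rw [QQ, finsetSum_coeff]
  simp only [coeff_C_mul_X_pow]
  rw [sum_ite_eq (range (j + 1)) a, if_pos (mem_range.2 (by omega))]

lemma QQ_natDegree (x y : ZMod p → ZMod p) (j : ℕ) : (QQ x y j).natDegree ≤ j := by
  rw [QQ]
  apply natDegree_sum_le_of_forall_le
  intro a ha
  exact (natDegree_C_mul_X_pow_le _ _).trans (Nat.lt_succ_iff.1 (mem_range.1 ha))

lemma choose_ne_zero {j a : ℕ} (hj : j < p) (ha : a ≤ j) : (j.choose a : ZMod p) ≠ 0 := by
  intro h
  rw [ZMod.natCast_eq_zero_iff] at h
  have h1 : j.choose a ∣ j.factorial := by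
    rw [← Nat.choose_mul_factorial_mul_factorial ha, mul_assoc]
    exact Dvd.intro _ rfl
  have h2 := h.trans h1
  rw [(Fact.out : p.Prime).dvd_factorial] at h2
  omega

/-- a polynomial of degree less than `p - 1` vanishing at all nonzero points is zero -/
lemma eq_zero_of_vanish (P : (ZMod p)[X]) (hdeg : P.natDegree < p - 1)
    (h : ∀ s : ZMod p, s ≠ 0 → P.eval s = 0) : P = 0 := by
  by_contra hP
  have h1 : (univ.erase (0 : ZMod p)) ⊆ P.roots.toFinset := by
    intro s hs
    rw [Multiset.mem_toFinset, mem_roots hP]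
    exact h s (ne_of_mem_erase hs)
  have h2 := (card_le_card h1).trans (Multiset.toFinset_card_le _)
  rw [card_erase_of_mem (mem_univ _), card_univ, ZMod.card] at h2
  have h3 := P.card_roots'
  omega

lemma moments_of_lines (x y : ZMod p → ZMod p) {j : ℕ} (hj : j < p - 1)
    (h : ∀ s : ZMod p, s ≠ 0 → ∑ k, (x k + s * y k) ^ j = 0) {a : ℕ} (ha : a ≤ j) :
    ∑ k, y k ^ a * x k ^ (j - a) = 0 := by
  have h1 : QQ x y j = 0 := by
    apply eq_zero_of_vanish _ ((QQ_natDegree x y j).trans_lt hj)
    intro s hs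
    rw [QQ_eval, h s hs]
  have h2 := QQ_coeff x y j a ha
  rw [h1, coeff_zero] at h2
  exact (mul_eq_zero.1 h2.symm).resolve_left (choose_ne_zero (by omega) ha)

lemma sum_pow_lt {i : ℕ} (hi : i < p - 1) : ∑ k : ZMod p, k ^ i = 0 :=
  FiniteField.sum_pow_lt_card_sub_one _ _ (by rwa [ZMod.card])

lemma three_eq : ((3 : ℕ) : ZMod 3) = 0 := ZMod.natCast_self 3

lemma cases_three : ∀ k : ZMod 3, k = 0 ∨ k = 1 ∨ k = 2 := by decide

theorem Good.quadratic (hp : p ≠ 2) {h : ZMod p → ZMod p → ZMod p} (hg : Good h) :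
    ∃ A B C : ZMod p → ZMod p, ∀ k b, h k b = A b + B b * k + C b * k ^ 2 := by
  have hpp := (Fact.out : p.Prime)
  have hodd := hpp.eq_two_or_odd
  by_cases h5 : 5 ≤ p
  · have key : ∀ b, ∃ A B C : ZMod p, ∀ k, h k b = A + B * k + C * k ^ 2 := by
      intro b
      apply quadratic_of_moments h5 (fun k => h k b)
      · intro a c hac
        have h1 := moments_of_lines (fun k => h k b) (fun k => k) (j := a + c) (by omega)
          (fun s hs => by
            obtain ⟨ε, m, hc⟩ := hg.coef hs
            exact (hc.moments hp b).1 (a + c) (by omega)) (a := a) (by omega)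
        rwa [Nat.add_sub_cancel_left] at h1
      · set N := (p - 1) / 2 with hN
        set Q := QQ (fun k => h k b) (fun k => k) N with hQ
        have h1 : ∀ s : ZMod p, s ≠ 0 → Q.eval s = 0 ∨ Q.eval s = 1 ∨ Q.eval s = -1 := by
          intro s hs
          obtain ⟨ε, m, hc⟩ := hg.coef hs
          rw [hQ, QQ_eval, (hc.moments hp b).2]
          rcases hc.values h5 with h0 | h0 | h0 <;> rw [h0]
          · left; simp
          · right; right; rfl
          · right; left; simp
        have h2 : Q.natDegree ≤ (p - 3) / 2 := by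
          rw [natDegree_le_iff_coeff_eq_zero]
          intro n hn
          rcases Nat.lt_or_ge N n with h3 | h3
          · exact coeff_eq_zero_of_natDegree_lt ((QQ_natDegree _ _ _).trans_lt h3)
          · have h4 : n = N := by omega
            subst h4
            rw [hQ, QQ_coeff _ _ _ _ le_rfl, Nat.sub_self]
            simp only [pow_zero, mul_one]
            rw [sum_pow_lt (by omega), mul_zero]
        have h3 := poly_values hp Q h2 h1
        have h4 : Q.coeff ((p - 3) / 2) = 0 :=
          coeff_eq_zero_of_natDegree_lt (by rw [h3]; omega)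
        rw [hQ, QQ_coeff _ _ _ _ (by omega)] at h4
        have h5' := (mul_eq_zero.1 h4).resolve_left (choose_ne_zero (by omega) (by omega))
        have h6 : N - (p - 3) / 2 = 1 := by omega
        rw [h6] at h5'
        simpa using h5'
    choose A B C hABC using key
    exact ⟨A, B, C, fun k b => hABC b k⟩
  · have h3 : p = 3 := by
      have := hpp.two_le
      interval_cases p
      · exact absurd rfl hp
      · rfl
      · exfalso; revert hpp; decide
    subst h3
    refine ⟨fun b => h 0 b, fun b => (h 1 b - h 2 b) * 2, fun b => (h 1 b + h 2 b - 2 * h 0 b) * 2, ?_⟩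
    intro k b
    have h3' : (3 : ZMod 3) = 0 := by exact_mod_cast three_eq
    have hk : k = 0 ∨ k = 1 ∨ k = 2 := cases_three k
    rcases hk with rfl | rfl | rfl
    · simp
    · linear_combination (-h 1 b + h 0 b) * h3'
    · linear_combination (-4 * h 1 b - h 2 b + 5 * h 0 b) * h3'

/-- sums of values of polynomials over the whole field -/
lemma sum_eval (Q : (ZMod p)[X]) (hQ : Q.natDegree ≤ p - 1) :
    ∑ k : ZMod p, Q.eval k = - Q.coeff (p - 1) := by
  have hpp := (Fact.out : p.Prime)
  have h1 : ∀ k : ZMod p, Q.eval k = ∑ i ∈ range (p - 1 + 1), Q.coeff i * k ^ i := by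
    intro k
    exact eval_eq_sum_range' (Nat.lt_succ_of_le hQ) k
  simp_rw [h1]
  rw [sum_comm, sum_range_succ, sum_eq_zero, zero_add]
  · rw [← mul_sum]
    have h2 : ∑ k : ZMod p, k ^ (p - 1) = -1 := by
      have h3 := FiniteField.sum_pow_units (ZMod p) (p - 1)
      rw [ZMod.card, if_pos dvd_rfl] at h3
      rw [← h3]
      have h4 : ∑ k : ZMod p, k ^ (p - 1) = ∑ k ∈ univ.erase (0 : ZMod p), k ^ (p - 1) := by
        rw [← add_sum_erase _ _ (mem_univ (0 : ZMod p)), zero_pow (by have := hpp.two_le; omega),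
          zero_add]
      rw [h4]
      symm
      apply sum_bij (fun (u : (ZMod p)ˣ) _ => (u : ZMod p))
      · intro u _
        exact mem_erase.2 ⟨u.ne_zero, mem_univ _⟩
      · intro u _ v _ h; exact Units.ext h
      · intro k hk
        exact ⟨Units.mk0 k (ne_of_mem_erase hk), mem_univ _, rfl⟩
      · intro u _; simp
    rw [h2]
    ring
  · intro i hi
    rw [← mul_sum, sum_pow_lt (mem_range.1 hi), mul_zero]

lemma sum_quad_pow (hp : p ≠ 2) (A B C' : ZMod p) :
    ∑ k : ZMod p, (A + B * k + C' * k ^ 2) ^ ((p - 1) / 2) = - C' ^ ((p - 1) / 2) := by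
  have hpp := (Fact.out : p.Prime)
  have hodd := hpp.eq_two_or_odd
  set q : (ZMod p)[X] := C A + C B * X + C C' * X ^ 2 with hq
  have h1 : ∀ k : ZMod p, (A + B * k + C' * k ^ 2) ^ ((p - 1) / 2) =
      (q ^ ((p - 1) / 2)).eval k := by
    intro k
    simp [hq]
  simp_rw [h1]
  have hdeg : q.natDegree ≤ 2 := by
    rw [hq]
    compute_degree
  have hpd : 2 * ((p - 1) / 2) = p - 1 := by omega
  rw [sum_eval]
  · congr 1
    have h2 := coeff_pow_of_natDegree_le (m := (p - 1) / 2) hdeg
    rw [mul_comm, hpd] at h2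
    rw [h2]
    congr 1
    simp [hq]
  · refine natDegree_pow_le.trans ?_
    calc (p - 1) / 2 * q.natDegree ≤ (p - 1) / 2 * 2 := Nat.mul_le_mul_left _ hdeg
      _ = p - 1 := by omega

end Pool.Agent.H88.Pl
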