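import Pool.Agent.H88.Pl.Defs

set_option autoImplicit false

/-!
# Module RD: fully reducible lacunary polynomials
-/

namespace Pool.Agent.H88.Pl

open Finset Polynomial

/-- The polynomial `∏ (X - φ k)`. -/
noncomputable def rdR {p : ℕ} [Fact p.Prime] (φ : ZMod p → ZMod p) : (ZMod p)[X] :=
  ∏ x, (X - C (φ x))

theorem rdR_eq {p : ℕ} [Fact p.Prime] (φ : ZMod p → ZMod p) :
    rdR φ = (((univ : Finset (ZMod p)).val.map φ).map (fun t => X - C t)).prod := by
  rw [Multiset.map_map]
  rfl

theorem rd_card {p : ℕ} [Fact p.Prime] (φ : ZMod p → ZMod p) :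
    ((univ : Finset (ZMod p)).val.map φ).card = p := by
  rw [Multiset.card_map]
  exact ZMod.card p

theorem rdR_coeff {p : ℕ} [Fact p.Prime] (φ : ZMod p → ZMod p) (k : ℕ) (hk : k ≤ p) :
    (rdR φ).coeff (p - k) = (-1) ^ k * ((univ : Finset (ZMod p)).val.map φ).esymm k := by
  have h := Multiset.prod_X_sub_C_coeff ((univ : Finset (ZMod p)).val.map φ) (k := p - k)
    (by rw [rd_card]; omega)
  rw [rd_card, Nat.sub_sub_self hk] at h
  rw [rdR_eq, h]

/-- Newton's identities for the polynomial `∏ (X - φ k)`. -/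
theorem rd_newton {p : ℕ} [Fact p.Prime] (φ : ZMod p → ZMod p) {M : ℕ} (hM : M ≤ p)
    (h : ∀ j < M, ∑ k, φ k ^ j = 0) (k : ℕ) (hk : k ≤ M) (hk1 : 1 ≤ k) :
    (k : ZMod p) * (rdR φ).coeff (p - k) = - ∑ x, φ x ^ k := by
  have h1 := congrArg (MvPolynomial.aeval φ) (MvPolynomial.mul_esymm_eq_sum (ZMod p) (ZMod p) k)
  have hps : ∀ n, MvPolynomial.aeval φ (MvPolynomial.psum (ZMod p) (ZMod p) n) =
      ∑ x, φ x ^ n := by
    intro n
    simp [MvPolynomial.psum]
  simp only [map_mul, map_sum, map_pow, map_neg, map_one, map_natCast, hps,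
    MvPolynomial.aeval_esymm_eq_multiset_esymm] at h1
  rw [Finset.sum_eq_single (0, k)] at h1
  · rw [rdR_coeff φ k (by omega), mul_left_comm, h1]
    have he : ((univ : Finset (ZMod p)).val.map φ).esymm 0 = 1 := by simp [Multiset.esymm]
    simp only [pow_zero, one_mul, he]
    rw [← mul_assoc, ← pow_add]
    have : (-1 : ZMod p) ^ (k + (k + 1)) = -1 := by
      rw [← add_assoc, pow_add, ← two_mul, pow_mul]
      norm_num
    rw [this]
    ring
  · rintro ⟨i, j⟩ hij hne
    rw [Finset.mem_filter, HasAntidiagonal.mem_antidiagonal] at hij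
    obtain ⟨hij, hi⟩ := hij
    simp only at hij hi
    have hi0 : i ≠ 0 := by
      rintro rfl
      exact hne (by simp only [zero_add] at hij; rw [hij])
    simp only
    rw [h j (by omega), mul_zero]
  · intro hne
    exfalso
    apply hne
    rw [Finset.mem_filter, HasAntidiagonal.mem_antidiagonal]
    simp only
    omega

theorem rdR_monic {p : ℕ} [Fact p.Prime] (φ : ZMod p → ZMod p) : (rdR φ).Monic :=
  monic_prod_of_monic _ _ fun _ _ => monic_X_sub_C _

theorem rdR_natDegree {p : ℕ} [Fact p.Prime] (φ : ZMod p → ZMod p) : (rdR φ).natDegree = p := by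
  unfold rdR
  rw [natDegree_prod_of_monic _ _ fun _ _ => monic_X_sub_C _]
  simp [ZMod.card]

/-- `R ∣ (R - (X^p - X)) R'`. -/
theorem rdR_dvd {p : ℕ} [Fact p.Prime] (φ : ZMod p → ZMod p) :
    rdR φ ∣ (rdR φ - (X ^ p - X)) * derivative (rdR φ) := by
  classical
  have h1 : rdR φ = ∏ c ∈ univ.image φ, (X - C c) ^ (univ.filter (fun k => φ k = c)).card := by
    unfold rdR
    rw [Finset.prod_comp (fun c => X - C c) φ]
  have hpos : ∀ c ∈ univ.image φ, 1 ≤ (univ.filter (fun k => φ k = c)).card := by
    intro c hc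
    obtain ⟨k, -, hk⟩ := Finset.mem_image.mp hc
    exact Finset.card_pos.mpr ⟨k, Finset.mem_filter.mpr ⟨Finset.mem_univ _, hk⟩⟩
  have h2 : rdR φ = (∏ c ∈ univ.image φ, (X - C c)) *
      ∏ c ∈ univ.image φ, (X - C c) ^ ((univ.filter (fun k => φ k = c)).card - 1) := by
    rw [h1, ← Finset.prod_mul_distrib]
    refine Finset.prod_congr rfl fun c hc => ?_
    rw [← pow_succ', Nat.sub_add_cancel (hpos c hc)]
  have h3 : (∏ c ∈ univ.image φ, (X - C c)) ∣ rdR φ - (X ^ p - X) := by
    refine dvd_sub ⟨_, h2⟩ ?_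
    have h4 : (X ^ p - X : (ZMod p)[X]) = ∏ c : ZMod p, (X - C c) := by
      have h5 := FiniteField.roots_X_pow_card_sub_X (ZMod p)
      have h6 := FiniteField.X_pow_card_sub_X_natDegree_eq (ZMod p) (Fact.out : p.Prime).one_lt
      rw [ZMod.card] at h5
      have h7 : (X ^ p - X : (ZMod p)[X]).Monic := by
        refine monic_X_pow_sub ?_
        rw [degree_X]
        exact_mod_cast (Fact.out : p.Prime).one_lt
      have h8 := prod_multiset_X_sub_C_of_monic_of_roots_card_eq h7 (by
        rw [h5, h6]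
        exact ZMod.card p)
      rw [h5] at h8
      exact h8.symm
    rw [h4]
    exact Finset.prod_dvd_prod_of_subset _ _ _ (Finset.subset_univ _)
  have h4 : (∏ c ∈ univ.image φ, (X - C c) ^ ((univ.filter (fun k => φ k = c)).card - 1)) ∣
      derivative (rdR φ) := by
    refine Finset.prod_dvd_of_coprime ?_ ?_
    · intro c _ d _ hcd
      exact IsCoprime.pow (isCoprime_X_sub_C_of_isUnit_sub (sub_ne_zero.mpr hcd).isUnit)
    · intro c hc
      refine pow_sub_one_dvd_derivative_of_pow_dvd ?_
      rw [h1]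
      exact Finset.dvd_prod_of_mem (fun c => (X - C c) ^ (univ.filter (fun k => φ k = c)).card) hc
  calc rdR φ = _ := h2
    _ ∣ _ := mul_dvd_mul h3 h4

theorem rd_cast_ne {p : ℕ} [Fact p.Prime] {k : ℕ} (h0 : 0 < k) (hk : k < p) :
    (k : ZMod p) ≠ 0 := by
  rw [Ne, ZMod.natCast_eq_zero_iff]
  exact Nat.not_dvd_of_pos_of_lt h0 hk

theorem rd_half {p M : ℕ} (hp : p = 2 * M + 1) : 2 * (M : ZMod p) + 1 = 0 := by
  have : ((2 * M + 1 : ℕ) : ZMod p) = 0 := by rw [← hp]; exact ZMod.natCast_self p
  exact_mod_cast this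

/-- Comparison of coefficients. -/
theorem rd_five {F : Type} [Field F] {M : ℕ} (hM : 2 ≤ M) (z1 z2 z3 z4 z5 : F)
    (h : C z1 * X ^ (2 * M + 1) + C z2 * X ^ (M + 1) + C z3 * X ^ M + C z4 * X + C z5 = 0) :
    z1 = 0 ∧ z2 = 0 ∧ z3 = 0 ∧ z4 = 0 := by
  have hc : ∀ k, (C z1 * X ^ (2 * M + 1) + C z2 * X ^ (M + 1) + C z3 * X ^ M + C z4 * X +
      C z5).coeff k = 0 := fun k => by rw [h, coeff_zero]
  simp only [coeff_add, coeff_C_mul, coeff_X_pow, coeff_X, coeff_C] at hc
  refine ⟨?_, ?_, ?_, ?_⟩
  · have := hc (2 * M + 1)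
    rw [if_pos rfl, if_neg (by omega), if_neg (by omega), if_neg (by omega),
      if_neg (by omega)] at this
    simpa using this
  · have := hc (M + 1)
    rw [if_neg (by omega), if_pos rfl, if_neg (by omega), if_neg (by omega),
      if_neg (by omega)] at this
    simpa using this
  · have := hc M
    rw [if_neg (by omega), if_neg (by omega), if_pos rfl, if_neg (by omega),
      if_neg (by omega)] at this
    simpa using this
  · have := hc 1
    rw [if_neg (by omega), if_neg (by omega), if_neg (by omega), if_pos rfl,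
      if_neg (by omega)] at this
    simpa using this

/-- The differential equation. -/
theorem rd_core {p M : ℕ} [Fact p.Prime] (hp : p = 2 * M + 1) (hM : 2 ≤ M) (y : (ZMod p)[X])
    (γ u : ZMod p) (hγ : γ ≠ 0) (hdeg : y.natDegree ≤ M + 1)
    (hlead : y.coeff (M + 1) = γ) (hsub : y.coeff M = 0)
    (heq : y * (derivative y - 1) = C u * (X ^ p + y - X)) :
    (γ ^ 2 = 1 ∧ y = C γ * X ^ (M + 1) + X) ∨ γ ^ 2 = 4 := by
  have hhalf := rd_half hp
  obtain ⟨q, hq⟩ : ∃ q, q = y - C γ * X ^ (M + 1) := ⟨_, rfl⟩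
  have hy : y = C γ * X ^ (M + 1) + q := by rw [hq]; ring
  have hqc : ∀ k, M ≤ k → q.coeff k = 0 := by
    intro k hk
    rw [hq, coeff_sub, coeff_C_mul, coeff_X_pow]
    rcases Nat.lt_or_ge (M + 1) k with h | h
    · rw [if_neg (by omega), coeff_eq_zero_of_natDegree_lt (by omega)]
      ring
    · rcases Nat.lt_or_ge M k with h' | h'
      · have : k = M + 1 := by omega
        rw [this, hlead, if_pos rfl]
        ring
      · have : k = M := by omega
        rw [this, hsub, if_neg (by omega)]
        ring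
  have hqd : q.natDegree < M := by
    by_contra hcon
    push Not at hcon
    have h1 := hqc _ hcon
    have h2 : q = 0 := by rwa [coeff_natDegree, leadingCoeff_eq_zero] at h1
    rw [h2, natDegree_zero] at hcon
    omega
  have hdy : derivative y = C (γ * (M + 1)) * X ^ M + derivative q := by
    rw [hy, derivative_add, derivative_C_mul_X_pow]
    push_cast
    rfl
  -- the degree of `q`
  have hq1 : q.natDegree ≤ 1 := by
    by_contra hcon
    push Not at hcon
    obtain ⟨e, he⟩ : ∃ e, q.natDegree = e + 2 := ⟨q.natDegree - 2, by omega⟩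
    have hqe : q.coeff (e + 2) ≠ 0 := by
      rw [← he, coeff_natDegree, Ne, leadingCoeff_eq_zero]
      intro h
      rw [h, natDegree_zero] at he
      omega
    have h1 := congrArg (fun P : (ZMod p)[X] => P.coeff (M + (e + 2))) heq
    have h2 : y * (derivative y - 1) = C (γ * (γ * (M + 1))) * X ^ (2 * M + 1) +
        C γ * (derivative q * X ^ (M + 1)) - C γ * X ^ (M + 1) +
        C (γ * (M + 1)) * (q * X ^ M) + q * derivative q - q := by
      rw [hdy, hy]
      simp only [C_mul, C_add, C_1]
      ring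
    rw [h2] at h1
    simp only [coeff_add, coeff_sub, coeff_C_mul, coeff_X_pow, coeff_X] at h1
    have h3 : (derivative q * X ^ (M + 1)).coeff (M + (e + 2)) = q.coeff (e + 2) * (e + 2) := by
      have : M + (e + 2) = (e + 1) + (M + 1) := by omega
      rw [this, coeff_mul_X_pow, coeff_derivative]
      push_cast
      ring
    have h4 : (q * X ^ M).coeff (M + (e + 2)) = q.coeff (e + 2) := by
      rw [add_comm, coeff_mul_X_pow]
    have h5 : (q * derivative q).coeff (M + (e + 2)) = 0 := by
      apply coeff_eq_zero_of_natDegree_lt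
      have h6 := natDegree_derivative_le q
      have h7 := natDegree_mul_le (p := q) (q := derivative q)
      omega
    have h6 : q.coeff (M + (e + 2)) = 0 := coeff_eq_zero_of_natDegree_lt (by omega)
    have h7 : y.coeff (M + (e + 2)) = 0 := coeff_eq_zero_of_natDegree_lt (by omega)
    rw [h3, h4, h5, h6, h7, if_neg (by omega), if_neg (by omega), if_neg (by omega),
      if_neg (by omega)] at h1
    have h8 : γ * (q.coeff (e + 2) * ((e + 2 + M + 1 : ℕ) : ZMod p)) = 0 := by
      push_cast
      linear_combination h1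
    have h9 := rd_cast_ne (p := p) (k := e + 2 + M + 1) (by omega) (by omega)
    exact mul_ne_zero hγ (mul_ne_zero hqe h9) h8
  obtain ⟨α, β, hαβ⟩ : ∃ α β, q = C α * X + C β :=
    ⟨_, _, eq_X_add_C_of_natDegree_le_one hq1⟩
  have hdq : derivative q = C α := by
    rw [hαβ]
    simp
  have h5 := rd_five hM (γ * (γ * (M + 1)) - u) (γ * (α - 1) + γ * (M + 1) * α - u * γ)
    (γ * (M + 1) * β) (α * (α - 1) - u * (α - 1)) (β * (α - 1) - u * β) (by
      have h6 : y * (derivative y - 1) - C u * (X ^ p + y - X) = 0 := by rw [heq, sub_self]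
      have hXp : (X ^ p : (ZMod p)[X]) = X ^ (2 * M + 1) :=
        congrArg (fun n => (X : (ZMod p)[X]) ^ n) hp
      rw [← h6, hdy, hdq, hy, hαβ, hXp]
      simp only [C_mul, C_add, C_1, C_sub]
      ring)
  obtain ⟨z1, z2, z3, z4⟩ := h5
  have hM1 : (M : ZMod p) + 1 ≠ 0 := by
    have := rd_cast_ne (p := p) (k := M + 1) (by omega) (by omega)
    push_cast at this
    exact this
  have hβ : β = 0 := by
    rcases mul_eq_zero.mp z3 with h | h
    · exact absurd h (mul_ne_zero hγ hM1)
    · exact h
  have z2' : α - 1 + (M + 1) * α - u = 0 := by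
    have : γ * (α - 1 + (M + 1) * α - u) = 0 := by linear_combination z2
    exact (mul_eq_zero.mp this).resolve_left hγ
  have z4' : (α - 1) * (α - u) = 0 := by linear_combination z4
  rcases mul_eq_zero.mp z4' with h | h
  · left
    have hα : α = 1 := sub_eq_zero.mp h
    refine ⟨?_, ?_⟩
    · -- `(M+1) γ² = u = M + 1`
      rw [hα] at z2'
      have h7 : ((M : ZMod p) + 1) * (γ ^ 2 - 1) = 0 := by linear_combination z1 - z2'
      exact sub_eq_zero.mp ((mul_eq_zero.mp h7).resolve_left hM1)
    · rw [hy, hαβ, hα, hβ]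
      simp
  · right
    have hα : α = u := sub_eq_zero.mp h
    rw [hα] at z2'
    -- `(M+1) u = 1`, `2 (M + 1) = 1`
    linear_combination 2 * z1 - γ ^ 2 * hhalf + 2 * (2 * z2' - u * hhalf)

theorem rd_taylor {p : ℕ} [Fact p.Prime] {M : ℕ} (y : (ZMod p)[X]) (hdeg : y.natDegree ≤ M + 1)
    (x : ZMod p) : (taylor x y).coeff (M + 1) = y.coeff (M + 1) ∧
      (taylor x y).coeff M = y.coeff M + (M + 1) * y.coeff (M + 1) * x := by
  constructor
  · have h1 : (hasseDeriv (M + 1) y).natDegree ≤ 0 := by
      have := natDegree_hasseDeriv_le y (M + 1)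
      omega
    rw [taylor_coeff, eq_C_of_natDegree_le_zero h1, eval_C, hasseDeriv_coeff]
    simp
  · have h1 : (hasseDeriv M y).natDegree ≤ 1 := by
      have := natDegree_hasseDeriv_le y M
      omega
    rw [taylor_coeff, eq_X_add_C_of_natDegree_le_one h1, eval_add, eval_mul, eval_C, eval_C,
      eval_X, hasseDeriv_coeff, hasseDeriv_coeff, zero_add, add_comm 1 M, Nat.choose_self,
      Nat.choose_succ_self_right]
    push_cast
    ring

theorem rd_mult {p : ℕ} [Fact p.Prime] (φ : ZMod p → ZMod p) (c : ZMod p) :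
    (rdR φ).rootMultiplicity c = (univ.filter (fun k => φ k = c)).card := by
  classical
  rw [← count_roots, rdR_eq, roots_multiset_prod_X_sub_C, Multiset.count_map]
  have : (univ.filter (fun k => φ k = c)).card =
      ((univ : Finset (ZMod p)).filter (fun k => c = φ k)).card := by
    congr 1
    ext k
    simp only [Finset.mem_filter, Finset.mem_univ, true_and]
    exact eq_comm
  rw [this]
  rfl

theorem rd_taylor_deriv {p : ℕ} [Fact p.Prime] (x : ZMod p) (y : (ZMod p)[X]) :
    taylor x (derivative y) = derivative (taylor x y) := by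
  rw [taylor_apply, taylor_apply, derivative_comp]
  simp

/-- Module RD (Redei) -/
theorem redei {p : ℕ} [Fact p.Prime] (hp : 5 ≤ p) (φ : ZMod p → ZMod p)
    (h : ∀ j < (p - 1) / 2, ∑ k, φ k ^ j = 0) :
    (∑ k, φ k ^ ((p - 1) / 2) = 0 ∨ ∑ k, φ k ^ ((p - 1) / 2) = 1 ∨
      ∑ k, φ k ^ ((p - 1) / 2) = -1) ∨
    ((2 * ∑ k, φ k ^ ((p - 1) / 2) = 1 ∨ 2 * ∑ k, φ k ^ ((p - 1) / 2) = -1) ∧
      4 * ∑ c : ZMod p, (univ.filter (fun k => φ k = c)).card ^ 2 = p ^ 2 + 4 * p - 1) := by
  classical
  obtain ⟨M, hM⟩ : ∃ M, p = 2 * M + 1 := by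
    have := (Fact.out : p.Prime).eq_two_or_odd
    exact ⟨p / 2, by omega⟩
  have hM2 : 2 ≤ M := by omega
  have hpM : (p - 1) / 2 = M := by omega
  rw [hpM] at h ⊢
  have hhalf := rd_half hM
  generalize hS : ∑ k, φ k ^ M = S
  -- the polynomials
  obtain ⟨y, hy⟩ : ∃ y, y = rdR φ - (X ^ p - X) := ⟨_, rfl⟩
  have hR : rdR φ = X ^ p + y - X := by rw [hy]; ring
  have hRd := rdR_natDegree φ
  have hdX : derivative (X ^ p : (ZMod p)[X]) = 0 := by
    rw [derivative_X_pow, CharP.cast_eq_zero]
    simp
  have hdR : derivative (rdR φ) = derivative y - 1 := by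
    rw [hR, derivative_sub, derivative_add, hdX, derivative_X, zero_add]
  have hdvd : rdR φ ∣ y * derivative (rdR φ) := by
    rw [hy]
    exact rdR_dvd φ
  -- the coefficients of `y`
  have hcoef : ∀ k, 1 < k → k < p → y.coeff k = (rdR φ).coeff k := by
    intro k hk1 hk2
    rw [hy, coeff_sub, coeff_sub, coeff_X_pow, coeff_X, if_neg (by omega), if_neg (by omega)]
    ring
  have hyd : y.natDegree ≤ M + 1 := by
    rw [natDegree_le_iff_coeff_eq_zero]
    intro k hk
    rcases Nat.lt_trichotomy k p with hkp | hkp | hkp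
    · rw [hcoef k (by omega) hkp]
      have h1 := rd_newton φ (M := M) (by omega) h (p - k) (by omega) (by omega)
      rw [h (p - k) (by omega), neg_zero, Nat.sub_sub_self (by omega)] at h1
      exact (mul_eq_zero.mp h1).resolve_left (rd_cast_ne (by omega) (by omega))
    · rw [hy, coeff_sub, coeff_sub, coeff_X_pow, coeff_X, if_pos hkp, if_neg (by omega), hkp]
      have h1 := rdR_monic φ
      rw [Monic, leadingCoeff, hRd] at h1
      rw [h1]
      ring
    · rw [hy, coeff_sub, coeff_sub, coeff_X_pow, coeff_X, if_neg (by omega), if_neg (by omega),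
        coeff_eq_zero_of_natDegree_lt (by omega)]
      ring
  generalize hγ : y.coeff (M + 1) = γ
  have hγS : γ = 2 * S := by
    have h1 := rd_newton φ (M := M) (by omega) h M le_rfl (by omega)
    have h2 : p - M = M + 1 := by omega
    rw [h2, ← hcoef (M + 1) (by omega) (by omega), hγ, hS] at h1
    linear_combination -2 * h1 + γ * hhalf
  have h2ne : (2 : ZMod p) ≠ 0 := by
    have := rd_cast_ne (p := p) (k := 2) (by omega) (by omega)
    exact_mod_cast this
  by_cases hγ0 : γ = 0
  · left; left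
    rw [hγ0] at hγS
    exact (mul_eq_zero.mp hγS.symm).resolve_left h2ne
  have hM1 : (M : ZMod p) + 1 ≠ 0 := by
    have := rd_cast_ne (p := p) (k := M + 1) (by omega) (by omega)
    push_cast at this
    exact this
  have hydeg : y.natDegree = M + 1 :=
    le_antisymm hyd (le_natDegree_of_ne_zero (by rw [hγ]; exact hγ0))
  have hy0 : y ≠ 0 := by
    intro h0
    rw [h0, coeff_zero] at hγ
    exact hγ0 hγ.symm
  have hR'0 : derivative (rdR φ) ≠ 0 := by
    intro h0
    have h1 := congrArg (fun P : (ZMod p)[X] => P.coeff M) (hdR.symm.trans h0)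
    simp only [coeff_sub, coeff_derivative, coeff_zero, coeff_one, hγ] at h1
    rw [if_neg (by omega), sub_zero] at h1
    exact mul_ne_zero hγ0 hM1 h1
  have hR'd : (derivative (rdR φ)).natDegree ≤ M := by
    rw [hdR]
    refine (natDegree_sub_le _ _).trans ?_
    rw [natDegree_one]
    have := natDegree_derivative_le y
    omega
  obtain ⟨u, hu⟩ := hdvd
  have hu0 : u ≠ 0 := by
    rintro rfl
    rw [mul_zero] at hu
    exact mul_ne_zero hy0 hR'0 hu
  have hudeg : u.natDegree = 0 := by
    have h1 := congrArg natDegree hu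
    rw [natDegree_mul hy0 hR'0, natDegree_mul (rdR_monic φ).ne_zero hu0, hRd] at h1
    omega
  obtain ⟨u0, hu0'⟩ : ∃ u0, u = C u0 := ⟨_, eq_C_of_natDegree_eq_zero hudeg⟩
  have heq : y * (derivative y - 1) = C u0 * (X ^ p + y - X) := by
    rw [← hdR, hu, hR, hu0', mul_comm]
  -- translation
  obtain ⟨x0, hx0⟩ : ∃ x0 : ZMod p, y.coeff M + (M + 1) * γ * x0 = 0 :=
    ⟨-(y.coeff M) / ((M + 1) * γ), by
      have : ((M : ZMod p) + 1) * γ ≠ 0 := mul_ne_zero hM1 hγ0
      field_simp
      ring⟩
  obtain ⟨t1, t2⟩ := rd_taylor y hyd x0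
  have hXp : taylor x0 (X ^ p : (ZMod p)[X]) = X ^ p + C x0 := by
    rw [taylor_X_pow, add_pow_char, ← C_pow, ZMod.pow_card]
  have heq1 : taylor x0 y * (derivative (taylor x0 y) - 1) =
      C u0 * (X ^ p + taylor x0 y - X) := by
    have h1 := congrArg (taylor x0) heq
    rw [taylor_mul, taylor_mul, map_sub, map_sub, map_add, hXp, taylor_C, taylor_X, taylor_one,
      rd_taylor_deriv] at h1
    rw [C_1] at h1
    rw [h1]
    ring
  have hcore := rd_core hM hM2 (taylor x0 y) γ u0 hγ0 (by rw [natDegree_taylor]; exact hyd)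
    (by rw [t1, hγ]) (by rw [t2, hγ, hx0]) heq1
  rcases hcore with ⟨hg1, hg2⟩ | hg
  · right
    refine ⟨?_, ?_⟩
    · rw [← hγS]
      have : (γ - 1) * (γ + 1) = 0 := by linear_combination hg1
      rcases mul_eq_zero.mp this with h1 | h1
      · left; exact sub_eq_zero.mp h1
      · right; exact eq_neg_of_add_eq_zero_left h1
    · -- the multiplicities
      have hTR : (rdR φ).comp (X + C x0) = (X ^ M + C γ) * (X - C 0) ^ (M + 1) := by
        rw [← taylor_apply, hR, map_sub, map_add, hXp, hg2, taylor_X, C_0]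
        have hXp2 : (X ^ p : (ZMod p)[X]) = X ^ (2 * M + 1) :=
          congrArg (fun n => (X : (ZMod p)[X]) ^ n) hM
        rw [hXp2]
        ring
      have hev : (X ^ M + C γ : (ZMod p)[X]).eval 0 = γ := by
        rw [eval_add, eval_pow, eval_X, eval_C, zero_pow (by omega), zero_add]
      have hne : (X ^ M + C γ : (ZMod p)[X]) ≠ 0 := by
        intro h0
        rw [h0, eval_zero] at hev
        exact hγ0 hev.symm
      have hm0 : (univ.filter (fun k => φ k = x0)).card = M + 1 := by
        rw [← rd_mult, rootMultiplicity_eq_rootMultiplicity, hTR,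
          rootMultiplicity_mul_X_sub_C_pow hne, rootMultiplicity_eq_zero, zero_add]
        rw [IsRoot, hev]
        exact hγ0
      have hm1 : ∀ c, c ≠ x0 → (univ.filter (fun k => φ k = c)).card ≤ 1 := by
        intro c hc
        by_contra hcon
        push Not at hcon
        rw [← rd_mult, one_lt_rootMultiplicity_iff_isRoot (rdR_monic φ).ne_zero] at hcon
        have h1 := hcon.2
        rw [IsRoot, hdR] at h1
        have h2 : (taylor x0 (derivative y - 1)).eval (c - x0) = (derivative y - 1).eval c := by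
          rw [taylor_eval, sub_add_cancel]
        rw [← h2, map_sub, rd_taylor_deriv, hg2, taylor_one, C_1, derivative_add,
          derivative_C_mul_X_pow, derivative_X, add_sub_cancel_right, eval_mul, eval_C, eval_pow,
          eval_X] at h1
        have h3 : ((M + 1 : ℕ) : ZMod p) ≠ 0 := by push_cast; exact hM1
        exact mul_ne_zero (mul_ne_zero hγ0 h3) (pow_ne_zero _ (sub_ne_zero.mpr hc)) h1
      have htot : ∑ c : ZMod p, (univ.filter (fun k => φ k = c)).card = p := by
        have h1 := Finset.card_eq_sum_card_fiberwise (f := φ) (s := univ) (t := univ)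
          (fun _ _ => Finset.mem_univ _)
        rw [← h1, Finset.card_univ, ZMod.card]
      have h1 := Finset.add_sum_erase univ (fun c : ZMod p =>
        (univ.filter (fun k => φ k = c)).card) (Finset.mem_univ x0)
      have h2 := Finset.add_sum_erase univ (fun c : ZMod p =>
        (univ.filter (fun k => φ k = c)).card ^ 2) (Finset.mem_univ x0)
      have h3 : ∑ c ∈ univ.erase x0, (univ.filter (fun k => φ k = c)).card ^ 2 =
          ∑ c ∈ univ.erase x0, (univ.filter (fun k => φ k = c)).card := by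
        refine Finset.sum_congr rfl fun c hc => ?_
        have := hm1 c (Finset.ne_of_mem_erase hc)
        interval_cases (univ.filter (fun k => φ k = c)).card <;> rfl
      rw [htot, hm0] at h1
      rw [h3, hm0] at h2
      rw [← h2]
      have h4 : ∑ c ∈ univ.erase x0, (univ.filter (fun k => φ k = c)).card = M := by omega
      rw [h4, hM]
      have h5 : 4 * ((M + 1) ^ 2 + M) + 1 = (2 * M + 1) ^ 2 + 4 * (2 * M + 1) := by ring
      omega
  · left; right
    rw [hγS] at hg
    have h1 : (2 * 2 : ZMod p) * ((S - 1) * (S + 1)) = 0 := by linear_combination hg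
    rcases mul_eq_zero.mp ((mul_eq_zero.mp h1).resolve_left (mul_ne_zero h2ne h2ne)) with h2 | h2
    · left; exact sub_eq_zero.mp h2
    · right; exact eq_neg_of_add_eq_zero_left h2

end Pool.Agent.H88.Pl
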