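import Pool.Agent.H88.Pl.Basic
import Pool.Agent.H88.Pl.AR
import Pool.Agent.H88.Pl.MP
import Pool.Agent.H88.Pl.RD
import Pool.Agent.H88.Pl.PQ1
import Pool.Agent.H88.Pl.PQ2
import Pool.Agent.H88.Pl.GS

/-!
# Functions on a slice
-/

set_option autoImplicit false

namespace Pool.Agent.H88.Pl

open Finset Polynomial

variable {p : ℕ} [Fact p.Prime]

/-- Fourier transform of a function on the slice -/
noncomputable def SS (w : ℂ) (h : ZMod p → ZMod p → ZMod p) (s t : ZMod p) : ℂ :=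
  ∑ k, ∑ b, ew w (h k b + s * k + t * b)

/-- the properties of a slice of a bent function -/
structure Good (h : ZMod p → ZMod p → ZMod p) : Prop where
  b1 : ∀ s : ZMod p, s ≠ 0 → ∀ t : ZMod p, ∃ (ε : ℤ) (m : ZMod p), (ε = 0 ∨ ε = 1 ∨ ε = -1) ∧
    ∀ w : ℂ, IsPrimitiveRoot w p → SS w h s t = ε * ew w m * gs p w ^ 3
  b2 : ∀ w : ℂ, IsPrimitiveRoot w p → ∀ t : ZMod p, ‖SS w h 0 t‖ ^ 2 ≤ (p : ℝ) ^ 3

/-- the partial Fourier transform -/
noncomputable def VV (w : ℂ) (h : ZMod p → ZMod p → ZMod p) (s b : ZMod p) : ℂ :=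
  ∑ k, ew w (h k b + s * k)

lemma SS_eq {w : ℂ} (hw : w ^ p = 1) (h : ZMod p → ZMod p → ZMod p) (s t : ZMod p) :
    SS w h s t = ∑ b, VV w h s b * ew w (t * b) := by
  rw [SS, sum_comm]
  apply sum_congr rfl
  intro b _
  rw [VV, sum_mul]
  apply sum_congr rfl
  intro k _
  rw [ew_add hw]

lemma VV_eq {w : ℂ} (hw : IsPrimitiveRoot w p) (h : ZMod p → ZMod p → ZMod p) (s b : ZMod p) :
    (p : ℂ) * VV w h s b = ∑ t, SS w h s t * ew w (-(t * b)) := by
  simp_rw [SS_eq hw.pow_eq_one, sum_mul]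
  rw [sum_comm]
  have h1 : ∀ c : ZMod p, ∑ t : ZMod p, VV w h s c * ew w (t * c) * ew w (-(t * b)) =
      if c = b then (p : ℂ) * VV w h s b else 0 := by
    intro c
    have h2 : ∀ t : ZMod p, VV w h s c * ew w (t * c) * ew w (-(t * b)) =
        VV w h s c * ew w (t * (c - b)) := by
      intro t
      rw [mul_assoc, ← ew_add hw.pow_eq_one]
      congr 2
      ring
    simp_rw [h2]
    rw [← mul_sum, sum_ew_mul hw]
    by_cases hc : c = b
    · rw [if_pos (sub_eq_zero.2 hc), if_pos hc, hc, mul_comm]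
    · rw [if_neg (fun h' => hc (sub_eq_zero.1 h')), if_neg hc, mul_zero]
  simp_rw [h1]
  simp

/-- Parseval -/
lemma parseval {w : ℂ} (hw : IsPrimitiveRoot w p) (v : ZMod p → ℂ) :
    ∑ t : ZMod p, ‖∑ b : ZMod p, v b * ew w (t * b)‖ ^ 2 = p * ∑ b, ‖v b‖ ^ 2 := by
  have h1 : ((∑ t : ZMod p, ‖∑ b : ZMod p, v b * ew w (t * b)‖ ^ 2 : ℝ) : ℂ) =
      ((p * ∑ b, ‖v b‖ ^ 2 : ℝ) : ℂ) := by
    push_cast
    have h2 : ∀ t : ZMod p, ((‖∑ b : ZMod p, v b * ew w (t * b)‖ : ℝ) : ℂ) ^ 2 =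
        ∑ b, ∑ c, v b * (starRingEnd ℂ) (v c) * ew w (t * (b - c)) := by
      intro t
      rw [← Complex.mul_conj', map_sum, sum_mul_sum]
      apply sum_congr rfl
      intro b _
      apply sum_congr rfl
      intro c _
      rw [map_mul, conj_ew hw.pow_eq_one]
      have : ew w (t * (b - c)) = ew w (t * b) * ew w (-(t * c)) := by
        rw [← ew_add hw.pow_eq_one]; congr 1; ring
      rw [this]
      ring
    simp_rw [h2]
    rw [sum_comm, mul_sum]
    apply sum_congr rfl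
    intro b _
    rw [sum_comm, sum_eq_single b]
    · rw [← mul_sum, sum_ew_mul hw, if_pos (sub_self b), Complex.mul_conj']
      ring
    · intro c _ hc
      rw [← mul_sum, sum_ew_mul hw, if_neg (fun h' => hc (sub_eq_zero.1 h').symm), mul_zero]
    · intro h'; exact absurd (mem_univ _) h'
  exact_mod_cast h1

lemma parseval_SS {w : ℂ} (hw : IsPrimitiveRoot w p) (h : ZMod p → ZMod p → ZMod p) (s : ZMod p) :
    ∑ t : ZMod p, ‖SS w h s t‖ ^ 2 = p * ∑ b, ‖VV w h s b‖ ^ 2 := by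
  simp_rw [SS_eq hw.pow_eq_one]
  exact parseval hw _

lemma p_pos : (0 : ℝ) < p := by exact_mod_cast (Fact.out : p.Prime).pos

lemma p_ne_zero : (p : ℂ) ≠ 0 := by exact_mod_cast (Fact.out : p.Prime).ne_zero

/-- the coefficients -/
structure Coef (h : ZMod p → ZMod p → ZMod p) (s : ZMod p) (ε : ZMod p → ℤ) (m : ZMod p → ZMod p) :
    Prop where
  sgn : ∀ t, ε t = 0 ∨ ε t = 1 ∨ ε t = -1
  eq : ∀ w : ℂ, IsPrimitiveRoot w p → ∀ t, SS w h s t = ε t * ew w (m t) * gs p w ^ 3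

lemma Good.coef {h : ZMod p → ZMod p → ZMod p} (hg : Good h) {s : ZMod p} (hs : s ≠ 0) :
    ∃ ε m, Coef h s ε m := by
  choose ε m h1 h2 using hg.b1 s hs
  exact ⟨ε, m, h1, fun w hw t => h2 t w hw⟩

section coef

variable {h : ZMod p → ZMod p → ZMod p} {s : ZMod p} {ε : ZMod p → ℤ} {m : ZMod p → ZMod p}

lemma Coef.VV_eq (hp : p ≠ 2) (hc : Coef h s ε m) {w : ℂ} (hw : IsPrimitiveRoot w p) (b : ZMod p) :
    VV w h s b = gs p w * ∑ t, (((-1) ^ ((p - 1) / 2) * ε t : ℤ) : ℂ) * ew w (m t - t * b) := by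
  apply mul_left_cancel₀ (p_ne_zero (p := p))
  rw [Pool.Agent.H88.Pl.VV_eq hw]
  simp_rw [hc.eq w hw]
  have h1 : ∀ t : ZMod p, (ε t : ℂ) * ew w (m t) * gs p w ^ 3 * ew w (-(t * b)) =
      p * (gs p w * ((((-1) ^ ((p - 1) / 2) * ε t : ℤ) : ℂ) * ew w (m t - t * b))) := by
    intro t
    rw [sub_eq_add_neg, ew_add hw.pow_eq_one, pow_succ, gs_sq hp hw]
    push_cast
    ring
  simp_rw [h1]
  rw [← mul_sum, ← mul_sum]

/-- number of nonzero coefficients -/
def nz (ε : ZMod p → ℤ) : ℕ := (univ.filter (fun t => ε t ≠ 0)).card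

lemma Coef.norm_sq (hp : p ≠ 2) (hc : Coef h s ε m) {w : ℂ} (hw : IsPrimitiveRoot w p) (t : ZMod p) :
    ‖SS w h s t‖ ^ 2 = if ε t ≠ 0 then (p : ℝ) ^ 3 else 0 := by
  rw [hc.eq w hw t, norm_mul, norm_mul, norm_ew hw.pow_eq_one, norm_pow, mul_one, mul_pow, ← pow_mul,
    mul_comm 3 2, pow_mul, norm_gs hp hw]
  rcases hc.sgn t with h0 | h0 | h0 <;> simp [h0]

lemma Coef.sum_norm_sq (hp : p ≠ 2) (hc : Coef h s ε m) {w : ℂ} (hw : IsPrimitiveRoot w p) :
    ∑ t, ‖SS w h s t‖ ^ 2 = nz ε * (p : ℝ) ^ 3 := by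
  simp_rw [hc.norm_sq hp hw]
  rw [← sum_filter, sum_const, nsmul_eq_mul]
  rfl

/-- the power sums -/
lemma Coef.moments (hp : p ≠ 2) (hc : Coef h s ε m) (b : ZMod p) :
    (∀ j < (p - 1) / 2, ∑ k, (h k b + s * k) ^ j = 0) ∧
      ∑ k, (h k b + s * k) ^ ((p - 1) / 2) =
        - (((-1) ^ ((p - 1) / 2) * ∑ t, ε t : ℤ) : ZMod p) := by
  have hw : IsPrimitiveRoot (Complex.exp (2 * Real.pi * Complex.I / p)) p :=
    Complex.isPrimitiveRoot_exp p (Fact.out : p.Prime).ne_zero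
  have h1 := modp hp hw (fun k => h k b + s * k) (fun t => (-1) ^ ((p - 1) / 2) * ε t)
    (fun t => m t - t * b) (hc.VV_eq hp hw b)
  refine ⟨h1.1, ?_⟩
  rw [h1.2, mul_sum]
  push_cast
  rfl

/-- counting identity for the number of nonzero coefficients -/
lemma Coef.count (hp : p ≠ 2) (hc : Coef h s ε m) :
    ∑ b : ZMod p, ∑ c : ZMod p, (univ.filter (fun k => h k b + s * k = c)).card ^ 2 =
      p ^ 2 + (p - 1) * p * nz ε := by
  have hw : IsPrimitiveRoot (Complex.exp (2 * Real.pi * Complex.I / p)) p :=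
    Complex.isPrimitiveRoot_exp p (Fact.out : p.Prime).ne_zero
  set w := Complex.exp (2 * Real.pi * Complex.I / p) with hwdef
  have hp0 := p_pos (p := p)
  have hp1 := (Fact.out : p.Prime).one_lt
  -- for every nonzero u
  have h1 : ∀ u : ZMod p, u ≠ 0 → ∑ b : ZMod p, ‖∑ k, ew w (u * (h k b + s * k))‖ ^ 2 =
      nz ε * (p : ℝ) ^ 2 := by
    intro u hu
    have hwu := primitive_pow hw hu
    have h2 := parseval_SS hwu h s
    rw [hc.sum_norm_sq hp hwu] at h2
    have h3 : ∀ b, VV (ew w u) h s b = ∑ k, ew w (u * (h k b + s * k)) := by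
      intro b
      rw [VV]
      exact sum_congr rfl fun k _ => ew_ew hw.pow_eq_one _ _
    simp_rw [h3] at h2
    have : (p : ℝ) * (∑ b : ZMod p, ‖∑ k, ew w (u * (h k b + s * k))‖ ^ 2) =
        p * (nz ε * (p : ℝ) ^ 2) := by rw [← h2]; ring
    exact mul_left_cancel₀ hp0.ne' this
  have h4 : ∑ u : ZMod p, ∑ b : ZMod p, ‖∑ k, ew w (u * (h k b + s * k))‖ ^ 2 =
      (p : ℝ) ^ 3 + (p - 1) * (nz ε * (p : ℝ) ^ 2) := by
    rw [← sum_erase_add _ _ (mem_univ (0 : ZMod p))]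
    have h5 : ∑ b : ZMod p, ‖∑ k, ew w (0 * (h k b + s * k))‖ ^ 2 = (p : ℝ) ^ 3 := by
      simp only [zero_mul, ew_zero, sum_const, card_univ, ZMod.card, nsmul_eq_mul, mul_one,
        Complex.norm_natCast]
      ring
    rw [h5, sum_congr rfl (fun u hu => h1 u (ne_of_mem_erase hu)), sum_const,
      card_erase_of_mem (mem_univ _), card_univ, ZMod.card, nsmul_eq_mul, Nat.cast_sub hp1.le]
    push_cast
    ring
  rw [sum_comm] at h4
  have h6 : ∀ b : ZMod p, ∑ u : ZMod p, ‖∑ k, ew w (u * (h k b + s * k))‖ ^ 2 =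
      (p : ℝ) * ∑ c : ZMod p, ((univ.filter (fun k => h k b + s * k = c)).card : ℝ) ^ 2 :=
    fun b => Pool.Agent.H88.Pl.sum_norm_sq hw _
  simp_rw [h6] at h4
  rw [← mul_sum] at h4
  have h7 : (p : ℝ) * (∑ b : ZMod p, ∑ c : ZMod p,
      ((univ.filter (fun k => h k b + s * k = c)).card : ℝ) ^ 2) =
      p * ((p : ℝ) ^ 2 + (p - 1) * p * nz ε) := by rw [h4]; ring
  have h8 := mul_left_cancel₀ hp0.ne' h7
  have h9 : ((∑ b : ZMod p, ∑ c : ZMod p,
      (univ.filter (fun k => h k b + s * k = c)).card ^ 2 : ℕ) : ℝ) =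
      ((p ^ 2 + (p - 1) * p * nz ε : ℕ) : ℝ) := by
    push_cast [Nat.cast_sub hp1.le]
    exact h8
  exact_mod_cast h9

lemma abs_sum_le (hsgn : ∀ t, ε t = 0 ∨ ε t = 1 ∨ ε t = -1) : |∑ t, ε t| ≤ nz ε := by
  refine (abs_sum_le_sum_abs _ _).trans ?_
  rw [nz, card_filter]
  push_cast
  apply sum_le_sum
  intro t _
  rcases hsgn t with h0 | h0 | h0 <;> simp [h0]

/-- the values of the sum of the coefficients -/
lemma Coef.values (hp : 5 ≤ p) (hc : Coef h s ε m) :
    (((-1) ^ ((p - 1) / 2) * ∑ t, ε t : ℤ) : ZMod p) = 0 ∨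
    (((-1) ^ ((p - 1) / 2) * ∑ t, ε t : ℤ) : ZMod p) = 1 ∨
    (((-1) ^ ((p - 1) / 2) * ∑ t, ε t : ℤ) : ZMod p) = -1 := by
  have hp2 : p ≠ 2 := by omega
  set E : ℤ := (-1) ^ ((p - 1) / 2) * ∑ t, ε t with hE
  have hEabs : |E| ≤ nz ε := by
    rw [hE, abs_mul, abs_pow, abs_neg, abs_one, one_pow, one_mul]
    exact abs_sum_le hc.sgn
  have hmom := fun b => hc.moments hp2 b
  have key : ∀ b, _ := fun b => redei hp (fun k => h k b + s * k) (hmom b).1
  simp_rw [(hmom _).2] at key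
  rcases key 0 with h0 | h0
  · rcases h0 with h0 | h0 | h0
    · left; rwa [neg_eq_zero] at h0
    · right; right; rw [← h0, neg_neg]
    · right; left; rwa [neg_inj] at h0
  · exfalso
    -- all b are of the second type
    have hE2 : (2 * E - 1 : ℤ) ≠ 0 := by omega
    have hE3 : (2 * E + 1 : ℤ) ≠ 0 := by omega
    have hcard : ∀ b : ZMod p, 4 * ∑ c : ZMod p, (univ.filter (fun k => h k b + s * k = c)).card ^ 2 =
        p ^ 2 + 4 * p - 1 := by
      intro b
      rcases key b with h1 | h1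
      · exfalso
        have h2 : (2 : ZMod p) ≠ 0 := by
          intro h2
          have : ((2:ℕ) : ZMod p) = 0 := by exact_mod_cast h2
          rw [ZMod.natCast_eq_zero_iff] at this
          have := Nat.le_of_dvd (by norm_num) this
          omega
        have h3 : (3 : ZMod p) ≠ 0 := by
          intro h2
          have : ((3:ℕ) : ZMod p) = 0 := by exact_mod_cast h2
          rw [ZMod.natCast_eq_zero_iff] at this
          have := Nat.le_of_dvd (by norm_num) this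
          omega
        rcases h0.1 with h0 | h0 <;> rcases h1 with h1 | h1 | h1 <;> rw [h1] at h0
        · simp at h0
        · have : (1 : ZMod p) = 0 := by linear_combination h0
          exact one_ne_zero this
        · apply h3; linear_combination -h0
        · simp at h0
        · apply h3; linear_combination h0
        · have : (1 : ZMod p) = 0 := by linear_combination -h0
          exact one_ne_zero this
      · exact h1.2
    have hsum := hc.count hp2
    have h4 : 4 * (p ^ 2 + (p - 1) * p * nz ε) = p * (p ^ 2 + 4 * p - 1) := by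
      rw [← hsum, mul_sum]
      rw [sum_congr rfl (fun b _ => hcard b), sum_const, card_univ, ZMod.card, smul_eq_mul]
    have h5 : |E| * 2 ≥ p - 1 := by
      rcases h0.1 with h0 | h0
      · have h6 : ((2 * E + 1 : ℤ) : ZMod p) = 0 := by push_cast; linear_combination -h0
        rw [ZMod.intCast_zmod_eq_zero_iff_dvd] at h6
        have h7 := Int.le_of_dvd (abs_pos.2 hE3) ((dvd_abs _ _).2 h6)
        have h8 : |2 * E + 1| ≤ 2 * |E| + 1 := by
          refine (abs_add_le _ _).trans ?_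
          rw [abs_mul]; norm_num
        have hEc : ((p : ℕ) : ℤ) ≤ 2 * |E| + 1 := h7.trans h8
        linarith
      · have h6 : ((2 * E - 1 : ℤ) : ZMod p) = 0 := by push_cast; linear_combination -h0
        rw [ZMod.intCast_zmod_eq_zero_iff_dvd] at h6
        have h7 := Int.le_of_dvd (abs_pos.2 hE2) ((dvd_abs _ _).2 h6)
        have h8 : |2 * E - 1| ≤ 2 * |E| + 1 := by
          refine (abs_sub _ _).trans ?_
          rw [abs_mul]; norm_num
        have hEc : ((p : ℕ) : ℤ) ≤ 2 * |E| + 1 := h7.trans h8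
        linarith
    have h6 : (p : ℤ) - 1 ≤ 2 * nz ε := by linarith
    -- contradiction
    obtain ⟨q, rfl⟩ : ∃ q, p = q + 1 := ⟨p - 1, by omega⟩
    have e1 : q + 1 - 1 = q := by omega
    have e2 : (q + 1) ^ 2 + 4 * (q + 1) - 1 = q * (q + 6) + 4 := by
      have : (q + 1) ^ 2 + 4 * (q + 1) = q * (q + 6) + 4 + 1 := by ring
      omega
    rw [e1, e2] at h4
    have h7 : (q + 1) * (4 * (q + 1) + 4 * q * nz ε) = (q + 1) * (q * (q + 6) + 4) := by
      rw [← h4]; ring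
    have h8 := Nat.eq_of_mul_eq_mul_left (by omega) h7
    have h9 : q * (4 * nz ε) = q * (q + 2) := by
      have : 4 * (q + 1) + 4 * q * nz ε = q * (q + 6) + 4 := h8
      nlinarith
    have h10 := Nat.eq_of_mul_eq_mul_left (by omega) h9
    push_cast at h6
    omega

end coef

end Pool.Agent.H88.Pl
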