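import Pool.Agent.H88.Pl.Quad

/-!
# The two types of slices and the final contradiction
-/

set_option autoImplicit false

namespace Pool.Agent.H88.Pl

open Finset Polynomial

variable {p : ℕ} [Fact p.Prime]

lemma exists_prim : ∃ w : ℂ, IsPrimitiveRoot w p :=
  ⟨_, Complex.isPrimitiveRoot_exp p (Fact.out : p.Prime).ne_zero⟩

lemma exists_good_s (hp : p ≠ 2) (β : ZMod p) : ∃ s : ZMod p, s ≠ 0 ∧ β + s ≠ 0 := by
  by_contra hcon
  push Not at hcon
  have h1 : (univ : Finset (ZMod p)) ⊆ {0, -β} := by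
    intro s _
    rw [mem_insert, mem_singleton]
    by_cases hs : s = 0
    · exact Or.inl hs
    · right; linear_combination hcon s hs
  have h2 := card_le_card h1
  rw [card_univ, ZMod.card] at h2
  have h3 : ({0, -β} : Finset (ZMod p)).card ≤ 2 := card_le_two
  have h4 := (Fact.out : p.Prime).two_le
  omega

section

variable {h : ZMod p → ZMod p → ZMod p} {A B C : ZMod p → ZMod p}

/-- (6) the character of the leading coefficient is constant -/
lemma Good.char_const (hp : p ≠ 2) (hg : Good h) (hABC : ∀ k b, h k b = A b + B b * k + C b * k ^ 2)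
    (b c : ZMod p) : C b ^ ((p - 1) / 2) = C c ^ ((p - 1) / 2) := by
  obtain ⟨ε, m, hc⟩ := hg.coef (s := 1) one_ne_zero
  have h1 : ∀ b, ∑ k, (h k b + 1 * k) ^ ((p - 1) / 2) = - C b ^ ((p - 1) / 2) := by
    intro b
    rw [← sum_quad_pow hp (A b) (B b + 1) (C b)]
    apply sum_congr rfl
    intro k _
    rw [hABC]
    congr 1
    ring
  have h2 := (hc.moments hp b).2
  have h3 := (hc.moments hp c).2
  rw [h1] at h2 h3
  rw [← neg_inj, h2, h3]

lemma Good.zero_iff (hp : p ≠ 2) (hg : Good h) (hABC : ∀ k b, h k b = A b + B b * k + C b * k ^ 2)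
    {b : ZMod p} (hb : C b = 0) (c : ZMod p) : C c = 0 := by
  have h1 := hg.char_const hp hABC b c
  have h2 : (p - 1) / 2 ≠ 0 := by
    have := (Fact.out : p.Prime).two_le
    omega
  rw [hb, zero_pow h2] at h1
  exact (pow_eq_zero_iff h2).1 h1.symm

/-- (7) slices of type I -/
lemma Good.typeI (hp : p ≠ 2) (hg : Good h) (hABC : ∀ k b, h k b = A b + B b * k + C b * k ^ 2)
    (hC : ∀ b, C b ≠ 0) {s : ZMod p} (hs : s ≠ 0) :
    ∃ m t : ZMod p, ∀ b, A b - (B b + s) ^ 2 / (4 * C b) = m - t * b := by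
  obtain ⟨w, hw⟩ := exists_prim (p := p)
  obtain ⟨ε, m, hc⟩ := hg.coef hs
  have hgs : ‖gs p w‖ ^ 2 = p := norm_gs hp hw
  have hp0 := p_pos (p := p)
  have hgs0 : gs p w ≠ 0 := by
    intro h0
    rw [h0, norm_zero] at hgs
    simp at hgs
    exact hp0.ne' (by exact_mod_cast hgs.symm)
  have h1 : ∀ b, VV w h s b = (if C b ^ ((p - 1) / 2) = 1 then 1 else -1) * gs p w *
      ew w (A b - (B b + s) ^ 2 / (4 * C b)) := by
    intro b
    rw [← sum_quadratic hp hw _ _ _ (hC b), VV]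
    apply sum_congr rfl
    intro k _
    rw [hABC]
    congr 1
    ring
  have h2 : ∀ b, ‖VV w h s b‖ ^ 2 = p := by
    intro b
    rw [h1, norm_mul, norm_mul, norm_ew hw.pow_eq_one, mul_one, mul_pow, hgs]
    split_ifs <;> simp
  have h3 := parseval_SS hw h s
  rw [hc.sum_norm_sq hp hw] at h3
  simp_rw [h2] at h3
  rw [sum_const, card_univ, ZMod.card, nsmul_eq_mul] at h3
  have h4 : (nz ε : ℝ) = 1 := by
    have h5 : (p : ℝ) ^ 3 * nz ε = (p : ℝ) ^ 3 * 1 := by rw [mul_comm, h3]; ring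
    exact mul_left_cancel₀ (pow_ne_zero 3 hp0.ne') h5
  have h5 : nz ε = 1 := by exact_mod_cast h4
  rw [nz, card_eq_one] at h5
  obtain ⟨t0, ht0⟩ := h5
  refine ⟨m t0, t0, fun b => ?_⟩
  have h6 : ∀ t, t ≠ t0 → ε t = 0 := by
    intro t ht
    by_contra h7
    have : t ∈ univ.filter (fun t => ε t ≠ 0) := mem_filter.2 ⟨mem_univ _, h7⟩
    rw [ht0, mem_singleton] at this
    exact ht this
  have h7 : ε t0 ≠ 0 := by
    have : t0 ∈ univ.filter (fun t => ε t ≠ 0) := by rw [ht0]; exact mem_singleton_self _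
    exact (mem_filter.1 this).2
  have h8 := hc.VV_eq hp hw b
  rw [sum_eq_single t0 (fun t _ ht => by rw [h6 t ht]; simp) (fun h' => absurd (mem_univ _) h'),
    h1 b, mul_assoc, mul_comm _ (gs p w * _), mul_assoc] at h8
  have h9 := mul_left_cancel₀ hgs0 h8
  -- compare signs
  have h10 : ∃ σ : ℂ, (σ = 1 ∨ σ = -1) ∧ ew w (A b - (B b + s) ^ 2 / (4 * C b)) =
      σ * ew w (m t0 - t0 * b) := by
    have e1 : ∃ σ1 : ℂ, (σ1 = 1 ∨ σ1 = -1) ∧ (if C b ^ ((p - 1) / 2) = 1 then (1:ℂ) else -1) = σ1 := by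
      split_ifs
      · exact ⟨1, Or.inl rfl, rfl⟩
      · exact ⟨-1, Or.inr rfl, rfl⟩
    have e2 : ∃ σ2 : ℂ, (σ2 = 1 ∨ σ2 = -1) ∧ (((-1) ^ ((p - 1) / 2) * ε t0 : ℤ) : ℂ) = σ2 := by
      refine ⟨_, ?_, rfl⟩
      push_cast
      rcases neg_one_pow_eq_or ℂ ((p - 1) / 2) with h11 | h11 <;> rw [h11] <;>
        rcases hc.sgn t0 with h12 | h12 | h12
      · exact absurd h12 h7
      · exact Or.inl (by rw [h12]; simp)
      · exact Or.inr (by rw [h12]; simp)
      · exact absurd h12 h7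
      · exact Or.inr (by rw [h12]; simp)
      · exact Or.inl (by rw [h12]; simp)
    obtain ⟨σ1, hσ1, e1⟩ := e1
    obtain ⟨σ2, hσ2, e2⟩ := e2
    rw [e1, e2] at h9
    rcases hσ1 with rfl | rfl <;> rcases hσ2 with rfl | rfl
    · exact ⟨1, Or.inl rfl, by linear_combination h9⟩
    · exact ⟨-1, Or.inr rfl, by linear_combination h9⟩
    · exact ⟨-1, Or.inr rfl, by linear_combination -h9⟩
    · exact ⟨1, Or.inl rfl, by linear_combination -h9⟩
  obtain ⟨σ, hσ, h11⟩ := h10
  rcases hσ with rfl | rfl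
  · rw [one_mul] at h11
    exact ew_injective hw h11
  · rw [neg_one_mul] at h11
    exact absurd h11 (ew_ne_neg hp hw.pow_eq_one _ _)

/-- the partial transform of a slice of type II -/
lemma VV_typeII {w : ℂ} (hw : IsPrimitiveRoot w p) (hAB : ∀ k b, h k b = A b + B b * k) (s b : ZMod p) :
    VV w h s b = if B b = -s then (p : ℂ) * ew w (A b) else 0 := by
  rw [VV]
  have h1 : ∀ k, ew w (h k b + s * k) = ew w (A b) * ew w (k * (B b + s)) := by
    intro k
    rw [← ew_add hw.pow_eq_one, hAB]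
    congr 1
    ring
  simp_rw [h1]
  rw [← mul_sum, sum_ew_mul hw]
  by_cases hb : B b = -s
  · rw [if_pos hb, if_pos (by rw [hb]; ring), mul_comm]
  · rw [if_neg hb, if_neg (fun h' => hb (by linear_combination h')), mul_zero]

/-- Gauss sum times a root of unity as a sum of `p` roots of unity -/
lemma gs_mul_ew {w : ℂ} (hw : IsPrimitiveRoot w p) (m : ZMod p) :
    gs p w * ew w m = ∑ k : ZMod p, ew w (k ^ 2 + m) := by
  have h1 : gs p w = ∑ k : ZMod p, ew w (k ^ 2) := by
    rw [gs]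
    symm
    apply sum_bij (fun (k : ZMod p) _ => k.val)
    · intro k _; exact mem_range.2 (ZMod.val_lt k)
    · intro k _ l _ hkl; exact ZMod.val_injective p hkl
    · intro n hn
      exact ⟨(n : ZMod p), mem_univ _, ZMod.val_cast_of_lt (mem_range.1 hn)⟩
    · intro k _
      rw [← ew_natCast hw.pow_eq_one]
      congr 1
      push_cast
      rw [ZMod.natCast_zmod_val]
  rw [h1, sum_mul]
  apply sum_congr rfl
  intro k _
  rw [ew_add hw.pow_eq_one]

/-- (8) slices of type II, part 1 : `B` is constant -/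
lemma Good.typeII_const (hp : p ≠ 2) (hg : Good h) (hAB : ∀ k b, h k b = A b + B b * k)
    {s : ZMod p} (hs : s ≠ 0) (b0 : ZMod p) (hb0 : B b0 = -s) : ∀ b, B b = -s := by
  classical
  obtain ⟨w, hw⟩ := exists_prim (p := p)
  obtain ⟨ε, m, hc⟩ := hg.coef hs
  have hp0 := p_pos (p := p)
  set β := univ.filter (fun b => B b = -s) with hβ
  -- nz = card β
  have h1 := parseval_SS hw h s
  rw [hc.sum_norm_sq hp hw] at h1
  simp_rw [VV_typeII hw hAB] at h1
  have h2 : ∀ b, ‖(if B b = -s then (p : ℂ) * ew w (A b) else 0)‖ ^ 2 =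
      if B b = -s then (p : ℝ) ^ 2 else 0 := by
    intro b
    split_ifs
    · rw [norm_mul, norm_ew hw.pow_eq_one, mul_one, Complex.norm_natCast]
    · simp
  simp_rw [h2] at h1
  rw [← sum_filter, sum_const, nsmul_eq_mul] at h1
  have h3 : (nz ε : ℝ) = β.card := by
    have h5 : (p : ℝ) ^ 3 * nz ε = (p : ℝ) ^ 3 * β.card := by rw [mul_comm, h1]; ring
    exact mul_left_cancel₀ (pow_ne_zero 3 hp0.ne') h5
  have h4 : nz ε = β.card := by exact_mod_cast h3
  have h5 : 0 < β.card := card_pos.2 ⟨b0, mem_filter.2 ⟨mem_univ _, hb0⟩⟩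
  rw [← h4, nz, card_pos] at h5
  obtain ⟨t, ht⟩ := h5
  have h6 : ε t ≠ 0 := (mem_filter.1 ht).2
  -- the sum
  have h7 : (p : ℂ) * ∑ x : β, ew w (A (x : ZMod p) + t * (x : ZMod p)) = ε t * ew w (m t) * gs p w ^ 3 := by
    rw [← hc.eq w hw t, SS_eq hw.pow_eq_one]
    simp_rw [VV_typeII hw hAB]
    have e1 : ∀ b, (if B b = -s then (p : ℂ) * ew w (A b) else 0) * ew w (t * b) =
        if B b = -s then (p : ℂ) * ew w (A b + t * b) else 0 := by
      intro b
      split_ifs
      · rw [ew_add hw.pow_eq_one, mul_assoc]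
      · rw [zero_mul]
    simp_rw [e1]
    rw [← sum_filter, ← mul_sum]
    congr 1
    rw [← hβ]
    exact (sum_coe_sort β (fun b => ew w (A b + t * b)))
  have h8 : ∑ x : β, ew w (A (x : ZMod p) + t * (x : ZMod p)) = (((-1) ^ ((p - 1) / 2) * ε t : ℤ) : ℂ) * (gs p w * ew w (m t)) := by
    apply mul_left_cancel₀ (p_ne_zero (p := p))
    rw [h7, pow_succ, gs_sq hp hw]
    push_cast
    ring
  have h9 : (β.card : ZMod p) = 0 := by
    rw [gs_mul_ew hw] at h8
    have e2 : (((-1) ^ ((p - 1) / 2) * ε t : ℤ) : ℂ) = 1 ∨ (((-1) ^ ((p - 1) / 2) * ε t : ℤ) : ℂ) = -1 := by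
      push_cast
      rcases neg_one_pow_eq_or ℂ ((p - 1) / 2) with h11 | h11 <;> rw [h11] <;>
        rcases hc.sgn t with h12 | h12 | h12
      · exact absurd h12 h6
      · exact Or.inl (by rw [h12]; simp)
      · exact Or.inr (by rw [h12]; simp)
      · exact absurd h12 h6
      · exact Or.inr (by rw [h12]; simp)
      · exact Or.inl (by rw [h12]; simp)
    rcases e2 with e2 | e2
    · rw [e2, one_mul] at h8
      have := count_congr hw (fun x : β => A (x : ZMod p) + t * (x : ZMod p)) (fun k : ZMod p => k ^ 2 + m t) h8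
      rw [Fintype.card_coe, ZMod.card, ZMod.natCast_self] at this
      exact this
    · rw [e2, neg_one_mul] at h8
      have := count_congr hw (Sum.elim (fun x : β => A (x : ZMod p) + t * (x : ZMod p)) (fun k : ZMod p => k ^ 2 + m t))
        (fun x : Empty => x.elim) (by
          rw [Fintype.sum_sum_type]
          simp only [Sum.elim_inl, Sum.elim_inr, univ_eq_empty, sum_empty]
          rw [h8]; ring)
      rw [Fintype.card_sum, Fintype.card_coe, ZMod.card] at this
      simpa using this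
  have h10 : β.card = p := by
    rw [ZMod.natCast_eq_zero_iff] at h9
    have e1 : β.card ≤ p := by
      have := card_le_univ β
      rwa [ZMod.card] at this
    have e2 : 0 < β.card := card_pos.2 ⟨b0, mem_filter.2 ⟨mem_univ _, hb0⟩⟩
    exact le_antisymm e1 (Nat.le_of_dvd e2 h9)
  intro b
  have h11 : β = univ := by
    rw [← card_eq_iff_eq_univ, h10, ZMod.card]
  have h12 : b ∈ β := by rw [h11]; exact mem_univ _
  exact (mem_filter.1 h12).2

/-- (8) slices of type II -/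
lemma Good.typeII (hp : p ≠ 2) (hg : Good h) (hAB : ∀ k b, h k b = A b + B b * k) :
    ∃ β0 : ZMod p, (∀ b, B b = β0) ∧ ∀ w : ℂ, IsPrimitiveRoot w p → ∀ t : ZMod p,
      ‖∑ b, ew w (A b + t * b)‖ ^ 2 = p := by
  have hp0 := p_pos (p := p)
  by_cases h0 : ∀ b, B b = 0
  · refine ⟨0, h0, fun w hw => ?_⟩
    have h1 : ∀ t, SS w h 0 t = p * ∑ b, ew w (A b + t * b) := by
      intro t
      rw [SS_eq hw.pow_eq_one, mul_sum]
      apply sum_congr rfl
      intro b _
      rw [VV_typeII hw hAB, if_pos (by rw [h0]; simp), ew_add hw.pow_eq_one, mul_assoc]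
    have h2 : ∀ t, ‖∑ b, ew w (A b + t * b)‖ ^ 2 ≤ p := by
      intro t
      have h3 := hg.b2 w hw t
      rw [h1, norm_mul, Complex.norm_natCast, mul_pow] at h3
      have h4 : (p : ℝ) ^ 2 * ‖∑ b, ew w (A b + t * b)‖ ^ 2 ≤ (p : ℝ) ^ 2 * p := by
        calc _ ≤ (p : ℝ) ^ 3 := h3
          _ = _ := by ring
      exact le_of_mul_le_mul_left h4 (by positivity)
    have h3 : ∑ t : ZMod p, ‖∑ b, ew w (A b + t * b)‖ ^ 2 = ∑ t : ZMod p, (p : ℝ) := by
      have h4 := parseval hw (fun b => ew w (A b))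
      simp_rw [ew_add hw.pow_eq_one]
      rw [h4]
      simp_rw [norm_ew hw.pow_eq_one]
      simp [ZMod.card]
    have h4 := (sum_eq_sum_iff_of_le (fun t _ => h2 t)).1 h3
    exact fun t => h4 t (mem_univ _)
  · push Not at h0
    obtain ⟨b0, hb0⟩ := h0
    have hs : -(B b0) ≠ 0 := neg_ne_zero.2 hb0
    have h1 := hg.typeII_const hp hAB hs b0 (by simp)
    refine ⟨B b0, fun b => by rw [h1 b]; simp, fun w hw => ?_⟩
    obtain ⟨ε, m, hc⟩ := hg.coef hs
    have h1' : ∀ t, SS w h (-(B b0)) t = p * ∑ b, ew w (A b + t * b) := by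
      intro t
      rw [SS_eq hw.pow_eq_one, mul_sum]
      apply sum_congr rfl
      intro b _
      rw [VV_typeII hw hAB, if_pos (h1 b), ew_add hw.pow_eq_one, mul_assoc]
    have h2 := parseval_SS hw h (-(B b0))
    rw [hc.sum_norm_sq hp hw] at h2
    have h3 : ∀ b, ‖VV w h (-(B b0)) b‖ ^ 2 = (p : ℝ) ^ 2 := by
      intro b
      rw [VV_typeII hw hAB, if_pos (h1 b), norm_mul, norm_ew hw.pow_eq_one, mul_one,
        Complex.norm_natCast]
    simp_rw [h3] at h2
    rw [sum_const, card_univ, ZMod.card, nsmul_eq_mul] at h2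
    have h4 : (nz ε : ℝ) = p := by
      have h5 : (p : ℝ) ^ 3 * nz ε = (p : ℝ) ^ 3 * p := by rw [mul_comm, h2]; ring
      exact mul_left_cancel₀ (pow_ne_zero 3 hp0.ne') h5
    have h5 : nz ε = p := by exact_mod_cast h4
    have h6 : univ.filter (fun t => ε t ≠ 0) = univ := by
      rw [← card_eq_iff_eq_univ, ZMod.card]
      exact h5
    intro t
    have h7 : ε t ≠ 0 := by
      have : t ∈ univ.filter (fun t => ε t ≠ 0) := by rw [h6]; exact mem_univ _
      exact (mem_filter.1 this).2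
    have h8 := hc.norm_sq hp hw t
    rw [if_pos h7, h1', norm_mul, Complex.norm_natCast, mul_pow] at h8
    have h9 : (p : ℝ) ^ 2 * ‖∑ b, ew w (A b + t * b)‖ ^ 2 = (p : ℝ) ^ 2 * p := by
      rw [h8]; ring
    exact mul_left_cancel₀ (pow_ne_zero 2 hp0.ne') h9

end

/-- (9) there is no two dimensional family of good functions -/
theorem no_pair (hp : p ≠ 2) (h1 h2 : ZMod p → ZMod p → ZMod p)
    (hg : ∀ v1 v2 : ZMod p, (v1 ≠ 0 ∨ v2 ≠ 0) → Good (fun k b => v1 * h1 k b + v2 * h2 k b)) :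
    False := by
  classical
  obtain ⟨w, hw⟩ := exists_prim (p := p)
  have hp0 := p_pos (p := p)
  have hp1 : 1 < p := (Fact.out : p.Prime).one_lt
  have g1 : Good h1 := by
    have := hg 1 0 (Or.inl one_ne_zero)
    simpa using this
  have g2 : Good h2 := by
    have := hg 0 1 (Or.inr one_ne_zero)
    simpa using this
  obtain ⟨A1, B1, C1, e1⟩ := g1.quadratic hp
  obtain ⟨A2, B2, C2, e2⟩ := g2.quadratic hp
  have e12 : ∀ v1 v2 k b, v1 * h1 k b + v2 * h2 k b =
      (v1 * A1 b + v2 * A2 b) + (v1 * B1 b + v2 * B2 b) * k + (v1 * C1 b + v2 * C2 b) * k ^ 2 := by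
    intro v1 v2 k b
    rw [e1, e2]
    ring
  by_cases hC : C1 0 = 0 ∧ C2 0 = 0
  · -- all of type II
    have z1 : ∀ b, C1 b = 0 := g1.zero_iff hp e1 hC.1
    have z2 : ∀ b, C2 b = 0 := g2.zero_iff hp e2 hC.2
    have k1 : ∀ v1 v2 : ZMod p, (v1 ≠ 0 ∨ v2 ≠ 0) →
        ‖∑ b, ew w (v1 * A1 b + v2 * A2 b)‖ ^ 2 = p := by
      intro v1 v2 hv
      obtain ⟨β0, -, h3⟩ := (hg v1 v2 hv).typeII hp (A := fun b => v1 * A1 b + v2 * A2 b)
        (B := fun b => v1 * B1 b + v2 * B2 b) (by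
          intro k b
          rw [e12, z1, z2]
          ring)
      have := h3 w hw 0
      simpa using this
    -- count
    have k2 : ∑ v1 : ZMod p, ∑ v2 : ZMod p, ‖∑ b, ew w (v1 * A1 b + v2 * A2 b)‖ ^ 2 =
        (p : ℝ) ^ 2 + (p ^ 2 - 1) * p := by
      have h3 : ∀ v1 v2 : ZMod p, ‖∑ b, ew w (v1 * A1 b + v2 * A2 b)‖ ^ 2 =
          p + if v1 = 0 ∧ v2 = 0 then ((p : ℝ) ^ 2 - p) else 0 := by
        intro v1 v2
        by_cases hv : v1 = 0 ∧ v2 = 0
        · rw [if_pos hv, hv.1, hv.2]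
          simp [ew_zero, ZMod.card]
        · rw [if_neg hv, add_zero]
          apply k1
          by_contra hcon
          push Not at hcon
          exact hv hcon
      simp_rw [h3, sum_add_distrib]
      have h4 : ∑ v1 : ZMod p, ∑ v2 : ZMod p, (if v1 = 0 ∧ v2 = 0 then ((p : ℝ) ^ 2 - p) else 0) =
          (p : ℝ) ^ 2 - p := by
        simp_rw [ite_and]
        simp
      rw [h4]
      simp only [sum_const, card_univ, ZMod.card, nsmul_eq_mul]
      ring
    have k3 : ((∑ v1 : ZMod p, ∑ v2 : ZMod p, ‖∑ b, ew w (v1 * A1 b + v2 * A2 b)‖ ^ 2 : ℝ) : ℂ) =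
        (p : ℂ) ^ 2 * (∑ b : ZMod p, ∑ c : ZMod p, if A1 b = A1 c ∧ A2 b = A2 c then (1 : ℂ) else 0) := by
      push_cast
      have h3 : ∀ v1 v2 : ZMod p, ((‖∑ b, ew w (v1 * A1 b + v2 * A2 b)‖ : ℝ) : ℂ) ^ 2 =
          ∑ b, ∑ c, ew w (v1 * (A1 b - A1 c)) * ew w (v2 * (A2 b - A2 c)) := by
        intro v1 v2
        rw [← Complex.ofReal_pow, norm_sq_sum hw.pow_eq_one]
        apply sum_congr rfl
        intro b _
        apply sum_congr rfl
        intro c _
        rw [← ew_add hw.pow_eq_one]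
        congr 1
        ring
      simp_rw [h3]
      have h4 : ∀ v1 : ZMod p, ∑ v2 : ZMod p, ∑ b, ∑ c, ew w (v1 * (A1 b - A1 c)) *
          ew w (v2 * (A2 b - A2 c)) = ∑ b, ∑ c, ew w (v1 * (A1 b - A1 c)) *
            (if A2 b - A2 c = 0 then (p : ℂ) else 0) := by
        intro v1
        rw [sum_comm]
        apply sum_congr rfl
        intro b _
        rw [sum_comm]
        apply sum_congr rfl
        intro c _
        rw [← mul_sum, sum_ew_mul hw]
      simp_rw [h4]
      rw [sum_comm, mul_sum]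
      apply sum_congr rfl
      intro b _
      rw [sum_comm, mul_sum]
      apply sum_congr rfl
      intro c _
      rw [← sum_mul, sum_ew_mul hw]
      by_cases x1 : A1 b = A1 c <;> by_cases x2 : A2 b = A2 c <;>
        simp [x1, x2, sub_eq_zero, sq]
    rw [k2] at k3
    have k4 : (∑ b : ZMod p, ∑ c : ZMod p, if A1 b = A1 c ∧ A2 b = A2 c then (1 : ℂ) else 0) =
        ((∑ b : ZMod p, ∑ c : ZMod p, if A1 b = A1 c ∧ A2 b = A2 c then 1 else 0 : ℕ) : ℂ) := by
      push_cast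
      rfl
    rw [k4] at k3
    set N : ℕ := ∑ b : ZMod p, ∑ c : ZMod p, if A1 b = A1 c ∧ A2 b = A2 c then 1 else 0 with hN
    have k5 : (p : ℤ) ^ 2 + (p ^ 2 - 1) * p = p ^ 2 * N := by exact_mod_cast k3
    have k6 : (p : ℤ) * (p * (1 + p - N)) = p * 1 := by linear_combination k5
    have k7 := mul_left_cancel₀ (by exact_mod_cast (by omega : p ≠ 0)) k6
    have k8 : (p : ℤ) ∣ 1 := Dvd.intro _ k7
    have k9 : p ∣ 1 := by exact_mod_cast k8
    have := Nat.le_of_dvd one_pos k9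
    omega
  · -- mixed types
    have hv0 : C2 0 ≠ 0 ∨ -(C1 0) ≠ 0 := by
      by_contra hcon
      push Not at hcon
      exact hC ⟨neg_eq_zero.1 hcon.2, hcon.1⟩
    have g0 := hg (C2 0) (-(C1 0)) hv0
    have z0 : ∀ b, C2 0 * C1 b + -(C1 0) * C2 b = 0 :=
      g0.zero_iff hp (e12 _ _) (b := 0) (by ring)
    obtain ⟨β0, hβ, hbent⟩ := g0.typeII hp (A := fun b => C2 0 * A1 b + -(C1 0) * A2 b)
        (B := fun b => C2 0 * B1 b + -(C1 0) * B2 b) (by
          intro k b
          rw [e12, z0]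
          ring)
    -- choose v1
    obtain ⟨v1, v2, hv⟩ : ∃ v1 v2 : ZMod p, v1 * C1 0 + v2 * C2 0 ≠ 0 := by
      by_cases h3 : C1 0 = 0
      · have h4 : C2 0 ≠ 0 := fun h4 => hC ⟨h3, h4⟩
        exact ⟨0, 1, by simpa using h4⟩
      · exact ⟨1, 0, by simpa using h3⟩
    have hvne : v1 ≠ 0 ∨ v2 ≠ 0 := by
      by_contra hcon
      push Not at hcon
      apply hv
      rw [hcon.1, hcon.2]
      ring
    have hv' : (v1 + C2 0) * C1 0 + (v2 + -(C1 0)) * C2 0 ≠ 0 := by
      intro h3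
      apply hv
      linear_combination h3
    have hvne' : v1 + C2 0 ≠ 0 ∨ v2 + -(C1 0) ≠ 0 := by
      by_contra hcon
      push Not at hcon
      apply hv'
      rw [hcon.1, hcon.2]
      ring
    have gv := hg v1 v2 hvne
    have gv' := hg (v1 + C2 0) (v2 + -(C1 0)) hvne'
    have nv : ∀ b, v1 * C1 b + v2 * C2 b ≠ 0 := by
      intro b hb
      exact hv (gv.zero_iff hp (e12 _ _) hb 0)
    have nv' : ∀ b, (v1 + C2 0) * C1 b + (v2 + -(C1 0)) * C2 b ≠ 0 := by
      intro b hb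
      exact hv' (gv'.zero_iff hp (e12 _ _) hb 0)
    obtain ⟨s, hs, hs'⟩ := exists_good_s hp β0
    obtain ⟨m, t, hm⟩ := gv.typeI hp (e12 _ _) nv hs'
    obtain ⟨m', t', hm'⟩ := gv'.typeI hp (e12 _ _) nv' hs
    have haff : ∀ b, (C2 0 * A1 b + -(C1 0) * A2 b) + (t' - t) * b = m' - m := by
      intro b
      have x1 := hm b
      have x2 := hm' b
      have x3 : (v1 + C2 0) * C1 b + (v2 + -(C1 0)) * C2 b = v1 * C1 b + v2 * C2 b := by
        linear_combination z0 b
      have x4 : (v1 + C2 0) * B1 b + (v2 + -(C1 0)) * B2 b + s = v1 * B1 b + v2 * B2 b + (β0 + s) := by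
        linear_combination hβ b
      rw [x3, x4] at x2
      linear_combination x2 - x1
    have h3 := hbent w hw (t' - t)
    simp_rw [haff] at h3
    rw [sum_const, card_univ, ZMod.card, nsmul_eq_mul, norm_mul, norm_ew hw.pow_eq_one, mul_one,
      Complex.norm_natCast] at h3
    have h4 : (p : ℝ) * p = p * 1 := by rw [mul_one, ← sq, h3]
    have h5 := mul_left_cancel₀ hp0.ne' h4
    have h6 : p = 1 := by exact_mod_cast h5
    omega

end Pool.Agent.H88.Pl
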